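import Pool.Agent.K6.H4.ItmDefs

/-! Basic facts on models of induced topological minors. -/

set_option autoImplicit false

namespace Pool.Agent.K6.H4.Itm

open SimpleGraph

variable {V W W' : Type} {H : SimpleGraph W} {H' : SimpleGraph W'} {G : SimpleGraph V}

/-- an induced copy is an induced topological minor -/
def Model.ofEmb (f : H ↪g G) : Model H G where
  b := f
  P := fun u v h => Walk.cons (f.map_adj_iff.2 h) Walk.nil
  inj := f.injective
  path := by
    intro u v h
    simp [h.ne, f.injective.eq_iff]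
  symm := by
    intro u v h
    apply Walk.ext_support
    simp
  branch := by
    intro u v h w hw
    simpa [f.injective.eq_iff] using hw
  disj := by
    intro u v h u' v' h' x hx _
    right
    simp only [Walk.support_cons, Walk.support_nil, List.mem_cons, List.not_mem_nil, or_false] at hx
    rcases hx with rfl | rfl
    · exact ⟨u, rfl⟩
    · exact ⟨v, rfl⟩
  ind := by
    intro x y hx hy hxy
    have h1 : ∀ x, (x ∈ Set.range f ∨ ∃ u v, ∃ h : H.Adj u v,
        x ∈ (Walk.cons (f.map_adj_iff.2 h) (Walk.nil : G.Walk (f v) (f v))).support) →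
        ∃ u, f u = x := by
      rintro x (⟨w, rfl⟩ | ⟨u, v, h, hx⟩)
      · exact ⟨w, rfl⟩
      · simp only [Walk.support_cons, Walk.support_nil, List.mem_cons, List.not_mem_nil,
          or_false] at hx
        rcases hx with rfl | rfl
        · exact ⟨u, rfl⟩
        · exact ⟨v, rfl⟩
    obtain ⟨u, rfl⟩ := h1 x hx
    obtain ⟨v, rfl⟩ := h1 y hy
    exact ⟨u, v, f.map_adj_iff.1 hxy, by simp⟩

theorem itm_of_emb (f : H ↪g G) : IsInducedTopologicalMinor H G := itm_of_model (Model.ofEmb f)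

namespace Model

variable (M : Model H G)

theorem mem_left {u v : W} (h : H.Adj u v) : M.b u ∈ (M.P u v h).support :=
  Walk.start_mem_support _

theorem mem_right {u v : W} (h : H.Adj u v) : M.b v ∈ (M.P u v h).support :=
  Walk.end_mem_support _

theorem in_b (u : W) : M.In (M.b u) := Or.inl ⟨u, rfl⟩

theorem in_P {u v : W} (h : H.Adj u v) {x : V} (hx : x ∈ (M.P u v h).support) : M.In x :=
  Or.inr ⟨u, v, h, hx⟩

theorem exists_edge {x y : V} (hx : M.In x) (hy : M.In y) (hxy : G.Adj x y) :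
    ∃ u v, ∃ h : H.Adj u v, x ∈ (M.P u v h).support ∧ y ∈ (M.P u v h).support := by
  obtain ⟨u, v, h, hm⟩ := M.ind x y hx hy hxy
  exact ⟨u, v, h, Walk.fst_mem_support_of_mem_edges _ hm, Walk.snd_mem_support_of_mem_edges _ hm⟩

/-- a vertex on two paths is `b w` for a common end `w` -/
theorem common {u v u' v' : W} (h : H.Adj u v) (h' : H.Adj u' v') {x : V}
    (hx : x ∈ (M.P u v h).support) (hx' : x ∈ (M.P u' v' h').support) :
    s(u, v) = s(u', v') ∨ ∃ w, M.b w = x ∧ (w = u ∨ w = v) ∧ (w = u' ∨ w = v') := by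
  rcases M.disj u v h u' v' h' x hx hx' with h1 | ⟨w, rfl⟩
  · exact Or.inl h1
  · exact Or.inr ⟨w, rfl, M.branch u v h w hx, M.branch u' v' h' w hx'⟩

theorem adj_b {u v : W} (h : G.Adj (M.b u) (M.b v)) : H.Adj u v := by
  obtain ⟨p, q, hpq, h1, h2⟩ := M.exists_edge (M.in_b u) (M.in_b v) h
  have huv : u ≠ v := by
    rintro rfl
    exact G.irrefl h
  rcases M.branch p q hpq u h1 with rfl | rfl <;> rcases M.branch _ _ hpq v h2 with rfl | rfl
  · exact absurd rfl huv
  · exact hpq
  · exact hpq.symm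
  · exact absurd rfl huv

/-- restriction to an induced subgraph of `H` -/
def sub (φ : H' ↪g H) : Model H' G where
  b := fun w => M.b (φ w)
  P := fun u v h => M.P (φ u) (φ v) (φ.map_adj_iff.2 h)
  inj := M.inj.comp φ.injective
  path := fun u v h => M.path _ _ _
  symm := fun u v h => M.symm _ _ (φ.map_adj_iff.2 h)
  branch := by
    intro u v h w hw
    rcases M.branch _ _ _ _ hw with h1 | h1
    · exact Or.inl (φ.injective h1)
    · exact Or.inr (φ.injective h1)
  disj := by
    intro u v h u' v' h' x hx hx'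
    rcases M.common _ _ hx hx' with h1 | ⟨w, rfl, h1, h2⟩
    · left
      rw [Sym2.eq_iff] at h1 ⊢
      simpa only [φ.injective.eq_iff] using h1
    · right
      rcases h1 with rfl | rfl
      · exact ⟨u, rfl⟩
      · exact ⟨v, rfl⟩
  ind := by
    intro x y hx hy hxy
    have hin : ∀ x, (x ∈ Set.range (fun w => M.b (φ w)) ∨ ∃ u v, ∃ h : H'.Adj u v,
        x ∈ (M.P (φ u) (φ v) (φ.map_adj_iff.2 h)).support) → M.In x := by
      rintro x (⟨w, rfl⟩ | ⟨u, v, h, hx⟩)
      · exact M.in_b _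
      · exact M.in_P _ hx
    have key : ∀ x, (x ∈ Set.range (fun w => M.b (φ w)) ∨ ∃ u v, ∃ h : H'.Adj u v,
        x ∈ (M.P (φ u) (φ v) (φ.map_adj_iff.2 h)).support) → ∀ p q (h : H.Adj p q),
        x ∈ (M.P p q h).support → (∃ u v, H'.Adj u v ∧ s(p, q) = s(φ u, φ v)) ∨
          ∃ w, M.b (φ w) = x ∧ (φ w = p ∨ φ w = q) := by
      rintro x (⟨w, rfl⟩ | ⟨u, v, h, hx⟩) p q hpq hxp
      · exact Or.inr ⟨w, rfl, M.branch _ _ _ _ hxp⟩
      · rcases M.common _ _ hx hxp with h1 | ⟨w, rfl, h1, h2⟩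
        · exact Or.inl ⟨u, v, h, h1.symm⟩
        · right
          rcases h1 with rfl | rfl
          · exact ⟨u, rfl, h2⟩
          · exact ⟨v, rfl, h2⟩
    obtain ⟨p, q, hpq, hm⟩ := M.ind x y (hin x hx) (hin y hy) hxy
    have hxp := Walk.fst_mem_support_of_mem_edges _ hm
    have hyp := Walk.snd_mem_support_of_mem_edges _ hm
    have fin : (∃ u v, H'.Adj u v ∧ s(p, q) = s(φ u, φ v)) →
        ∃ u v, ∃ h : H'.Adj u v, s(x, y) ∈ (M.P (φ u) (φ v) (φ.map_adj_iff.2 h)).edges := by
      rintro ⟨u, v, huv, hs⟩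
      exact ⟨u, v, huv, (M.edges_eq hpq (φ.map_adj_iff.2 huv) hs _).1 hm⟩
    rcases key x hx p q hpq hxp with h1 | ⟨w, rfl, h1⟩
    · exact fin h1
    · rcases key y hy p q hpq hyp with h2 | ⟨w', rfl, h2⟩
      · exact fin h2
      · apply fin
        have hww : w ≠ w' := by
          rintro rfl
          exact G.irrefl hxy
        rcases h1 with h1 | h1 <;> rcases h2 with h2 | h2
        · exact absurd (φ.injective (h1.trans h2.symm)) hww
        · exact ⟨w, w', φ.map_adj_iff.1 (by rw [h1, h2]; exact hpq), by rw [h1, h2]⟩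
        · exact ⟨w', w, φ.map_adj_iff.1 (by rw [h1, h2]; exact hpq), by rw [h1, h2]⟩
        · exact absurd (φ.injective (h1.trans h2.symm)) hww

/-- the vertex next to `b u` on the path to `b v` -/
def fst {u v : W} (h : H.Adj u v) : V := (M.P u v h).getVert 1

theorem adj_fst {u v : W} (h : H.Adj u v) : G.Adj (M.b u) (M.fst h) := by
  have hne : ¬ (M.P u v h).Nil := by
    apply Walk.not_nil_of_ne
    exact fun he => h.ne (M.inj he)
  exact (M.P u v h).adj_snd hne

theorem fst_mem {u v : W} (h : H.Adj u v) : M.fst h ∈ (M.P u v h).support :=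
  Walk.getVert_mem_support _ _

theorem fst_ne {u v v' : W} (h : H.Adj u v) (h' : H.Adj u v') (hv : v ≠ v') :
    M.fst h ≠ M.fst h' := by
  intro he
  rcases M.common h h' (M.fst_mem h) (he ▸ M.fst_mem h') with h1 | ⟨w, hw, h1, h2⟩
  · rw [Sym2.eq_iff] at h1
    rcases h1 with ⟨_, h1⟩ | ⟨h1, h2⟩
    · exact hv h1
    · exact hv (h2.trans h1)
  · have hwu : w ≠ u := by
      rintro rfl
      exact (M.adj_fst h).ne hw
    exact hv ((h1.resolve_left hwu).symm.trans (h2.resolve_left hwu))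

/-- adjacent vertices on paths of different edges are branch vertices -/
theorem adj_of_ne {u v u' v' : W} (h : H.Adj u v) (h' : H.Adj u' v') (hs : s(u, v) ≠ s(u', v'))
    {x y : V} (hx : x ∈ (M.P u v h).support) (hy : y ∈ (M.P u' v' h').support)
    (hxy : G.Adj x y) (hxn : x ∉ (M.P u' v' h').support) (hyn : y ∉ (M.P u v h).support) :
    ∃ w w', M.b w = x ∧ M.b w' = y ∧ (w = u ∨ w = v) ∧ (w' = u' ∨ w' = v') ∧ H.Adj w w' := by
  obtain ⟨p, q, hpq, h1, h2⟩ := M.exists_edge (M.in_P h hx) (M.in_P h' hy) hxy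
  rcases M.common h hpq hx h1 with h3 | ⟨w, rfl, h3, h4⟩
  · exact absurd ((M.support_eq h hpq h3 y).2 h2) hyn
  · rcases M.common h' hpq hy h2 with h5 | ⟨w', rfl, h5, h6⟩
    · exact absurd ((M.support_eq h' hpq h5 _).2 h1) hxn
    · exact ⟨w, w', rfl, rfl, h3, h5, M.adj_b hxy⟩

theorem fst_adj_fst {u v v' : W} (h : H.Adj u v) (h' : H.Adj u v') (hv : v ≠ v')
    (hadj : G.Adj (M.fst h) (M.fst h')) : M.fst h = M.b v ∧ M.fst h' = M.b v' ∧ H.Adj v v' := by
  have hs : s(u, v) ≠ s(u, v') := by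
    intro h1
    rw [Sym2.eq_iff] at h1
    rcases h1 with ⟨_, h1⟩ | ⟨h1, h2⟩
    · exact hv h1
    · exact hv (h2.trans h1)
  have k1 : M.fst h ∉ (M.P u v' h').support := by
    intro hm
    rcases M.common h h' (M.fst_mem h) hm with h1 | ⟨w, hw, h1, h2⟩
    · exact hs h1
    · have hwu : w ≠ u := by
        rintro rfl
        exact (M.adj_fst h).ne hw
      exact hv ((h1.resolve_left hwu).symm.trans (h2.resolve_left hwu))
  have k2 : M.fst h' ∉ (M.P u v h).support := by
    intro hm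
    rcases M.common h h' hm (M.fst_mem h') with h1 | ⟨w, hw, h1, h2⟩
    · exact hs h1
    · have hwu : w ≠ u := by
        rintro rfl
        exact (M.adj_fst h').ne hw
      exact hv ((h1.resolve_left hwu).symm.trans (h2.resolve_left hwu))
  obtain ⟨w, w', hw, hw', h1, h2, h3⟩ := M.adj_of_ne h h' hs (M.fst_mem h) (M.fst_mem h') hadj k1 k2
  have hwu : w ≠ u := by
    rintro rfl
    exact (M.adj_fst h).ne hw
  have hwu' : w' ≠ u := by
    rintro rfl
    exact (M.adj_fst h').ne hw'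
  obtain rfl := h1.resolve_left hwu
  obtain rfl := h2.resolve_left hwu'
  exact ⟨hw.symm, hw'.symm, h3⟩

/-- paths of far apart edges are far apart -/
theorem far {u v u' v' : W} (h : H.Adj u v) (h' : H.Adj u' v')
    (hd : ∀ w, (w = u ∨ w = v) → ∀ w', (w' = u' ∨ w' = v') → w ≠ w' ∧ ¬ H.Adj w w')
    {x y : V} (hx : x ∈ (M.P u v h).support) (hy : y ∈ (M.P u' v' h').support) :
    x ≠ y ∧ ¬ G.Adj x y := by
  have hs : s(u, v) ≠ s(u', v') := by
    intro h1
    rw [Sym2.eq_iff] at h1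
    rcases h1 with ⟨h1, _⟩ | ⟨h1, _⟩
    · exact (hd u (Or.inl rfl) u' (Or.inl rfl)).1 h1
    · exact (hd u (Or.inl rfl) v' (Or.inr rfl)).1 h1
  have hne : ∀ x, x ∈ (M.P u v h).support → x ∈ (M.P u' v' h').support → False := by
    intro x hx hx'
    rcases M.common h h' hx hx' with h1 | ⟨w, _, h1, h2⟩
    · exact hs h1
    · exact (hd w h1 w h2).1 rfl
  refine ⟨fun h1 => hne x hx (h1 ▸ hy), fun hxy => ?_⟩
  obtain ⟨w, w', _, _, h1, h2, h3⟩ := M.adj_of_ne h h' hs hx hy hxy (fun h1 => hne x hx h1)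
    (fun h1 => hne y h1 hy)
  exact (hd w h1 w' h2).2 h3

/-- a branch vertex far apart from an edge is far apart from its path -/
theorem far_b {u v z : W} (h : H.Adj u v) (h1 : z ≠ u ∧ ¬ H.Adj z u) (h2 : z ≠ v ∧ ¬ H.Adj z v)
    {x : V} (hx : x ∈ (M.P u v h).support) : M.b z ≠ x ∧ ¬ G.Adj (M.b z) x := by
  have hz : M.b z ∉ (M.P u v h).support := by
    intro hz
    rcases M.branch _ _ _ _ hz with h3 | h3
    · exact h1.1 h3
    · exact h2.1 h3
  refine ⟨fun h3 => hz (h3 ▸ hx), fun hadj => ?_⟩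
  obtain ⟨p, q, hpq, h3, h4⟩ := M.exists_edge (M.in_b z) (M.in_P h hx) hadj
  rcases M.common h hpq hx h4 with h5 | ⟨w, rfl, h5, h6⟩
  · exact hz ((M.support_eq h hpq h5 _).2 h3)
  · have := M.adj_b hadj
    rcases h5 with rfl | rfl
    · exact h1.2 this
    · exact h2.2 this

end Model

theorem IsInducedTopologicalMinor.sub (φ : H' ↪g H) (h : IsInducedTopologicalMinor H G) :
    IsInducedTopologicalMinor H' G := by
  obtain ⟨M⟩ := model_of_itm h
  exact itm_of_model (M.sub φ)

end Pool.Agent.K6.H4.Itm
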