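import Pool.Agent.K6.H4.ItmBasic

/-! Graphs which are not induced topological minors of members of some classes. -/

set_option autoImplicit false

namespace Pool.Agent.K6.H4.Itm

open SimpleGraph

variable {V W : Type} {H : SimpleGraph W} {G : SimpleGraph V}

/-- no three independent vertices -/
theorem excl_three (M : Model H G)
    (hG : ∀ x y z : V, x ≠ y → x ≠ z → y ≠ z → G.Adj x y ∨ G.Adj x z ∨ G.Adj y z) :
    ∀ x y z : W, x ≠ y → x ≠ z → y ≠ z → H.Adj x y ∨ H.Adj x z ∨ H.Adj y z := by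
  intro x y z hxy hxz hyz
  rcases hG (M.b x) (M.b y) (M.b z) (fun h => hxy (M.inj h)) (fun h => hxz (M.inj h))
    (fun h => hyz (M.inj h)) with h | h | h
  · exact Or.inl (M.adj_b h)
  · exact Or.inr (Or.inl (M.adj_b h))
  · exact Or.inr (Or.inr (M.adj_b h))

/-- split graphs: no `2K₂` -/
theorem excl_2K2 (M : Model H G) (K : V → Prop) (h1 : ∀ x y, K x → K y → x ≠ y → G.Adj x y)
    (h2 : ∀ x y, ¬ K x → ¬ K y → ¬ G.Adj x y) {u v u' v' : W} (h : H.Adj u v) (h' : H.Adj u' v')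
    (hd : ∀ w, (w = u ∨ w = v) → ∀ w', (w' = u' ∨ w' = v') → w ≠ w' ∧ ¬ H.Adj w w') : False := by
  have a1 := M.adj_fst h
  have a2 := M.adj_fst h'
  have e1 : ∃ x, x ∈ (M.P u v h).support ∧ K x := by
    by_contra hcon
    push Not at hcon
    exact h2 _ _ (hcon _ (M.mem_left h)) (hcon _ (M.fst_mem h)) a1
  have e2 : ∃ x, x ∈ (M.P u' v' h').support ∧ K x := by
    by_contra hcon
    push Not at hcon
    exact h2 _ _ (hcon _ (M.mem_left h')) (hcon _ (M.fst_mem h')) a2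
  obtain ⟨x, hx, hKx⟩ := e1
  obtain ⟨y, hy, hKy⟩ := e2
  obtain ⟨k1, k2⟩ := M.far h h' hd hx hy
  exact k2 (h1 _ _ hKx hKy k1)

/-- split graphs: vertices with two nonadjacent neighbours are adjacent -/
theorem excl_cycle (M : Model H G) (K : V → Prop) (h1 : ∀ x y, K x → K y → x ≠ y → G.Adj x y)
    (h2 : ∀ x y, ¬ K x → ¬ K y → ¬ G.Adj x y) {u v v' w z z' : W} (huv : H.Adj u v)
    (huv' : H.Adj u v') (hv : v ≠ v') (hvv : ¬ H.Adj v v') (hwz : H.Adj w z) (hwz' : H.Adj w z')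
    (hz : z ≠ z') (hzz : ¬ H.Adj z z') (huw : u ≠ w) : H.Adj u w := by
  have key : ∀ {u v v' : W}, H.Adj u v → H.Adj u v' → v ≠ v' → ¬ H.Adj v v' → K (M.b u) := by
    intro u v v' huv huv' hv hvv
    by_contra hK
    have k1 : K (M.fst huv) := by
      by_contra hk
      exact h2 _ _ hK hk (M.adj_fst huv)
    have k2 : K (M.fst huv') := by
      by_contra hk
      exact h2 _ _ hK hk (M.adj_fst huv')
    have := h1 _ _ k1 k2 (M.fst_ne huv huv' hv)
    exact hvv (M.fst_adj_fst huv huv' hv this).2.2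
  exact M.adj_b (h1 _ _ (key huv huv' hv hvv) (key hwz hwz' hz hzz) (fun h => huw (M.inj h)))

/-- `y` has two neighbours nonadjacent to `z` -/
def TwoNb (G : SimpleGraph V) (z y : V) : Prop :=
  (z ≠ y ∧ ¬ G.Adj z y) ∧ ∃ x x', x ≠ x' ∧ G.Adj y x ∧ G.Adj y x' ∧
    (z ≠ x ∧ ¬ G.Adj z x) ∧ (z ≠ x' ∧ ¬ G.Adj z x')

/-- no `K₃ + K₁` -/
theorem excl_K3K1 (M : Model H G)
    (hG : ∀ z y y' : V, TwoNb G z y → TwoNb G z y' → y = y') {u v w z : W} (huv : H.Adj u v)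
    (huw : H.Adj u w) (hvw : H.Adj v w) (h1 : z ≠ u ∧ ¬ H.Adj z u) (h2 : z ≠ v ∧ ¬ H.Adj z v)
    (h3 : z ≠ w ∧ ¬ H.Adj z w) : False := by
  have k1 : TwoNb G (M.b z) (M.b u) := by
    refine ⟨M.far_b huv h1 h2 (M.mem_left huv), M.fst huv, M.fst huw, M.fst_ne _ _ hvw.ne,
      M.adj_fst _, M.adj_fst _, M.far_b huv h1 h2 (M.fst_mem _), M.far_b huw h1 h3 (M.fst_mem _)⟩
  have k2 : TwoNb G (M.b z) (M.b v) := by
    refine ⟨M.far_b huv h1 h2 (M.mem_right huv), M.fst huv.symm, M.fst hvw, M.fst_ne _ _ huw.ne,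
      M.adj_fst _, M.adj_fst _, M.far_b huv.symm h2 h1 (M.fst_mem _),
      M.far_b hvw h2 h3 (M.fst_mem _)⟩
  exact huv.ne (M.inj (hG _ _ _ k1 k2))

/-- truncated graphs: the classes of `c` are cliques of size at most three, and every vertex has at
most one neighbour outside its class -/
structure Trc {C : Type} (G : SimpleGraph V) (c : V → C) : Prop where
  cl : ∀ x y, c x = c y → x ≠ y → G.Adj x y
  one : ∀ x y y', G.Adj x y → G.Adj x y' → c y ≠ c x → c y' ≠ c x → y = y'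
  three : ∀ x y z w, x ≠ y → x ≠ z → x ≠ w → y ≠ z → y ≠ w → z ≠ w → c x = c y → c x = c z →
    c x = c w → False

theorem excl_deg {C : Type} {c : V → C} (hG : Trc G c) (M : Model H G) {u v1 v2 v3 v4 : W}
    (h1 : H.Adj u v1) (h2 : H.Adj u v2) (h3 : H.Adj u v3) (h4 : H.Adj u v4) (h12 : v1 ≠ v2)
    (h13 : v1 ≠ v3) (h14 : v1 ≠ v4) (h23 : v2 ≠ v3) (h24 : v2 ≠ v4) (h34 : v3 ≠ v4) : False := by
  have n12 := M.fst_ne h1 h2 h12
  have n13 := M.fst_ne h1 h3 h13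
  have n14 := M.fst_ne h1 h4 h14
  have n23 := M.fst_ne h2 h3 h23
  have n24 := M.fst_ne h2 h4 h24
  have n34 := M.fst_ne h3 h4 h34
  have a1 := M.adj_fst h1
  have a2 := M.adj_fst h2
  have a3 := M.adj_fst h3
  have a4 := M.adj_fst h4
  have o12 := hG.one _ _ _ a1 a2
  have o13 := hG.one _ _ _ a1 a3
  have o14 := hG.one _ _ _ a1 a4
  have o23 := hG.one _ _ _ a2 a3
  have o24 := hG.one _ _ _ a2 a4
  have o34 := hG.one _ _ _ a3 a4
  by_cases c1 : c (M.fst h1) = c (M.b u)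
  · by_cases c2 : c (M.fst h2) = c (M.b u)
    · by_cases c3 : c (M.fst h3) = c (M.b u)
      · exact hG.three _ _ _ _ a1.ne a2.ne a3.ne n12 n13 n23 c1.symm c2.symm c3.symm
      · by_cases c4 : c (M.fst h4) = c (M.b u)
        · exact hG.three _ _ _ _ a1.ne a2.ne a4.ne n12 n14 n24 c1.symm c2.symm c4.symm
        · exact n34 (o34 c3 c4)
    · by_cases c3 : c (M.fst h3) = c (M.b u)
      · by_cases c4 : c (M.fst h4) = c (M.b u)
        · exact hG.three _ _ _ _ a1.ne a3.ne a4.ne n13 n14 n34 c1.symm c3.symm c4.symm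
        · exact n24 (o24 c2 c4)
      · exact n23 (o23 c2 c3)
  · by_cases c2 : c (M.fst h2) = c (M.b u)
    · by_cases c3 : c (M.fst h3) = c (M.b u)
      · by_cases c4 : c (M.fst h4) = c (M.b u)
        · exact hG.three _ _ _ _ a2.ne a3.ne a4.ne n23 n24 n34 c2.symm c3.symm c4.symm
        · exact n14 (o14 c1 c4)
      · exact n13 (o13 c1 c3)
    · exact n12 (o12 c1 c2)

theorem trc_pair {C : Type} {c : V → C} (hG : Trc G c) (M : Model H G) {u v1 v2 v3 : W}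
    (h1 : H.Adj u v1) (h2 : H.Adj u v2) (h3 : H.Adj u v3) (h12 : v1 ≠ v2)
    (h13 : v1 ≠ v3) (h23 : v2 ≠ v3) :
    (c (M.b v1) = c (M.b u) ∧ c (M.b v2) = c (M.b u)) ∨
    (c (M.b v1) = c (M.b u) ∧ c (M.b v3) = c (M.b u)) ∨
    (c (M.b v2) = c (M.b u) ∧ c (M.b v3) = c (M.b u)) := by
  have key : ∀ {v v' : W} (h : H.Adj u v) (h' : H.Adj u v'), v ≠ v' →
      c (M.fst h) = c (M.b u) → c (M.fst h') = c (M.b u) →
      c (M.b v) = c (M.b u) ∧ c (M.b v') = c (M.b u) := by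
    intro v v' h h' hv e1 e2
    have hadj := hG.cl _ _ (e1.trans e2.symm) (M.fst_ne h h' hv)
    obtain ⟨f1, f2, _⟩ := M.fst_adj_fst h h' hv hadj
    rw [f1] at e1
    rw [f2] at e2
    exact ⟨e1, e2⟩
  have a1 := M.adj_fst h1
  have a2 := M.adj_fst h2
  have a3 := M.adj_fst h3
  by_cases c1 : c (M.fst h1) = c (M.b u)
  · by_cases c2 : c (M.fst h2) = c (M.b u)
    · exact Or.inl (key h1 h2 h12 c1 c2)
    · by_cases c3 : c (M.fst h3) = c (M.b u)
      · exact Or.inr (Or.inl (key h1 h3 h13 c1 c3))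
      · exact absurd (hG.one _ _ _ a2 a3 c2 c3) (M.fst_ne h2 h3 h23)
  · by_cases c2 : c (M.fst h2) = c (M.b u)
    · by_cases c3 : c (M.fst h3) = c (M.b u)
      · exact Or.inr (Or.inr (key h2 h3 h23 c2 c3))
      · exact absurd (hG.one _ _ _ a1 a3 c1 c3) (M.fst_ne h1 h3 h13)
    · exact absurd (hG.one _ _ _ a1 a2 c1 c2) (M.fst_ne h1 h2 h12)

theorem excl_K4 {C : Type} {c : V → C} (hG : Trc G c) (M : Model H G) {u v w z : W}
    (huv : H.Adj u v) (huw : H.Adj u w) (huz : H.Adj u z) (hvw : H.Adj v w) (hvz : H.Adj v z)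
    (hwz : H.Adj w z) : False := by
  have p1 := trc_pair hG M huv huw huz hvw.ne hvz.ne hwz.ne
  have p2 := trc_pair hG M huv.symm hvw hvz huw.ne huz.ne hwz.ne
  have p3 := trc_pair hG M huw.symm hvw.symm hwz huv.ne huz.ne hvz.ne
  have p4 := trc_pair hG M huz.symm hvz.symm hwz.symm huv.ne huw.ne hvw.ne
  have n : ∀ {x y : W}, H.Adj x y → M.b x ≠ M.b y := fun h h' => h.ne (M.inj h')
  refine hG.three _ _ _ _ (n huv) (n huw) (n huz) (n hvw) (n hvz) (n hwz) ?_ ?_ ?_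
  · grind
  · grind
  · grind

end Pool.Agent.K6.H4.Itm
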