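import Pool.Agent.H175R2.Cut
import Pool.Agent.K6.H4.ItmExcl

/-! The truncated walls: unbounded clique-width. -/

set_option autoImplicit false

namespace Pool.Agent.K6.H4.Itm

open SimpleGraph Pool.Agent.H175R2 Pool.Agent.H175R2.CutAux

/-- adjacency in the truncated wall, in coordinates -/
def RW (a b s a' b' s' : ℕ) : Prop :=
    (a = a' ∧ b = b' ∧ s ≠ s' ∧ (s / 3 = s' / 3 ∨ (s = 2 ∧ s' = 5) ∨ (s = 5 ∧ s' = 2))) ∨
    (a = a' ∧ b + 1 = b' ∧ s = 3 ∧ s' = 0) ∨
    (a = a' ∧ b' + 1 = b ∧ s = 0 ∧ s' = 3) ∨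
    (a + 1 = a' ∧ b = b' ∧ s = 4 ∧ s' = 1) ∨
    (a' + 1 = a ∧ b = b' ∧ s = 1 ∧ s' = 4)

theorem RW.symm {a b s a' b' s' : ℕ} (h : RW a b s a' b' s') : RW a' b' s' a b s := by
  unfold RW at *
  rcases h with h | h | h | h | h
  · left
    omega
  · right; right; left
    omega
  · right; left
    omega
  · right; right; right; right
    omega
  · right; right; right; left
    omega

theorem RW.irr {a b s : ℕ} (h : RW a b s a b s) : False := by
  unfold RW at h
  omega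

/-- The truncated wall: every vertex `(i, j)` of the grid is replaced by two triangles
`(i, j, 0), (i, j, 1), (i, j, 2)` and `(i, j, 3), (i, j, 4), (i, j, 5)`, joined by the edge between
`(i, j, 2)` and `(i, j, 5)`; `(i, j, 3)` is adjacent to `(i, j + 1, 0)` and `(i, j, 4)` to
`(i + 1, j, 1)`. -/
def TW (n : ℕ) : SimpleGraph (Fin n × Fin n × Fin 6) where
  Adj x y := RW x.1.val x.2.1.val x.2.2.val y.1.val y.2.1.val y.2.2.val
  symm := ⟨fun _ _ h => RW.symm h⟩
  loopless := ⟨fun _ h => RW.irr h⟩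

/-- the triangle of a vertex -/
def cell {n : ℕ} (x : Fin n × Fin n × Fin 6) : Fin n × Fin n × ℕ := (x.1, x.2.1, x.2.2.val / 3)

theorem tw_adj' {n : ℕ} (a b : Fin n) (s : Fin 6) (a' b' : Fin n) (s' : Fin 6) :
    (TW n).Adj (a, b, s) (a', b', s') ↔
    (a.val = a'.val ∧ b.val = b'.val ∧ s.val ≠ s'.val ∧ (s.val / 3 = s'.val / 3 ∨
      (s.val = 2 ∧ s'.val = 5) ∨ (s.val = 5 ∧ s'.val = 2))) ∨
    (a.val = a'.val ∧ b.val + 1 = b'.val ∧ s.val = 3 ∧ s'.val = 0) ∨
    (a.val = a'.val ∧ b'.val + 1 = b.val ∧ s.val = 0 ∧ s'.val = 3) ∨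
    (a.val + 1 = a'.val ∧ b.val = b'.val ∧ s.val = 4 ∧ s'.val = 1) ∨
    (a'.val + 1 = a.val ∧ b.val = b'.val ∧ s.val = 1 ∧ s'.val = 4) := Iff.rfl

theorem trc_TW (n : ℕ) : Trc (TW n) cell := by
  refine ⟨?_, ?_, ?_⟩
  · rintro ⟨a, b, s⟩ ⟨a', b', s'⟩ h hne
    rw [tw_adj']
    simp only [cell, Prod.mk.injEq, Fin.ext_iff, ne_eq] at h hne
    omega
  · rintro ⟨a, b, s⟩ ⟨a', b', s'⟩ ⟨a'', b'', s''⟩ h h' hne hne'
    rw [tw_adj'] at h h'
    simp only [cell, Prod.mk.injEq, Fin.ext_iff, ne_eq] at hne hne' ⊢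
    omega
  · rintro ⟨a, b, s⟩ ⟨a', b', s'⟩ ⟨a'', b'', s''⟩ ⟨a3, b3, s3⟩ h1 h2 h3 h4 h5 h6 h7 h8 h9
    simp only [cell, Prod.mk.injEq, Fin.ext_iff, ne_eq] at *
    omega

/-- the symmetry of the truncated wall -/
def sg : Fin 6 → Fin 6 := ![1, 0, 2, 4, 3, 5]

theorem sg_sg : ∀ s, sg (sg s) = s := by decide

theorem sg_val : ∀ s : Fin 6, (s.val = 0 → (sg s).val = 1) ∧ (s.val = 1 → (sg s).val = 0) ∧
    (s.val = 2 → (sg s).val = 2) ∧ (s.val = 3 → (sg s).val = 4) ∧ (s.val = 4 → (sg s).val = 3) ∧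
    (s.val = 5 → (sg s).val = 5) := by decide

def swapTW (n : ℕ) : TW n ≃g TW n where
  toFun := fun x => (x.2.1, x.1, sg x.2.2)
  invFun := fun x => (x.2.1, x.1, sg x.2.2)
  left_inv := fun x => by simp [sg_sg]
  right_inv := fun x => by simp [sg_sg]
  map_rel_iff' := by
    rintro ⟨a, b, s⟩ ⟨a', b', s'⟩
    simp only [Equiv.coe_fn_mk]
    rw [tw_adj', tw_adj']
    have h1 := sg_val s
    have h2 := sg_val s'
    have := s.2
    have := s'.2
    obtain ⟨p0, p1, p2, p3, p4, p5⟩ := h1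
    obtain ⟨q0, q1, q2, q3, q4, q5⟩ := h2
    generalize (sg s).val = t at *
    generalize (sg s').val = t' at *
    generalize s.val = r at *
    generalize s'.val = r' at *
    have hr : r = 0 ∨ r = 1 ∨ r = 2 ∨ r = 3 ∨ r = 4 ∨ r = 5 := by omega
    have hr' : r' = 0 ∨ r' = 1 ∨ r' = 2 ∨ r' = 3 ∨ r' = 4 ∨ r' = 5 := by omega
    rcases hr with rfl | rfl | rfl | rfl | rfl | rfl <;>
      rcases hr' with rfl | rfl | rfl | rfl | rfl | rfl <;> simp_all <;> omega

theorem mixed_le_TW {n k : ℕ} (A : Set (Fin n × Fin n × Fin 6)) (h : Types (TW n) A k) :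
    (mixed {p : Fin n × Fin n | (p.1, p.2, (2 : Fin 6)) ∈ A}).card ≤ 2 * k := by
  classical
  obtain ⟨l, hl⟩ := h
  set A' : Set (Fin n × Fin n) := {p | (p.1, p.2, (2 : Fin 6)) ∈ A} with hA'
  have hch : ∀ i : Fin n, i ∈ mixed A' → ∃ p q : Fin n × Fin n × Fin 6, p ∈ A ∧ q ∉ A ∧
      (TW n).Adj p q ∧ p.1 = i ∧ q.1 = i := by
    intro i hi
    simp only [mixed, Finset.mem_filter, Finset.mem_univ, true_and] at hi
    obtain ⟨a, b, ha, hb, hab⟩ := step_exists (fun j => (i, j) ∈ A') hi.1 hi.2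
    have ha' : (i, a, (2 : Fin 6)) ∈ A := ha
    have hb' : (i, b, (2 : Fin 6)) ∉ A := hb
    rcases hab with hab | hab
    · by_cases h1 : (i, a, (5 : Fin 6)) ∈ A
      · by_cases h2 : (i, a, (3 : Fin 6)) ∈ A
        · by_cases h3 : (i, b, (0 : Fin 6)) ∈ A
          · refine ⟨_, _, h3, hb', ?_, rfl, rfl⟩
            rw [tw_adj']; simp
          · refine ⟨_, _, h2, h3, ?_, rfl, rfl⟩
            rw [tw_adj']; simp [hab]
        · refine ⟨_, _, h1, h2, ?_, rfl, rfl⟩
          rw [tw_adj']; simp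
      · refine ⟨_, _, ha', h1, ?_, rfl, rfl⟩
        rw [tw_adj']; simp
    · by_cases h1 : (i, a, (0 : Fin 6)) ∈ A
      · by_cases h2 : (i, b, (3 : Fin 6)) ∈ A
        · by_cases h3 : (i, b, (5 : Fin 6)) ∈ A
          · refine ⟨_, _, h3, hb', ?_, rfl, rfl⟩
            rw [tw_adj']; simp
          · refine ⟨_, _, h2, h3, ?_, rfl, rfl⟩
            rw [tw_adj']; simp
        · refine ⟨_, _, h1, h2, ?_, rfl, rfl⟩
          rw [tw_adj']; simp [hab]
      · refine ⟨_, _, ha', h1, ?_, rfl, rfl⟩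
        rw [tw_adj']; simp
  choose! a b ha hb hab hai hbi using hch
  by_contra hcon
  push Not at hcon
  have hcard : (Finset.univ : Finset (Fin k)).card * 2 < (mixed A').card := by
    simp; omega
  obtain ⟨t, _, ht⟩ := Finset.exists_lt_card_fiber_of_mul_lt_card_of_maps_to
    (f := fun i => l (a i)) (s := mixed A') (t := Finset.univ) (fun _ _ => Finset.mem_univ _) hcard
  rw [Finset.two_lt_card] at ht
  obtain ⟨x, hx, y, hy, z, hz, hxy, hxz, hyz⟩ := ht
  simp only [Finset.mem_filter] at hx hy hz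
  have key : ∀ x y : Fin n, x ∈ mixed A' → y ∈ mixed A' → l (a x) = l (a y) →
      x.val ≤ y.val + 1 := by
    intro x y hx hy hxy
    have h2 := (hl _ (ha x hx) _ (ha y hy) hxy _ (hb x hx)).1 (hab x hx)
    have e1 : (a y).1.val = y.val := congrArg Fin.val (hai y hy)
    have e2 : (b x).1.val = x.val := congrArg Fin.val (hbi x hx)
    rw [show a y = ((a y).1, (a y).2.1, (a y).2.2) from rfl,
      show b x = ((b x).1, (b x).2.1, (b x).2.2) from rfl, tw_adj'] at h2
    omega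
  have k1 := key x y hx.1 hy.1 (hx.2.trans hy.2.symm)
  have k2 := key y x hy.1 hx.1 (hy.2.trans hx.2.symm)
  have k3 := key x z hx.1 hz.1 (hx.2.trans hz.2.symm)
  have k4 := key z x hz.1 hx.1 (hz.2.trans hx.2.symm)
  have k5 := key y z hy.1 hz.1 (hy.2.trans hz.2.symm)
  have k6 := key z y hz.1 hy.1 (hz.2.trans hy.2.symm)
  have n1 : x.val ≠ y.val := fun h => hxy (Fin.ext h)
  have n2 : x.val ≠ z.val := fun h => hxz (Fin.ext h)
  have n3 : y.val ≠ z.val := fun h => hyz (Fin.ext h)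
  omega

theorem TW_unbounded : ∀ c N : ℕ, ∃ n ≥ N, ∀ k ≤ c, ¬ CwLE (TW n) k := by
  intro c N
  refine ⟨N + 6 * c + 2, by omega, ?_⟩
  intro k hk hcw
  set n := N + 6 * c + 2 with hn
  let f : Fin n × Fin n → Fin n × Fin n × Fin 6 := fun p => (p.1, p.2, 2)
  have hf : Function.Injective f := by
    rintro ⟨a, b⟩ ⟨a', b'⟩ h
    simpa [f] using h
  have hcard : (Set.range f).ncard = n * n := by
    rw [← Set.image_univ, Set.ncard_image_of_injective _ hf, Set.ncard_univ]; simp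
  obtain ⟨A0, hT, h1, h2⟩ := balanced_cut (TW n) k hcw (Set.range f) (by rw [hcard]; nlinarith)
  rw [hcard] at h1 h2
  set A : Set (Fin n × Fin n) := {p | (p.1, p.2, (2 : Fin 6)) ∈ A0} with hA
  have hAc : (A0 ∩ Set.range f).ncard = A.ncard := by
    rw [← Set.ncard_image_of_injective A hf]
    congr 1
    ext x
    constructor
    · rintro ⟨hx, p, rfl⟩
      exact ⟨p, hx, rfl⟩
    · rintro ⟨p, hp, rfl⟩
      exact ⟨hp, p, rfl⟩
  rw [hAc] at h1 h2
  have hcompl : A.ncard + Aᶜ.ncard = n * n := by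
    rw [Set.ncard_add_ncard_compl]; simp
  have hm := mixed_le_TW A0 hT
  rw [← hA] at hm
  have hbig : n ≤ 3 * (mixed A).card → False := by
    intro h; omega
  by_cases hfull : ∃ i, ∀ j, (i, j) ∈ A
  · by_cases hempty : ∃ i, ∀ j, (i, j) ∉ A
    · obtain ⟨i, hi⟩ := hfull
      obtain ⟨i', hi'⟩ := hempty
      have hT' : Types (TW n) (swapTW n ⁻¹' A0) k := Types.iso _ hT
      have hm' := mixed_le_TW _ hT'
      have : mixed {p : Fin n × Fin n | (p.1, p.2, (2 : Fin 6)) ∈ swapTW n ⁻¹' A0} =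
          Finset.univ := by
        ext j
        simp only [mixed, Finset.mem_filter, Finset.mem_univ, true_and, iff_true]
        exact ⟨⟨i, hi j⟩, ⟨i', hi' j⟩⟩
      rw [this] at hm'
      simp at hm'
      omega
    · push Not at hempty
      have h3 : Aᶜ.ncard ≤ (mixed Aᶜ).card * n := by
        apply card_le_mixed
        rintro i ⟨j, hj⟩
        rw [mixed_compl]
        simp only [mixed, Finset.mem_filter, Finset.mem_univ, true_and]
        exact ⟨hempty i, j, hj⟩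
      rw [mixed_compl] at h3
      apply hbig
      have : n * n ≤ 3 * ((mixed A).card * n) := by omega
      have : n * n ≤ (3 * (mixed A).card) * n := by linarith
      exact Nat.le_of_mul_le_mul_right this (by omega)
  · push Not at hfull
    have h3 : A.ncard ≤ (mixed A).card * n := by
      apply card_le_mixed
      rintro i ⟨j, hj⟩
      simp only [mixed, Finset.mem_filter, Finset.mem_univ, true_and]
      exact ⟨⟨j, hj⟩, hfull i⟩
    apply hbig
    have : n * n ≤ (3 * (mixed A).card) * n := by linarith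
    exact Nat.le_of_mul_le_mul_right this (by omega)

end Pool.Agent.K6.H4.Itm
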