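import Pool.Agent.K6.H4.ItmClass2
import Pool.Agent.K6.H4.ItmWall
import Pool.Agent.H175R2.Fam
import Pool.Agent.H175R2.Cw
import Pool.Agent.H175R2.Classify

/-! Necessity: the conditions on `H` if the class has bounded clique-width. -/

set_option autoImplicit false

namespace Pool.Agent.K6.H4.Itm

open SimpleGraph Pool.Agent.H175R2

/-- clique-width is bounded on the finite graphs without `H` as an induced topological minor -/
def Bdd {W : Type} (H : SimpleGraph W) : Prop :=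
  ∃ c : ℕ, ∀ (V : Type) [Finite V] (G : SimpleGraph V), ¬ IsInducedTopologicalMinor H G →
    cliqueWidth G ≤ c

theorem cwLE_cliqueWidth' {V : Type} [Finite V] [Nonempty V] (G : SimpleGraph V) :
    CwLE G (cliqueWidth G) := by
  classical
  have : Fintype V := Fintype.ofFinite V
  have ht : Tame G (Fintype.card V) := ⟨Finset.univ, by simp, fun x hx => by simp at hx⟩
  exact Nat.sInf_mem (s := {k | CwLE G k}) ⟨_, cwLE_of_dt (dt_of_tame ht)⟩

theorem model_of_unbounded {W : Type} {H : SimpleGraph W} (hb : Bdd H) {V : ℕ → Type}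
    [∀ n, Finite (V n)] [∀ n, Nonempty (V n)] (fam : ∀ n, SimpleGraph (V n))
    (hu : ∀ c N : ℕ, ∃ n ≥ N, ∀ k ≤ c, ¬ CwLE (fam n) k) :
    ∃ n, Nonempty (Model H (fam n)) := by
  obtain ⟨c, hc⟩ := hb
  obtain ⟨n, _, hk⟩ := hu c 0
  refine ⟨n, ?_⟩
  by_contra hno
  have h2 : ¬ IsInducedTopologicalMinor H (fam n) := fun h => hno (model_of_itm h)
  exact hk _ (hc (V n) (fam n) h2) (cwLE_cliqueWidth' (fam n))

theorem cobip_three {n : ℕ} (x y z : Fin n ⊕ (Fin n × Fin n)) (hxy : x ≠ y) (hxz : x ≠ z)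
    (hyz : y ≠ z) : (famCobip n).Adj x y ∨ (famCobip n).Adj x z ∨ (famCobip n).Adj y z := by
  simp only [famCobip, fromRel_adj]
  rcases x with x | x <;> rcases y with y | y <;> rcases z with z | z <;> simp_all

theorem star_trunc {n : ℕ} (z y y' : {p : Fin n × Fin n // p.1 ≠ p.2})
    (h : TwoNb (famTrunc n) z y) (h' : TwoNb (famTrunc n) z y') : y = y' := by
  have key : ∀ y : {p : Fin n × Fin n // p.1 ≠ p.2}, TwoNb (famTrunc n) z y →
      y.1.1 = z.1.2 ∧ y.1.2 = z.1.1 := by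
    rintro y ⟨⟨h1, h2⟩, x, x', hne, h3, h4, ⟨h5, h6⟩, ⟨h7, h8⟩⟩
    rw [trunc_adj] at h2 h3 h4 h6 h8
    have e2 : z.1.1 = y.1.1 ∨ (z.1.1 = y.1.2 ∧ z.1.2 = y.1.1) := by
      by_contra hcon
      exact h2 ⟨h1, hcon⟩
    have e6 : z.1.1 = x.1.1 ∨ (z.1.1 = x.1.2 ∧ z.1.2 = x.1.1) := by
      by_contra hcon
      exact h6 ⟨h5, hcon⟩
    have e8 : z.1.1 = x'.1.1 ∨ (z.1.1 = x'.1.2 ∧ z.1.2 = x'.1.1) := by
      by_contra hcon
      exact h8 ⟨h7, hcon⟩
    rcases e2 with e2 | e2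
    · exfalso
      have g1 := h3.2
      have g2 := h4.2
      push Not at g1 g2
      have a1 : z.1.1 = x.1.2 ∧ z.1.2 = x.1.1 := by
        rcases e6 with e | e
        · exact absurd (e2.symm.trans e) g1.1
        · exact e
      have a2 : z.1.1 = x'.1.2 ∧ z.1.2 = x'.1.1 := by
        rcases e8 with e | e
        · exact absurd (e2.symm.trans e) g2.1
        · exact e
      apply hne
      apply Subtype.ext
      apply Prod.ext
      · exact a1.2.symm.trans a2.2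
      · exact a1.1.symm.trans a2.1
    · exact ⟨e2.2.symm, e2.1.symm⟩
  obtain ⟨a, b⟩ := key y h
  obtain ⟨a', b'⟩ := key y' h'
  apply Subtype.ext
  apply Prod.ext
  · exact a.trans a'.symm
  · exact b.trans b'.symm

theorem cst_of_bdd {W : Type} {H : SimpleGraph W} (hb : Bdd H) : Cst H := by
  obtain ⟨n1, ⟨M1⟩⟩ := model_of_unbounded hb
    (V := fun n => Fin (n + 1) ⊕ (Fin (n + 1) × Fin (n + 1)))
    (fun n => famCobip (n + 1)) (fun c N => by
      obtain ⟨n, hn, h⟩ := famCobip_unbounded c (N + 1)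
      refine ⟨n - 1, by omega, ?_⟩
      have e : n - 1 + 1 = n := by omega
      rw [e]; exact h)
  obtain ⟨n2, ⟨M2⟩⟩ := model_of_unbounded hb
    (V := fun n => Fin (n + 1) ⊕ (Fin (n + 1) × Fin (n + 1)))
    (fun n => famSplit (n + 1)) (fun c N => by
      obtain ⟨n, hn, h⟩ := famSplit_unbounded c (N + 1)
      refine ⟨n - 1, by omega, ?_⟩
      have e : n - 1 + 1 = n := by omega
      rw [e]; exact h)
  haveI : ∀ n : ℕ, Nonempty {p : Fin (n + 4) × Fin (n + 4) // p.1 ≠ p.2} := fun n =>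
    ⟨⟨(⟨0, by omega⟩, ⟨1, by omega⟩), by simp⟩⟩
  obtain ⟨n3, ⟨M3⟩⟩ := model_of_unbounded hb
    (V := fun n => {p : Fin (n + 4) × Fin (n + 4) // p.1 ≠ p.2})
    (fun n => famTrunc (n + 4)) (fun c N => by
      obtain ⟨n, hn, h⟩ := famTrunc_unbounded c (N + 4)
      refine ⟨n - 4, by omega, ?_⟩
      have e : n - 4 + 4 = n := by omega
      rw [e]; exact h)
  obtain ⟨n4, ⟨M4⟩⟩ := model_of_unbounded hb
    (V := fun n => Fin (n + 1) × Fin (n + 1) × Fin 6)
    (fun n => TW (n + 1)) (fun c N => by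
      obtain ⟨n, hn, h⟩ := TW_unbounded c (N + 1)
      refine ⟨n - 1, by omega, ?_⟩
      have e : n - 1 + 1 = n := by omega
      rw [e]; exact h)
  have s1 : ∀ x y : Fin (n2 + 1) ⊕ (Fin (n2 + 1) × Fin (n2 + 1)), x.isLeft = true →
      y.isLeft = true → x ≠ y → (famSplit (n2 + 1)).Adj x y := by
    intro x y hx hy hxy
    simp only [famSplit, fromRel_adj]
    rcases x with x | x <;> rcases y with y | y <;> simp_all
  have s2 : ∀ x y : Fin (n2 + 1) ⊕ (Fin (n2 + 1) × Fin (n2 + 1)), ¬ x.isLeft = true →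
      ¬ y.isLeft = true → ¬ (famSplit (n2 + 1)).Adj x y := by
    intro x y hx hy
    simp only [famSplit, fromRel_adj]
    rcases x with x | x <;> rcases y with y | y <;> simp_all
  refine ⟨excl_three M1 cobip_three, ?_, ?_, ?_, ?_, ?_⟩
  · intro x y z w hxy hzw h1 h2 h3 h4
    refine excl_2K2 M2 _ s1 s2 hxy hzw ?_
    rintro a (rfl | rfl) b (rfl | rfl)
    · exact h1
    · exact h2
    · exact h3
    · exact h4
  · intro u v v' w z z' h1 h2 h3 h4 h5 h6 h7 h8 h9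
    exact excl_cycle M2 _ s1 s2 h1 h2 h3 h4 h5 h6 h7 h8 h9
  · intro u v w z h1 h2 h3 h4 h5 h6
    exact excl_K3K1 M3 star_trunc h1 h2 h3 h4 h5 h6
  · intro u v w z h1 h2 h3 h4 h5 h6
    exact excl_K4 (trc_TW _) M4 h1 h2 h3 h4 h5 h6
  · intro u v1 v2 v3 v4 h1 h2 h3 h4 h5 h6 h7 h8 h9 h10
    exact excl_deg (trc_TW _) M4 h1 h2 h3 h4 h5 h6 h7 h8 h9 h10

/-- necessity -/
theorem necessity' {W : Type} [Finite W] {H : SimpleGraph W} (hb : Bdd H) :
    H ⊴ pathGraph 4 ∨ H ⊴ paw ∨ H ⊴ diamond :=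
  classify (cst_of_bdd hb)

end Pool.Agent.K6.H4.Itm
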