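import Pool.Agent.K6.H4.ItmCyc

/-! Connected graphs without a witness for the paw. -/

set_option autoImplicit false

namespace Pool.Agent.K6.H4.Itm

open Finset Classical Pool.Agent.H175R2

variable {V : Type} {G : SimpleGraph V}

/-- the vertices of a cycle -/
noncomputable def cv (n : ℕ) (c : ℕ → V) : Finset V := (range n).image c

theorem mem_cv {n : ℕ} {c : ℕ → V} {x : V} : x ∈ cv n c ↔ ∃ i < n, c i = x := by
  simp [cv]

theorem cv_rot {n k : ℕ} {c : ℕ → V} (hk : k < n) {x : V} :
    (∃ i < n, c (rot n k i) = x) ↔ ∃ i < n, c i = x := by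
  constructor
  · rintro ⟨i, hi, rfl⟩
    exact ⟨_, rot_lt hk hi, rfl⟩
  · rintro ⟨i, hi, rfl⟩
    by_cases h : k ≤ i
    · refine ⟨i - k, by omega, ?_⟩
      congr 1
      unfold rot
      split_ifs <;> omega
    · refine ⟨i + n - k, by omega, ?_⟩
      congr 1
      unfold rot
      split_ifs <;> omega

/-- rotate such that `v` is adjacent to the first and not to the last vertex -/
theorem exists_rot {n : ℕ} {c : ℕ → V} (hc : IC G n c) {v : V} {a b : ℕ} (ha : a < n)
    (hva : G.Adj v (c a)) (hb : b < n) (hvb : ¬ G.Adj v (c b)) :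
    ∃ k < n, G.Adj v (c (rot n k 0)) ∧ ¬ G.Adj v (c (rot n k (n - 1))) := by
  have h3 := hc.three
  have r0 : ∀ k < n, rot n k 0 = k := by
    intro k hk
    unfold rot
    split_ifs
    · omega
    · omega
  by_cases hl : G.Adj v (c (n - 1))
  · -- the last non-neighbour
    have hex : ∃ t, t < n ∧ ¬ G.Adj v (c (n - 1 - t)) := ⟨n - 1 - b, by omega, by
      have : n - 1 - (n - 1 - b) = b := by omega
      rw [this]; exact hvb⟩
    obtain ⟨t, ht⟩ : ∃ t, t = Nat.find hex := ⟨_, rfl⟩
    have h1 := Nat.find_spec hex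
    have h2 : ∀ s < Nat.find hex, ¬ (s < n ∧ ¬ G.Adj v (c (n - 1 - s))) :=
      fun s hs => Nat.find_min hex hs
    rw [← ht] at h1 h2
    have ht0 : t ≠ 0 := by
      rintro rfl
      exact h1.2 hl
    have h4 := h2 (t - 1) (by omega)
    rw [not_and, not_not] at h4
    have h5 := h4 (by omega)
    refine ⟨n - t, by omega, ?_, ?_⟩
    · rw [r0 _ (by omega)]
      have : n - 1 - (t - 1) = n - t := by omega
      rwa [this] at h5
    · have : rot n (n - t) (n - 1) = n - 1 - t := by
        unfold rot
        split_ifs <;> omega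
      rw [this]
      exact h1.2
  · have hex : ∃ t, t < n ∧ G.Adj v (c t) := ⟨a, ha, hva⟩
    obtain ⟨t, ht⟩ : ∃ t, t = Nat.find hex := ⟨_, rfl⟩
    have h1 := Nat.find_spec hex
    have h2 : ∀ s < Nat.find hex, ¬ (s < n ∧ G.Adj v (c s)) :=
      fun s hs => Nat.find_min hex hs
    rw [← ht] at h1 h2
    refine ⟨t, h1.1, ?_, ?_⟩
    · rw [r0 _ h1.1]; exact h1.2
    · by_cases ht0 : t = 0
      · have : rot n t (n - 1) = n - 1 := by
          unfold rot
          split_ifs <;> omega
        rw [this]; exact hl
      · have : rot n t (n - 1) = t - 1 := by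
          unfold rot
          split_ifs <;> omega
        rw [this]
        intro h
        exact h2 (t - 1) (by omega) ⟨by omega, h⟩

/-- a long induced cycle with a neighbour outside, in the normalised position -/
theorem pw_of_long' {n : ℕ} {c : ℕ → V} (hc : IC G n c) (h5 : 5 ≤ n) {v : V}
    (hv : ∀ i < n, v ≠ c i) (h0 : G.Adj v (c 0)) (hl : ¬ G.Adj v (c (n - 1))) : PW G := by
  by_cases hone : ∀ i, 1 ≤ i → i < n → ¬ G.Adj v (c i)
  · exact ⟨n, c, v, hc, hv, h0, hone⟩
  push Not at hone
  obtain ⟨b, hb1, hbn, hvb⟩ := hone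
  have a01 : G.Adj (c 0) (c 1) := (hc.adj 0 1 (by omega) (by omega)).2 (Or.inl rfl)
  have a0l : G.Adj (c 0) (c (n - 1)) := (hc.adj 0 (n - 1) (by omega) (by omega)).2
    (Or.inr ⟨rfl, rfl⟩)
  have n1l : ¬ G.Adj (c (n - 1)) (c 1) := by
    rw [G.adj_comm, hc.adj 1 (n - 1) (by omega) (by omega)]
    omega
  by_cases h1 : G.Adj v (c 1)
  · exact pw3 (x := c 0) (y := v) (z := c 1) (p := c (n - 1)) h0.symm h1 a01 a0l.symm
      (fun h => hl h.symm) n1l
  -- the largest neighbour
  have hex : ∃ t, t < n - 1 ∧ G.Adj v (c (n - 1 - t)) := ⟨n - 1 - b, by omega, by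
    have : n - 1 - (n - 1 - b) = b := by omega
    rw [this]; exact hvb⟩
  obtain ⟨t, ht⟩ : ∃ t, t = Nat.find hex := ⟨_, rfl⟩
  have g1 := Nat.find_spec hex
  have g2 : ∀ s < Nat.find hex, ¬ (s < n - 1 ∧ G.Adj v (c (n - 1 - s))) :=
    fun s hs => Nat.find_min hex hs
  rw [← ht] at g1 g2
  obtain ⟨j, hj⟩ : ∃ j, j = n - 1 - t := ⟨_, rfl⟩
  rw [← hj] at g1
  have hj1 : j ≠ 1 := by
    rintro rfl
    exact h1 g1.2
  have hjl : j ≠ n - 1 := by
    rintro rfl
    exact hl g1.2
  have hjmax : ∀ i, j < i → i < n → ¬ G.Adj v (c i) := by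
    intro i hi hin h
    refine g2 (n - 1 - i) (by omega) ⟨by omega, ?_⟩
    have : n - 1 - (n - 1 - i) = i := by omega
    rw [this]; exact h
  have hj2 : 2 ≤ j := by omega
  have hjn : j + 1 < n := by omega
  by_cases hj3 : 3 ≤ j
  · refine ⟨n - j + 2, fun i => if i = 0 then c 0 else if i = 1 then v else c (j + i - 2), c 1,
      ⟨by omega, ?_, ?_⟩, ?_, ?_, ?_⟩
    · intro i i' hi hi' hii
      by_cases e0 : i = 0
      · by_cases e0' : i' = 0
        · omega
        · by_cases e1' : i' = 1
          · simp only [e0, e1', if_true] at hii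
            exact absurd hii.symm (hv 0 (by omega))
          · simp only [e0, e0', e1', if_true, if_false] at hii
            have := hc.inj _ _ (by omega) (by omega) hii
            omega
      · by_cases e1 : i = 1
        · by_cases e0' : i' = 0
          · simp only [e0', e1, if_true] at hii
            exact absurd hii (hv 0 (by omega))
          · by_cases e1' : i' = 1
            · omega
            · simp only [e0', e1', e1, if_true, if_false] at hii
              exact absurd hii (hv _ (by omega))
        · by_cases e0' : i' = 0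
          · simp only [e0, e0', e1, if_true, if_false] at hii
            have := hc.inj _ _ (by omega) (by omega) hii
            omega
          · by_cases e1' : i' = 1
            · simp only [e0, e1', e1, if_true, if_false] at hii
              exact absurd hii.symm (hv _ (by omega))
            · simp only [e0, e1, e0', e1', if_false] at hii
              have := hc.inj _ _ (by omega) (by omega) hii
              omega
    · intro i i' hii hi'
      have e0' : i' ≠ 0 := by omega
      by_cases e0 : i = 0
      · by_cases e1' : i' = 1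
        · subst e0 e1'
          simp [h0.symm]
        · have e : G.Adj (if i = 0 then c 0 else if i = 1 then v else c (j + i - 2))
              (if i' = 0 then c 0 else if i' = 1 then v else c (j + i' - 2)) ↔
              G.Adj (c 0) (c (j + i' - 2)) := by simp [e0, e0', e1']
          rw [e, hc.adj _ _ (by omega) (by omega)]
          omega
      · by_cases e1 : i = 1
        · have e1' : i' ≠ 1 := by omega
          have e : G.Adj (if i = 0 then c 0 else if i = 1 then v else c (j + i - 2))
              (if i' = 0 then c 0 else if i' = 1 then v else c (j + i' - 2)) ↔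
              G.Adj v (c (j + i' - 2)) := by simp [e1, e0', e1']
          rw [e]
          constructor
          · intro h
            by_cases h9 : i' = 2
            · left; omega
            · exact absurd h (hjmax _ (by omega) (by omega))
          · rintro (h | h)
            · have : j + i' - 2 = j := by omega
              rw [this]; exact g1.2
            · exact absurd h.1 e0
        · have e1' : i' ≠ 1 := by omega
          have e : G.Adj (if i = 0 then c 0 else if i = 1 then v else c (j + i - 2))
              (if i' = 0 then c 0 else if i' = 1 then v else c (j + i' - 2)) ↔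
              G.Adj (c (j + i - 2)) (c (j + i' - 2)) := by simp [e0, e1, e0', e1']
          rw [e, hc.adj _ _ (by omega) (by omega)]
          omega
    · intro i hi
      dsimp only
      split_ifs with e0 e1
      · exact a01.ne.symm
      · exact fun h => hv 1 (by omega) h.symm
      · intro h
        have := hc.inj _ _ (by omega) (by omega) h
        omega
    · simpa using a01.symm
    · intro i hi1 hi
      have e0 : i ≠ 0 := by omega
      dsimp only
      rw [if_neg e0]
      split_ifs with e1
      · exact fun h => h1 h.symm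
      · rw [hc.adj _ _ (by omega) (by omega)]
        omega
  · have hj' : j = 2 := by omega
    subst hj'
    have a12 : G.Adj (c 2) (c 1) := ((hc.adj 1 2 (by omega) (by omega)).2 (Or.inl rfl)).symm
    refine pw4 (x := c 0) (y := v) (z := c 2) (w := c 1) (p := c (n - 1)) h0.symm g1.2 a12 a01
      (fun h => by have := hc.inj 0 2 (by omega) (by omega) h; omega) (hv 1 (by omega)) ?_ h1
      a0l.symm (fun h => hl h.symm) ?_ n1l
    · rw [hc.adj 0 2 (by omega) (by omega)]
      omega
    · rw [G.adj_comm, hc.adj 2 (n - 1) (by omega) (by omega)]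
      omega

theorem pw_of_long {n : ℕ} {c : ℕ → V} (hc : IC G n c) (h5 : 5 ≤ n) {v : V}
    (hv : ∀ i < n, v ≠ c i) {a : ℕ} (ha : a < n) (hva : G.Adj v (c a)) : PW G := by
  by_cases hall : ∀ b < n, G.Adj v (c b)
  · refine pw3 (x := v) (y := c 0) (z := c 1) (p := c 3) (hall 0 (by omega))
      ((hc.adj 0 1 (by omega) (by omega)).2 (Or.inl rfl)) (hall 1 (by omega))
      (hall 3 (by omega)).symm ?_ ?_
    · rw [G.adj_comm, hc.adj 0 3 (by omega) (by omega)]
      omega
    · rw [G.adj_comm, hc.adj 1 3 (by omega) (by omega)]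
      omega
  · push Not at hall
    obtain ⟨b, hb, hvb⟩ := hall
    obtain ⟨k, hk, h1, h2⟩ := exists_rot hc ha hva hb hvb
    exact pw_of_long' (hc.rotate hk) h5 (fun i hi => hv _ (rot_lt hk hi)) h1 h2

/-- complete multipartite sets -/
def CM (G : SimpleGraph V) (M : Finset V) : Prop :=
  ∀ x ∈ M, ∀ y ∈ M, ∀ z ∈ M, G.Adj x y → G.Adj z x ∨ G.Adj z y

/-- `M` contains a triangle or an induced four-cycle -/
def HC (G : SimpleGraph V) (M : Finset V) : Prop :=
  (∃ a ∈ M, ∃ b ∈ M, ∃ c ∈ M, G.Adj a b ∧ G.Adj b c ∧ G.Adj a c) ∨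
  (∃ a ∈ M, ∃ b ∈ M, ∃ c ∈ M, ∃ d ∈ M, a ≠ c ∧ b ≠ d ∧ G.Adj a b ∧ G.Adj b c ∧ G.Adj c d ∧
    G.Adj a d)

theorem cm_step (hG : ¬ PW G) {M : Finset V} (hM : CM G M) (hc : HC G M) {v m : V}
    (hm : m ∈ M) (hvm : G.Adj v m) : CM G (insert v M) := by
  -- first part
  have key : ∀ p ∈ M, ∀ q ∈ M, G.Adj p q → ¬ G.Adj v p → ¬ G.Adj v q → G.Adj m q → G.Adj m p →
      False := by
    intro p _ q _ hpq hvp hvq hmq hmp
    exact hG (pw3 (x := m) (y := p) (z := q) (p := v) hmp hpq hmq hvm hvp hvq)
  have key2 : ∀ p ∈ M, ∀ q ∈ M, G.Adj p q → ¬ G.Adj v p → ¬ G.Adj v q → G.Adj m q →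
      ¬ G.Adj m p → False := by
    intro p hp q hq hpq hvp hvq hmq hmp
    have hmpn : m ≠ p := by
      rintro rfl
      exact hvp hvm
    by_cases hs : ∃ s ∈ M, G.Adj s p ∧ G.Adj s q
    · obtain ⟨s, hsM, hsp, hsq⟩ := hs
      have hms : G.Adj m s := by
        rcases hM s hsM p hp m hm hsp with h | h
        · exact h
        · exact absurd h hmp
      by_cases hvs : G.Adj v s
      · exact hG (pw3 (x := s) (y := p) (z := q) (p := v) hsp hpq hsq hvs hvp hvq)
      · exact hG (pw3 (x := m) (y := q) (z := s) (p := v) hmq hsq.symm hms hvm hvq hvs)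
    push Not at hs
    by_cases hq' : ∃ q' ∈ M, q' ≠ q ∧ ¬ G.Adj q' q ∧ G.Adj q' p
    · obtain ⟨q', hqM, hne, hnq, hqp⟩ := hq'
      have hmq' : G.Adj m q' := by
        rcases hM q' hqM p hp m hm hqp with h | h
        · exact h
        · exact absurd h hmp
      by_cases hvq' : G.Adj v q'
      · exact hG (pw3 (x := m) (y := v) (z := q') (p := q) hvm.symm hvq' hmq' hmq.symm
          (fun h => hvq h.symm) (fun h => hnq h.symm))
      · exact hG (pw4 (x := m) (y := q) (z := p) (w := q') (p := v) hmq hpq.symm hqp.symm hmq' hmpn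
          (Ne.symm hne) hmp (fun h => hnq h.symm) hvm hvq hvp hvq')
    push Not at hq'
    -- every other vertex is nonadjacent to `p`
    have h1 : ∀ s ∈ M, s ≠ q → ¬ G.Adj s p := by
      intro s hsM hsq h
      have h2 := hs s hsM h
      exact hq' s hsM hsq h2 h
    have h2 : ∀ s ∈ M, ∀ s' ∈ M, s ≠ q → s' ≠ q → ¬ G.Adj s s' := by
      intro s hsM s' hs' hsq hsq' h
      rcases hM s hsM s' hs' p hp h with h3 | h3
      · exact h1 s hsM hsq h3.symm
      · exact h1 s' hs' hsq' h3.symm
    rcases hc with ⟨a, ha, b, hb, c, hc, hab, hbc, hac⟩ |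
      ⟨a, ha, b, hb, c, hc, d, hd, hne, hne', hab, hbc, hcd, had⟩
    · by_cases e1 : a = q
      · exact h2 b hb c hc (fun h => hab.ne (e1.trans h.symm)) (fun h => hac.ne (e1.trans h.symm))
          hbc
      · by_cases e2 : b = q
        · exact h2 a ha c hc e1 (fun h => hbc.ne (e2.trans h.symm)) hac
        · exact h2 a ha b hb e1 e2 hab
    · by_cases e1 : a = q
      · exact h2 b hb c hc (fun h => hab.ne (e1.trans h.symm)) (fun h => hne (e1.trans h.symm)) hbc
      · by_cases e2 : b = q
        · exact h2 a ha d hd e1 (fun h => hne' (e2.trans h.symm)) had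
        · exact h2 a ha b hb e1 e2 hab
  have first : ∀ p ∈ M, ∀ q ∈ M, G.Adj p q → G.Adj v p ∨ G.Adj v q := by
    intro p hp q hq hpq
    by_contra hcon
    push Not at hcon
    obtain ⟨hvp, hvq⟩ := hcon
    rcases hM p hp q hq m hm hpq with h | h
    · by_cases h' : G.Adj m q
      · exact key p hp q hq hpq hvp hvq h' h
      · exact key2 q hq p hp hpq.symm hvq hvp h h'
    · by_cases h' : G.Adj m p
      · exact key p hp q hq hpq hvp hvq h h'
      · exact key2 p hp q hq hpq hvp hvq h h'
  have hedge : ∃ a ∈ M, ∃ b ∈ M, G.Adj a b := by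
    rcases hc with ⟨a, ha, b, hb, _, _, hab, _⟩ | ⟨a, ha, b, hb, _, _, _, _, _, _, hab, _⟩
    · exact ⟨a, ha, b, hb, hab⟩
    · exact ⟨a, ha, b, hb, hab⟩
  have second : ∀ x ∈ M, G.Adj v x → ∀ z ∈ M, ¬ G.Adj z v → G.Adj z x := by
    intro x hx hvx z hz hzv
    by_contra hzx
    obtain ⟨a, ha, b, hb, hab⟩ := hedge
    obtain ⟨q, hq, hxq⟩ : ∃ q ∈ M, G.Adj x q := by
      rcases hM a ha b hb x hx hab with h | h
      · exact ⟨a, ha, h⟩
      · exact ⟨b, hb, h⟩
    have hzq : G.Adj z q := by
      rcases hM q hq x hx z hz hxq.symm with h | h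
      · exact h
      · exact absurd h hzx
    have hvq : G.Adj v q := by
      rcases first z hz q hq hzq with h | h
      · exact absurd h.symm hzv
      · exact h
    exact hG (pw3 (x := q) (y := v) (z := x) (p := z) hvq.symm hvx hxq.symm hzq hzv hzx)
  intro x hx y hy z hz hxy
  rw [mem_insert] at hx hy hz
  rcases hx with rfl | hx
  · rcases hy with rfl | hy
    · exact absurd hxy (G.irrefl)
    · rcases hz with rfl | hz
      · exact Or.inr hxy
      · by_cases h : G.Adj z x
        · exact Or.inl h
        · exact Or.inr (second y hy hxy z hz h)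
  · rcases hy with rfl | hy
    · rcases hz with rfl | hz
      · exact Or.inl hxy.symm
      · by_cases h : G.Adj z y
        · exact Or.inr h
        · exact Or.inl (second x hx hxy.symm z hz h)
    · rcases hz with rfl | hz
      · exact first x hx y hy hxy
      · exact hM x hx y hy z hz hxy

theorem p4free_of_short [Fintype V] (hG : ¬ PW G) (hcon : Cn G univ)
    (M0 : Finset V) (h0 : CM G M0) (hc0 : HC G M0) : P4Free G univ := by
  obtain ⟨M, hM, hmax⟩ := (univ.filter (fun M : Finset V => CM G M ∧ HC G M)).exists_max_image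
    card ⟨M0, by simp [h0, hc0]⟩
  simp only [mem_filter, mem_univ, true_and] at hM hmax
  have hMu : M = univ := by
    by_contra hne
    obtain ⟨a, ha⟩ : M.Nonempty := by
      rcases hM.2 with ⟨a, ha, _⟩ | ⟨a, ha, _⟩ <;> exact ⟨a, ha⟩
    have h2 : (univ \ M).Nonempty := by
      rw [sdiff_nonempty]
      exact fun h => hne (subset_antisymm (subset_univ _) h)
    obtain ⟨m, hm, v, hv, hmv⟩ := hcon.2 M (subset_univ _) ⟨a, ha⟩ h2
    have hvM : v ∉ M := (mem_sdiff.1 hv).2
    have h3 := cm_step hG hM.1 hM.2 hm hmv.symm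
    have h4 : HC G (insert v M) := by
      rcases hM.2 with ⟨a, ha, b, hb, c, hc, h⟩ | ⟨a, ha, b, hb, c, hc, d, hd, h⟩
      · exact Or.inl ⟨a, mem_insert_of_mem ha, b, mem_insert_of_mem hb, c, mem_insert_of_mem hc, h⟩
      · exact Or.inr ⟨a, mem_insert_of_mem ha, b, mem_insert_of_mem hb, c, mem_insert_of_mem hc,
          d, mem_insert_of_mem hd, h⟩
    have h5 := hmax _ ⟨h3, h4⟩
    rw [card_insert_of_notMem hvM] at h5
    omega
  intro a _ b _ c _ d _ _ _ _ hab hbc hcd
  rcases hM.1 c (by simp [hMu]) d (by simp [hMu]) a (by simp [hMu]) hcd with h | h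
  · exact Or.inl h
  · exact Or.inr (Or.inl h)

/-- degree at most two in a spanning induced cycle -/
theorem deg_of_cycle [Fintype V] {n : ℕ} {c : ℕ → V} (hc : IC G n c)
    (hall : ∀ x : V, ∃ i < n, c i = x) :
    ∀ x ∈ (univ : Finset V), ((univ : Finset V).filter (fun y => G.Adj x y)).card ≤ 2 := by
  intro x _
  have h3 := hc.three
  obtain ⟨i, hi, rfl⟩ := hall x
  have hsub : (univ : Finset V).filter (fun y => G.Adj (c i) y) ⊆
      {c (if i + 1 < n then i + 1 else 0), c (if i = 0 then n - 1 else i - 1)} := by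
    intro y hy
    rw [mem_filter] at hy
    obtain ⟨j, hj, rfl⟩ := hall y
    rw [mem_insert, mem_singleton]
    have hne : i ≠ j := by
      rintro rfl
      exact G.irrefl hy.2
    rcases lt_or_gt_of_ne hne with h | h
    · rw [hc.adj i j h hj] at hy
      rcases hy.2 with h4 | h4
      · left
        rw [if_pos (by omega), h4]
      · right
        rw [if_pos h4.1, h4.2]
    · rw [G.adj_comm, hc.adj j i h hi] at hy
      rcases hy.2 with h4 | h4
      · right
        rw [if_neg (by omega)]
        congr 1
        omega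
      · left
        rw [if_neg (by omega), h4.1]
  exact (card_le_card hsub).trans card_le_two

theorem paw_two [Fintype V] (hG : ¬ PW G) (h2 : TwoConn G) : DT G 2 univ univ := by
  have hne : (univ : Finset V).Nonempty := h2.conn.1
  by_cases hlong : ∃ n c, IC G n c ∧ 5 ≤ n
  · obtain ⟨n, c, hc, h5⟩ := hlong
    have hall : ∀ x : V, ∃ i < n, c i = x := by
      by_contra hcon
      push Not at hcon
      obtain ⟨x, hx⟩ := hcon
      obtain ⟨a, ha, v, hv, hav⟩ := h2.conn.2 (cv n c) (subset_univ _)
        ⟨c 0, mem_cv.2 ⟨0, by omega, rfl⟩⟩ ⟨x, by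
          rw [mem_sdiff]
          exact ⟨mem_univ _, fun h => by
            obtain ⟨i, hi, hix⟩ := mem_cv.1 h
            exact hx i hi hix⟩⟩
      obtain ⟨i, hi, rfl⟩ := mem_cv.1 ha
      have hv' : ∀ j < n, v ≠ c j := by
        intro j hj h
        exact (mem_sdiff.1 hv).2 (mem_cv.2 ⟨j, hj, h.symm⟩)
      exact hG (pw_of_long hc h5 hv' hi hav.symm)
    exact dt_deg_two (deg_of_cycle hc hall) _ _ (Subset.refl _) le_rfl h2.conn
  · push Not at hlong
    obtain ⟨n, c, hc⟩ := exists_ic h2
    have h3 := hc.three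
    have h5 := hlong n c hc
    have hP : P4Free G univ := by
      by_cases hn : n = 3
      · subst hn
        have a01 : G.Adj (c 0) (c 1) := (hc.adj 0 1 (by omega) (by omega)).2 (Or.inl rfl)
        have a12 : G.Adj (c 1) (c 2) := (hc.adj 1 2 (by omega) (by omega)).2 (Or.inl rfl)
        have a02 : G.Adj (c 0) (c 2) := (hc.adj 0 2 (by omega) (by omega)).2 (Or.inr ⟨rfl, rfl⟩)
        refine p4free_of_short hG h2.conn {c 0, c 1, c 2} ?_ ?_
        · intro x hx y hy z hz hxy
          simp only [mem_insert, mem_singleton] at hx hy hz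
          have := a01.symm
          have := a12.symm
          have := a02.symm
          have := G.irrefl (v := c 0)
          have := G.irrefl (v := c 1)
          have := G.irrefl (v := c 2)
          rcases hx with rfl | rfl | rfl <;> rcases hy with rfl | rfl | rfl <;>
            rcases hz with rfl | rfl | rfl <;> simp_all
        · left
          exact ⟨c 0, by simp, c 1, by simp, c 2, by simp, a01, a12, a02⟩
      · have hn4 : n = 4 := by omega
        subst hn4
        have a01 : G.Adj (c 0) (c 1) := (hc.adj 0 1 (by omega) (by omega)).2 (Or.inl rfl)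
        have a12 : G.Adj (c 1) (c 2) := (hc.adj 1 2 (by omega) (by omega)).2 (Or.inl rfl)
        have a23 : G.Adj (c 2) (c 3) := (hc.adj 2 3 (by omega) (by omega)).2 (Or.inl rfl)
        have a03 : G.Adj (c 0) (c 3) := (hc.adj 0 3 (by omega) (by omega)).2 (Or.inr ⟨rfl, rfl⟩)
        have n02 : ¬ G.Adj (c 0) (c 2) := by
          rw [hc.adj 0 2 (by omega) (by omega)]; omega
        have n13 : ¬ G.Adj (c 1) (c 3) := by
          rw [hc.adj 1 3 (by omega) (by omega)]; omega
        refine p4free_of_short hG h2.conn {c 0, c 1, c 2, c 3} ?_ ?_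
        · intro x hx y hy z hz hxy
          simp only [mem_insert, mem_singleton] at hx hy hz
          have := a01.symm
          have := a12.symm
          have := a23.symm
          have := a03.symm
          have : ¬ G.Adj (c 2) (c 0) := fun h => n02 h.symm
          have : ¬ G.Adj (c 3) (c 1) := fun h => n13 h.symm
          have := G.irrefl (v := c 0)
          have := G.irrefl (v := c 1)
          have := G.irrefl (v := c 2)
          have := G.irrefl (v := c 3)
          rcases hx with rfl | rfl | rfl | rfl <;> rcases hy with rfl | rfl | rfl | rfl <;>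
            rcases hz with rfl | rfl | rfl | rfl <;> simp_all
        · right
          exact ⟨c 0, by simp, c 1, by simp, c 2, by simp, c 3, by simp,
            fun h => by have := hc.inj 0 2 (by omega) (by omega) h; omega,
            fun h => by have := hc.inj 1 3 (by omega) (by omega) h; omega, a01, a12, a23, a03⟩
    exact (dt_cograph _ univ univ le_rfl hne (Subset.refl _) hP
      (fun _ _ _ _ z hz hz' => absurd hz hz')).mono (by omega)

end Pool.Agent.K6.H4.Itm
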