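import Pool.Agent.K6.H4.ItmSeq

/-! The witnesses give induced topological minors. -/

set_option autoImplicit false

namespace Pool.Agent.K6.H4.Itm

open SimpleGraph Pool.Agent.H175R2

variable {V : Type} {G : SimpleGraph V}

theorem paw_ge (u v : Fin 4) (h : (u = 0 ∧ v = 1) ∨ (u = 0 ∧ v = 2) ∨ (u = 0 ∧ v = 3) ∨
    (u = 1 ∧ v = 2)) : u < v ∧ paw.Adj u v := by
  rw [adj_paw]
  revert u v
  decide

theorem dia_ge (u v : Fin 4) (h : (u = 0 ∧ v = 1) ∨ (u = 0 ∧ v = 2) ∨ (u = 0 ∧ v = 3) ∨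
    (u = 1 ∧ v = 2) ∨ (u = 1 ∧ v = 3)) : u < v ∧ diamond.Adj u v := by
  rw [adj_dia]
  revert u v
  decide

theorem itm_of_PW (h : PW G) : IsInducedTopologicalMinor paw G := by
  obtain ⟨n, c, p, hc, hp, hp0, hpi⟩ := h
  have h3 := hc.three
  set g : ℕ → V := fun i => if i < n then c i else p with hg
  have g1 : ∀ i, i < n → g i = c i := fun i hi => by simp [hg, hi]
  have g2 : g n = p := by simp [hg]
  set β : Fin 4 → ℕ := ![0, 1, n - 1, n] with hβ
  have b0 : β 0 = 0 := rfl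
  have b1 : β 1 = 1 := rfl
  have b2 : β 2 = n - 1 := rfl
  have b3 : β 3 = n := rfl
  have ball : ∀ w : Fin 4, (w = 0 ∧ β w = 0) ∨ (w = 1 ∧ β w = 1) ∨ (w = 2 ∧ β w = n - 1) ∨
      (w = 3 ∧ β w = n) := by
    intro w
    fin_cases w
    · exact Or.inl ⟨rfl, rfl⟩
    · exact Or.inr (Or.inl ⟨rfl, rfl⟩)
    · exact Or.inr (Or.inr (Or.inl ⟨rfl, rfl⟩))
    · exact Or.inr (Or.inr (Or.inr ⟨rfl, rfl⟩))
  clear_value β
  set L : Fin 4 → Fin 4 → ℕ := fun u v => if u = 1 ∧ v = 2 then n - 2 else 1 with hL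
  set ξ : Fin 4 → Fin 4 → ℕ → ℕ := fun u v k =>
    if u = 1 ∧ v = 2 then k + 1 else if k = 0 then β u else β v with hξ
  have L12 : L 1 2 = n - 2 := by simp [hL]
  have x12 : ∀ k, ξ 1 2 k = k + 1 := by simp [hξ]
  have Lo : ∀ u v, ¬ (u = 1 ∧ v = 2) → L u v = 1 := fun u v h => by simp [hL, h]
  have xo0 : ∀ u v, ¬ (u = 1 ∧ v = 2) → ξ u v 0 = β u := fun u v h => by simp [hξ, h]
  have xo1 : ∀ u v, ¬ (u = 1 ∧ v = 2) → ξ u v 1 = β v := fun u v h => by simp [hξ, h]
  clear_value L ξ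
  have ex : ∀ u v, u < v → paw.Adj u v → (u = 1 ∧ v = 2) ∨ (¬ (u = 1 ∧ v = 2) ∧ u = 0) := by
    intro u v h1 h2
    rcases paw_lt u v h1 h2 with ⟨rfl, rfl⟩ | ⟨rfl, rfl⟩ | ⟨rfl, rfl⟩ | ⟨rfl, rfl⟩ <;> simp
  refine itm_of_label (n + 1) g ?_ β L ξ ?_ ?_ ?_ ?_ ?_ ?_ ?_ ?_ ?_ ?_
  · intro s t hs ht hst
    by_cases h1 : s < n
    · by_cases h2 : t < n
      · rw [g1 s h1, g1 t h2] at hst
        exact hc.inj s t h1 h2 hst
      · have : t = n := by omega
        subst this
        rw [g1 s h1, g2] at hst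
        exact absurd hst.symm (hp s h1)
    · have : s = n := by omega
      subst this
      by_cases h2 : t < s
      · rw [g2, g1 t h2] at hst
        exact absurd hst (hp t h2)
      · omega
  · intro u
    rcases ball u with h | h | h | h <;> omega
  · intro u v huv
    rcases ball u with h | h | h | h <;> rcases ball v with h' | h' | h' | h' <;>
      first
      | exact h.1.trans h'.1.symm
      | (exfalso; omega)
  · intro u v h1 h2 k hk
    rcases ex u v h1 h2 with ⟨rfl, rfl⟩ | ⟨h, _⟩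
    · rw [L12] at hk
      rw [x12]
      omega
    · rw [Lo u v h] at hk
      have : k = 0 ∨ k = 1 := by omega
      rcases this with rfl | rfl
      · rw [xo0 u v h]
        rcases ball u with h | h | h | h <;> omega
      · rw [xo1 u v h]
        rcases ball v with h | h | h | h <;> omega
  · intro u v h1 h2
    rcases ex u v h1 h2 with ⟨rfl, rfl⟩ | ⟨h, _⟩
    · rw [x12, b1]
    · exact xo0 u v h
  · intro u v h1 h2
    rcases ex u v h1 h2 with ⟨rfl, rfl⟩ | ⟨h, _⟩
    · rw [x12, L12, b2]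
      omega
    · rw [Lo u v h]
      exact xo1 u v h
  · intro u v h1 h2 k l hk hl hkl
    rcases ex u v h1 h2 with ⟨rfl, rfl⟩ | ⟨h, h0⟩
    · rw [x12, x12] at hkl
      omega
    · rw [Lo u v h] at hk hl
      have hne : β u ≠ β v := by
        have hv : v ≠ 0 := by rintro rfl; exact absurd h1 (by simp)
        subst h0
        rcases ball v with h | h | h | h
        · exact absurd h.1 hv
        · omega
        · omega
        · omega
      have k1 : k = 0 ∨ k = 1 := by omega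
      have l1 : l = 0 ∨ l = 1 := by omega
      rcases k1 with rfl | rfl <;> rcases l1 with rfl | rfl
      · rfl
      · rw [xo0 u v h, xo1 u v h] at hkl
        exact absurd hkl hne
      · rw [xo0 u v h, xo1 u v h] at hkl
        exact absurd hkl.symm hne
      · rfl
  · intro u v h1 h2 w k hk hw
    have binj : ∀ u v, β u = β v → u = v := by
      intro u v huv
      rcases ball u with h | h | h | h <;> rcases ball v with h' | h' | h' | h' <;>
        first
        | exact h.1.trans h'.1.symm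
        | (exfalso; omega)
    rcases ex u v h1 h2 with ⟨rfl, rfl⟩ | ⟨h, h0⟩
    · rw [x12] at hw
      rw [L12] at hk
      rcases ball w with h | h | h | h
      · omega
      · exact Or.inl h.1
      · exact Or.inr h.1
      · omega
    · rw [Lo u v h] at hk
      have k1 : k = 0 ∨ k = 1 := by omega
      rcases k1 with rfl | rfl
      · rw [xo0 u v h] at hw
        exact Or.inl (binj _ _ hw).symm
      · rw [xo1 u v h] at hw
        exact Or.inr (binj _ _ hw).symm
  · intro u v u' v' h1 h1' h2 h2' hne k l hk hl hkl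
    have key : ∀ u v k, ¬ (u = 1 ∧ v = 2) → k ≤ L u v → ∃ w, β w = ξ u v k := by
      intro u v k h hk
      rw [Lo u v h] at hk
      have k1 : k = 0 ∨ k = 1 := by omega
      rcases k1 with rfl | rfl
      · exact ⟨u, (xo0 u v h).symm⟩
      · exact ⟨v, (xo1 u v h).symm⟩
    by_cases h : u = 1 ∧ v = 2
    · have h' : ¬ (u' = 1 ∧ v' = 2) := by
        rintro ⟨rfl, rfl⟩
        exact hne h
      rw [hkl]
      exact key u' v' l h' hl
    · exact key u v k h hk
  · intro s hs t ht hst hadj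
    by_cases h2 : t < n
    · rw [g1 s (by omega), g1 t h2, hc.adj s t hst h2] at hadj
      by_cases hs0 : s = 0
      · subst hs0
        rcases hadj with h | h
        · have h5 : t = 1 := by omega
          subst h5
          obtain ⟨e1, e2⟩ := paw_ge 0 1 (by simp)
          refine ⟨0, 1, e1, e2, 0, by rw [Lo 0 1 (by decide)]; omega, Or.inl ⟨?_, ?_⟩⟩
          · rw [xo0 0 1 (by decide), b0]
          · rw [xo1 0 1 (by decide), b1]
        · obtain ⟨e1, e2⟩ := paw_ge 0 2 (by simp)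
          refine ⟨0, 2, e1, e2, 0, by rw [Lo 0 2 (by decide)]; omega, Or.inl ⟨?_, ?_⟩⟩
          · rw [xo0 0 2 (by decide), b0]
          · rw [xo1 0 2 (by decide), b2, h.2]
      · have h5 : t = s + 1 := by omega
        obtain ⟨e1, e2⟩ := paw_ge 1 2 (by simp)
        refine ⟨1, 2, e1, e2, s - 1, by rw [L12]; omega, Or.inl ⟨?_, ?_⟩⟩
        · rw [x12]; omega
        · rw [x12]; omega
    · have h5 : t = n := by omega
      subst h5
      rw [g1 s hst, g2] at hadj
      have hs0 : s = 0 := by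
        by_contra h6
        exact hpi s (by omega) hst hadj.symm
      subst hs0
      obtain ⟨e1, e2⟩ := paw_ge 0 3 (by simp)
      refine ⟨0, 3, e1, e2, 0, by rw [Lo 0 3 (by decide)]; omega, Or.inl ⟨?_, ?_⟩⟩
      · rw [xo0 0 3 (by decide), b0]
      · rw [xo1 0 3 (by decide), b3]
  · intro u v h1 h2 k hk
    rcases paw_lt u v h1 h2 with ⟨rfl, rfl⟩ | ⟨rfl, rfl⟩ | ⟨rfl, rfl⟩ | ⟨rfl, rfl⟩
    · rw [Lo 0 1 (by decide)] at hk
      have : k = 0 := by omega
      subst this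
      rw [xo0 0 1 (by decide), xo1 0 1 (by decide), b0, b1, g1 0 (by omega), g1 1 (by omega),
        hc.adj 0 1 (by omega) (by omega)]
      exact Or.inl rfl
    · rw [Lo 0 2 (by decide)] at hk
      have : k = 0 := by omega
      subst this
      rw [xo0 0 2 (by decide), xo1 0 2 (by decide), b0, b2, g1 0 (by omega),
        g1 (n - 1) (by omega), hc.adj 0 (n - 1) (by omega) (by omega)]
      exact Or.inr ⟨rfl, rfl⟩
    · rw [Lo 0 3 (by decide)] at hk
      have : k = 0 := by omega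
      subst this
      rw [xo0 0 3 (by decide), xo1 0 3 (by decide), b0, b3, g1 0 (by omega), g2]
      exact hp0.symm
    · rw [L12] at hk
      rw [x12, x12, g1 _ (by omega), g1 _ (by omega), hc.adj _ _ (by omega) (by omega)]
      exact Or.inl rfl

theorem itm_of_TH (h : TH G) : IsInducedTopologicalMinor diamond G := by
  obtain ⟨n, c, j, m, q, hc, hj1, hj2, hqc, hqq, hadj⟩ := h
  have h3 := hc.three
  set g : ℕ → V := fun i => if i < n then c i else q (i - n) with hg
  have g1 : ∀ i, i < n → g i = c i := fun i hi => by simp [hg, hi]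
  have g2 : ∀ k, g (n + k) = q k := fun k => by simp [hg]
  have g3 : ∀ i, n ≤ i → g i = q (i - n) := fun i hi => by simp [hg, not_lt.2 hi]
  clear_value g
  set β : Fin 4 → ℕ := ![0, j, n - 1, n] with hβ
  have b0 : β 0 = 0 := rfl
  have b1 : β 1 = j := rfl
  have b2 : β 2 = n - 1 := rfl
  have b3 : β 3 = n := rfl
  have ball : ∀ w : Fin 4, (w = 0 ∧ β w = 0) ∨ (w = 1 ∧ β w = j) ∨ (w = 2 ∧ β w = n - 1) ∨
      (w = 3 ∧ β w = n) := by
    intro w
    fin_cases w
    · exact Or.inl ⟨rfl, rfl⟩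
    · exact Or.inr (Or.inl ⟨rfl, rfl⟩)
    · exact Or.inr (Or.inr (Or.inl ⟨rfl, rfl⟩))
    · exact Or.inr (Or.inr (Or.inr ⟨rfl, rfl⟩))
  clear_value β
  have binj : ∀ u v, β u = β v → u = v := by
    intro u v huv
    rcases ball u with h | h | h | h <;> rcases ball v with h' | h' | h' | h' <;>
      first
      | exact h.1.trans h'.1.symm
      | (exfalso; omega)
  set L : Fin 4 → Fin 4 → ℕ := fun u v => if u = 0 ∧ v = 1 then j else
    if u = 1 ∧ v = 2 then n - 1 - j else if u = 1 ∧ v = 3 then m + 1 else 1 with hL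
  set ξ : Fin 4 → Fin 4 → ℕ → ℕ := fun u v k => if u = 0 ∧ v = 1 then k else
    if u = 1 ∧ v = 2 then j + k else if u = 1 ∧ v = 3 then (if k = 0 then j else n + m + 1 - k) else
    if k = 0 then β u else β v with hξ
  have L01 : L 0 1 = j := by simp [hL]
  have L12 : L 1 2 = n - 1 - j := by simp [hL]
  have L13 : L 1 3 = m + 1 := by simp [hL]
  have L02 : L 0 2 = 1 := by simp [hL]
  have L03 : L 0 3 = 1 := by simp [hL]
  have x01 : ∀ k, ξ 0 1 k = k := by simp [hξ]
  have x12 : ∀ k, ξ 1 2 k = j + k := by simp [hξ]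
  have x130 : ξ 1 3 0 = j := by simp [hξ]
  have x13 : ∀ k, 1 ≤ k → ξ 1 3 k = n + m + 1 - k := by
    intro k hk
    have : k ≠ 0 := by omega
    simp [hξ, this]
  have x020 : ξ 0 2 0 = 0 := by simp [hξ, b0]
  have x021 : ξ 0 2 1 = n - 1 := by simp [hξ, b2]
  have x030 : ξ 0 3 0 = 0 := by simp [hξ, b0]
  have x031 : ξ 0 3 1 = n := by simp [hξ, b3]
  clear_value L ξ
  -- value table
  have xv : ∀ u v, u < v → diamond.Adj u v → ∀ k ≤ L u v,
      (u = 0 ∧ v = 1 ∧ ξ u v k = k ∧ k ≤ j) ∨ (u = 1 ∧ v = 2 ∧ ξ u v k = j + k ∧ j + k ≤ n - 1) ∨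
      (u = 1 ∧ v = 3 ∧ k = 0 ∧ ξ u v k = j) ∨
      (u = 1 ∧ v = 3 ∧ 1 ≤ k ∧ k ≤ m + 1 ∧ ξ u v k = n + m + 1 - k) ∨
      (u = 0 ∧ v = 2 ∧ k = 0 ∧ ξ u v k = 0) ∨ (u = 0 ∧ v = 2 ∧ k = 1 ∧ ξ u v k = n - 1) ∨
      (u = 0 ∧ v = 3 ∧ k = 0 ∧ ξ u v k = 0) ∨ (u = 0 ∧ v = 3 ∧ k = 1 ∧ ξ u v k = n) := by
    intro u v h1 h2 k hk
    rcases dia_lt u v h1 h2 with ⟨rfl, rfl⟩ | ⟨rfl, rfl⟩ | ⟨rfl, rfl⟩ | ⟨rfl, rfl⟩ | ⟨rfl, rfl⟩
    · rw [L01] at hk
      exact Or.inl ⟨rfl, rfl, x01 k, hk⟩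
    · rw [L02] at hk
      have k1 : k = 0 ∨ k = 1 := by omega
      rcases k1 with rfl | rfl
      · right; right; right; right; left; exact ⟨rfl, rfl, rfl, x020⟩
      · right; right; right; right; right; left; exact ⟨rfl, rfl, rfl, x021⟩
    · rw [L03] at hk
      have k1 : k = 0 ∨ k = 1 := by omega
      rcases k1 with rfl | rfl
      · right; right; right; right; right; right; left; exact ⟨rfl, rfl, rfl, x030⟩
      · right; right; right; right; right; right; right; exact ⟨rfl, rfl, rfl, x031⟩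
    · rw [L12] at hk
      right; left
      exact ⟨rfl, rfl, x12 k, by omega⟩
    · rw [L13] at hk
      by_cases k1 : k = 0
      · subst k1
        right; right; left; exact ⟨rfl, rfl, rfl, x130⟩
      · right; right; right; left
        exact ⟨rfl, rfl, by omega, hk, x13 k (by omega)⟩
  refine itm_of_label (n + m + 1) g ?_ β L ξ ?_ ?_ ?_ ?_ ?_ ?_ ?_ ?_ ?_ ?_
  · intro s t hs ht hst
    by_cases h1 : s < n
    · by_cases h2 : t < n
      · rw [g1 s h1, g1 t h2] at hst
        exact hc.inj s t h1 h2 hst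
      · rw [g1 s h1, g3 t (by omega)] at hst
        exact absurd hst.symm (hqc (t - n) (by omega) s h1)
    · by_cases h2 : t < n
      · rw [g1 t h2, g3 s (by omega)] at hst
        exact absurd hst (hqc (s - n) (by omega) t h2)
      · rw [g3 s (by omega), g3 t (by omega)] at hst
        by_contra hne
        rcases lt_or_gt_of_ne hne with h | h
        · exact (hqq (s - n) (t - n) (by omega) (by omega)).1 hst
        · exact (hqq (t - n) (s - n) (by omega) (by omega)).1 hst.symm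
  · intro u
    rcases ball u with h | h | h | h <;> omega
  · intro u v huv
    exact binj u v huv
  · intro u v h1 h2 k hk
    rcases xv u v h1 h2 k hk with h | h | h | h | h | h | h | h <;> omega
  · intro u v h1 h2
    rcases dia_lt u v h1 h2 with ⟨rfl, rfl⟩ | ⟨rfl, rfl⟩ | ⟨rfl, rfl⟩ | ⟨rfl, rfl⟩ | ⟨rfl, rfl⟩
    · rw [x01, b0]
    · rw [x020, b0]
    · rw [x030, b0]
    · rw [x12, b1, Nat.add_zero]
    · rw [x130, b1]
  · intro u v h1 h2
    rcases dia_lt u v h1 h2 with ⟨rfl, rfl⟩ | ⟨rfl, rfl⟩ | ⟨rfl, rfl⟩ | ⟨rfl, rfl⟩ | ⟨rfl, rfl⟩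
    · rw [x01, L01, b1]
    · rw [L02, x021, b2]
    · rw [L03, x031, b3]
    · rw [L12, x12, b2]; omega
    · rw [L13, x13 _ (by omega), b3]; omega
  · intro u v h1 h2 k l hk hl hkl
    have e1 := xv u v h1 h2 k hk
    have e2 := xv u v h1 h2 l hl
    rw [hkl] at e1
    rcases dia_lt u v h1 h2 with ⟨rfl, rfl⟩ | ⟨rfl, rfl⟩ | ⟨rfl, rfl⟩ | ⟨rfl, rfl⟩ | ⟨rfl, rfl⟩ <;>
      simp at e1 e2 <;> omega
  · intro u v h1 h2 w k hk hw
    have e1 := xv u v h1 h2 k hk
    rw [hw] at e1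
    rcases dia_lt u v h1 h2 with ⟨rfl, rfl⟩ | ⟨rfl, rfl⟩ | ⟨rfl, rfl⟩ | ⟨rfl, rfl⟩ | ⟨rfl, rfl⟩ <;>
      rcases ball w with ⟨rfl, hb⟩ | ⟨rfl, hb⟩ | ⟨rfl, hb⟩ | ⟨rfl, hb⟩ <;>
      simp at e1 ⊢ <;> omega
  · intro u v u' v' h1 h1' h2 h2' hne k l hk hl hkl
    have e1 := xv u v h1 h2 k hk
    have e2 := xv u' v' h1' h2' l hl
    by_cases c0 : ξ u v k = 0
    · exact ⟨0, by rw [c0, b0]⟩
    by_cases c1 : ξ u v k = j
    · exact ⟨1, by rw [c1, b1]⟩
    by_cases c2 : ξ u v k = n - 1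
    · exact ⟨2, by rw [c2, b2]⟩
    by_cases c3 : ξ u v k = n
    · exact ⟨3, by rw [c3, b3]⟩
    exfalso
    rw [← hkl] at e2
    apply hne
    rcases e1 with ⟨rfl, rfl, e1⟩ | ⟨rfl, rfl, e1⟩ | e1 | ⟨rfl, rfl, e1⟩ | e1 | e1 | e1 | e1
    · rcases e2 with ⟨rfl, rfl, e2⟩ | e2 | e2 | e2 | e2 | e2 | e2 | e2
      · exact ⟨rfl, rfl⟩
      all_goals (exfalso; omega)
    · rcases e2 with e2 | ⟨rfl, rfl, e2⟩ | e2 | e2 | e2 | e2 | e2 | e2
      · exfalso; omega
      · exact ⟨rfl, rfl⟩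
      all_goals (exfalso; omega)
    · exfalso; omega
    · rcases e2 with e2 | e2 | e2 | ⟨rfl, rfl, e2⟩ | e2 | e2 | e2 | e2
      · exfalso; omega
      · exfalso; omega
      · exfalso; omega
      · exact ⟨rfl, rfl⟩
      all_goals (exfalso; omega)
    all_goals (exfalso; omega)
  · intro s hs t ht hst had
    by_cases h2 : t < n
    · rw [g1 s (by omega), g1 t h2, hc.adj s t hst h2] at had
      by_cases hs0 : s = 0 ∧ t = n - 1
      · obtain ⟨rfl, rfl⟩ := hs0
        obtain ⟨e1, e2⟩ := dia_ge 0 2 (by simp)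
        refine ⟨0, 2, e1, e2, 0, by rw [L02]; omega, Or.inl ⟨x020, x021⟩⟩
      · have h5 : t = s + 1 := by omega
        subst h5
        by_cases h6 : s < j
        · obtain ⟨e1, e2⟩ := dia_ge 0 1 (by simp)
          exact ⟨0, 1, e1, e2, s, by rw [L01]; omega, Or.inl ⟨x01 _, x01 _⟩⟩
        · obtain ⟨e1, e2⟩ := dia_ge 1 2 (by simp)
          refine ⟨1, 2, e1, e2, s - j, by rw [L12]; omega, Or.inl ⟨?_, ?_⟩⟩
          · rw [x12]; omega
          · rw [x12]; omega
    · rw [g3 t (by omega)] at had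
      by_cases h1 : s < n
      · rw [g1 s h1] at had
        have h4 := (hadj (t - n) (by omega) s h1).1 had.symm
        rcases h4 with h4 | h4
        · obtain ⟨e1, e2⟩ := dia_ge 0 3 (by simp)
          refine ⟨0, 3, e1, e2, 0, by rw [L03]; omega, Or.inl ⟨?_, ?_⟩⟩
          · rw [x030]; omega
          · rw [x031]; omega
        · obtain ⟨e1, e2⟩ := dia_ge 1 3 (by simp)
          refine ⟨1, 3, e1, e2, 0, by rw [L13]; omega, Or.inl ⟨?_, ?_⟩⟩
          · rw [x130]; omega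
          · rw [x13 _ (by omega)]; omega
      · rw [g3 s (by omega)] at had
        have h4 := (hqq (s - n) (t - n) (by omega) (by omega)).2.1 had
        obtain ⟨e1, e2⟩ := dia_ge 1 3 (by simp)
        refine ⟨1, 3, e1, e2, n + m + 1 - t, by rw [L13]; omega, Or.inr ⟨?_, ?_⟩⟩
        · rw [x13 _ (by omega)]; omega
        · rw [x13 _ (by omega)]; omega
  · intro u v h1 h2 k hk
    rcases dia_lt u v h1 h2 with ⟨rfl, rfl⟩ | ⟨rfl, rfl⟩ | ⟨rfl, rfl⟩ | ⟨rfl, rfl⟩ | ⟨rfl, rfl⟩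
    · rw [L01] at hk
      rw [x01, x01, g1 _ (by omega), g1 _ (by omega), hc.adj _ _ (by omega) (by omega)]
      exact Or.inl rfl
    · rw [L02] at hk
      have : k = 0 := by omega
      subst this
      rw [x020, x021, g1 0 (by omega), g1 (n - 1) (by omega),
        hc.adj 0 (n - 1) (by omega) (by omega)]
      exact Or.inr ⟨rfl, rfl⟩
    · rw [L03] at hk
      have : k = 0 := by omega
      subst this
      rw [x030, x031, g1 0 (by omega), g3 n le_rfl, Nat.sub_self]
      exact ((hadj 0 (by omega) 0 (by omega)).2 (Or.inl ⟨rfl, rfl⟩)).symm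
    · rw [L12] at hk
      rw [x12, x12, g1 _ (by omega), g1 _ (by omega), hc.adj _ _ (by omega) (by omega)]
      left; omega
    · rw [L13] at hk
      by_cases h0 : k = 0
      · subst h0
        rw [x130, x13 _ (by omega), g1 j (by omega), g3 _ (by omega)]
        exact ((hadj _ (by omega) j (by omega)).2 (Or.inr ⟨by omega, rfl⟩)).symm
      · rw [x13 _ (by omega), x13 _ (by omega), g3 _ (by omega), g3 _ (by omega)]
        exact ((hqq _ _ (by omega) (by omega)).2.2 (by omega)).symm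

end Pool.Agent.K6.H4.Itm
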