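import Pool.Agent.K6.H4.ItmDia
import Pool.Agent.K6.H4.ItmPaw
import Pool.Agent.K6.H4.ItmWit
import Pool.Agent.K6.H4.ItmNec

/-! Bounded clique-width from 2-connected graphs, for hereditary classes. -/

set_option autoImplicit false

namespace Pool.Agent.K6.H4.Itm

open Finset Classical Pool.Agent.H175R2
open scoped SimpleGraph

/-- Reduction to 2-connected graphs. -/
theorem dt_of_blocks' (P : ∀ V : Type, SimpleGraph V → Prop)
    (hP : ∀ (V : Type) (G : SimpleGraph V) (R : Finset V), P V G → P (H175R2.Sub R) (G.comap (emb R)))
    (K : ℕ)
    (h2 : ∀ (V : Type) [Fintype V] (G : SimpleGraph V), TwoConn G → P V G → DT G K univ univ) :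
    ∀ (n : ℕ) (V : Type) [Fintype V] (G : SimpleGraph V), Fintype.card V ≤ n → Cn G univ →
      P V G → DT G (K + 1) univ univ := by
  intro n
  induction n with
  | zero =>
    intro V _ G hn hc _
    obtain ⟨x, _⟩ := hc.1
    have := Fintype.card_pos_iff.2 ⟨x⟩
    omega
  | succ n ih =>
    intro V _ G hn hc hT
    obtain ⟨x0, _⟩ := hc.1
    by_cases h3 : 3 ≤ Fintype.card V
    · by_cases hcut : ∀ v, Cn G (univ.erase v)
      · exact (h2 V G ⟨h3, hc, hcut⟩ hT).mono (by omega)
      push Not at hcut
      obtain ⟨c0, hc0⟩ := hcut
      -- choose a smallest leaf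
      have hex : ((univ : Finset (V × V)).filter (fun p => p.2 ≠ p.1 ∧ ¬ Cn G (univ.erase p.1))).Nonempty := by
        have : 1 < Fintype.card V := by omega
        obtain ⟨y, hy⟩ := Fintype.exists_ne_of_one_lt_card this c0
        exact ⟨(c0, y), by simp [hy, hc0]⟩
      obtain ⟨⟨c, x⟩, hcx, hmin⟩ := exists_min_image _
        (fun p : V × V => (cpt G (univ.erase p.1) p.2).card) hex
      simp only [mem_filter, mem_univ, true_and] at hcx hmin
      obtain ⟨hxc, hcn⟩ := hcx
      have hxE : x ∈ univ.erase c := mem_erase.2 ⟨hxc, mem_univ _⟩
      set D := cpt G (univ.erase c) x with hD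
      have hDc : Cn G D := cn_cpt hxE
      have hcD : c ∉ D := fun h => notMem_erase c univ (cpt_subset h)
      have hDne : ∃ y, y ≠ c ∧ y ∉ D := by
        by_contra hcon
        push Not at hcon
        apply hcn
        apply cn_of_cpt_eq hxE
        apply subset_antisymm cpt_subset
        intro y hy
        exact hcon y (mem_erase.1 hy).1
      have hnb : ∀ a ∈ D, ∀ b, b ∉ D → G.Adj a b → b = c := by
        intro a ha b hb hab
        by_contra hbc
        exact not_adj_cpt hxE ha (mem_erase.2 ⟨hbc, mem_univ _⟩) hb hab
      have hcD' : Tc G {c} D := by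
        obtain ⟨a, ha, b, hb, hab⟩ := hc.2 D (subset_univ _) hDc.1 ⟨c, by simp [hcD]⟩
        have := hnb a ha b (mem_sdiff.1 hb).2 hab
        subst this
        exact ⟨b, by simp, a, ha, hab.symm⟩
      have hR1 : Cn G (D ∪ {c}) := hDc.union (Cn.singleton c) (Or.inl hcD'.symm)
      have hR2 : Cn G (univ \ D) := by
        have hcU : c ∈ univ \ D := by simp [hcD]
        apply cn_of_cpt_eq hcU
        apply subset_antisymm cpt_subset
        intro y hy
        by_contra hyc
        -- the component of y in `univ \ D` avoids c
        have hyU : y ∈ univ \ D := hy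
        have hc' : c ∉ cpt G (univ \ D) y := by
          intro h
          apply hyc
          have := cpt_eq_of_mem hyU h
          rw [this]; exact mem_cpt_self hyU
        obtain ⟨a, ha, b, hb, hab⟩ := hc.2 (cpt G (univ \ D) y) (subset_univ _)
          ⟨y, mem_cpt_self hyU⟩ ⟨c, by simp [hc']⟩
        have hbc := (mem_sdiff.1 hb).2
        by_cases hbD : b ∈ D
        · have haD : a ∉ D := by
            have := cpt_subset (G := G) ha
            simpa using this
          have := hnb b hbD a haD hab.symm
          subst this; exact hc' ha
        · exact not_adj_cpt hyU ha (by simp [hbD]) hbc hab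
      have hsep : Sep G (D ∪ {c}) (univ \ D) c := by
        refine ⟨fun y => ?_, by simp, by simp [hcD], fun y h1 h2 => ?_, fun a ha b hb hab => ?_⟩
        · simp only [mem_union, mem_singleton, mem_sdiff, mem_univ, true_and]; tauto
        · simp only [mem_union, mem_singleton, mem_sdiff, mem_univ, true_and] at h1 h2; tauto
        · simp only [mem_union, mem_singleton, mem_sdiff, mem_univ, true_and] at ha hb
          rcases ha with ha | ha
          · right; exact hnb a ha b hb hab
          · left; exact ha
      have hcardR2 : (univ \ D).card ≤ n := by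
        have : (univ \ D).card < (univ : Finset V).card := card_lt_card (by
          refine ⟨sdiff_subset, fun h => ?_⟩
          obtain ⟨d, hd⟩ := hDc.1
          exact (mem_sdiff.1 (h (mem_univ d))).2 hd)
        rw [card_univ] at this; omega
      have dtR2 : DT G (K + 1) (univ \ D) (univ \ D) := by
        have := ih (Sub (univ \ D)) (G.comap (emb _)) (by
          rw [card_sub]; exact hcardR2) (by
            apply Cn.comap; rw [map_univ_sub]; exact hR2)
          (hP _ _ _ hT)
        have := this.map
        rwa [map_univ_sub] at this
      have dtR1 : DT G K (D ∪ {c}) (D ∪ {c}) := by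
        by_cases hD1 : D.card ≤ 1
        · obtain ⟨d, hd⟩ := card_eq_one.1 (le_antisymm hD1 (card_pos.2 hDc.1))
          rw [hd]
          refine DT.node ?_ (DT.leaf d) (DT.leaf c) ?_
          · rw [disjoint_singleton]
            rintro rfl; exact hcD (by rw [hd]; simp)
          · rw [nt_closed]
            · exact Nat.zero_le _
            · intro a _ z hz hz' _
              exact hz' hz
        · have hTwo : TwoConn (G.comap (emb (D ∪ {c}))) := by
            refine ⟨?_, ?_, ?_⟩
            · rw [card_sub, card_union_of_disjoint (by simpa using hcD)]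
              simp; omega
            · apply Cn.comap; rw [map_univ_sub]; exact hR1
            · intro v'
              obtain ⟨v, hv, rfl⟩ : ∃ (v : V) (hv : v ∈ D ∪ {c}), v' = mkS v hv :=
                ⟨emb _ v', emb_mem v', rfl⟩
              apply Cn.comap
              have e : ((univ : Finset (Sub (D ∪ {c}))).erase (mkS v hv)).map
                  (emb (D ∪ {c})) = (D ∪ {c}).erase v := by
                ext z
                rw [mem_map, mem_erase]
                constructor
                · rintro ⟨u, h1, rfl⟩
                  rw [mem_erase] at h1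
                  exact ⟨fun h => h1.1 (Subtype.ext h), emb_mem u⟩
                · rintro ⟨h1, h2⟩
                  refine ⟨mkS z h2, ?_, rfl⟩
                  rw [mem_erase]
                  exact ⟨fun h => h1 (congrArg (emb _) h), mem_univ _⟩
              rw [e]
              by_cases hvc : v = c
              · subst hvc
                have : (D ∪ {v}).erase v = D := by
                  ext z; simp only [mem_erase, mem_union, mem_singleton]
                  constructor
                  · tauto
                  · intro hz; exact ⟨by rintro rfl; exact hcD hz, Or.inl hz⟩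
                rw [this]; exact hDc
              · have hvD : v ∈ D := by
                  rcases mem_union.1 hv with h | h
                  · exact h
                  · exact absurd (mem_singleton.1 h) hvc
                have hcR : c ∈ (D ∪ {c}).erase v := mem_erase.2 ⟨Ne.symm hvc, by simp⟩
                apply cn_of_cpt_eq hcR
                apply subset_antisymm cpt_subset
                intro y hy
                by_contra hyc
                have hc' : c ∉ cpt G ((D ∪ {c}).erase v) y := by
                  intro h
                  apply hyc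
                  have := cpt_eq_of_mem hy h
                  rw [this]; exact mem_cpt_self hy
                set D' := cpt G ((D ∪ {c}).erase v) y with hD'
                have hyv : y ≠ v := (mem_erase.1 hy).1
                have hD'sub : D' ⊆ D.erase v := by
                  intro z hz
                  have h1 := mem_erase.1 (cpt_subset hz)
                  refine mem_erase.2 ⟨h1.1, ?_⟩
                  rcases mem_union.1 h1.2 with h | h
                  · exact h
                  · rw [mem_singleton] at h; subst h; exact absurd hz hc'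
                have hclosed : cpt G (univ.erase v) y ⊆ D' := by
                  by_contra hns
                  have hyE : y ∈ univ.erase v := mem_erase.2 ⟨hyv, mem_univ _⟩
                  have hDs : D' ⊆ cpt G (univ.erase v) y := by
                    apply subset_cpt _ (cn_cpt hy) (mem_cpt_self hy)
                    intro z hz
                    exact mem_erase.2 ⟨(mem_erase.1 (hD'sub hz)).1, mem_univ _⟩
                  obtain ⟨a, ha, b, hb, hab⟩ := (cn_cpt hyE).2 D' hDs ⟨y, mem_cpt_self hy⟩ (by
                    rw [sdiff_nonempty]; exact hns)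
                  obtain ⟨hb1, hb2⟩ := mem_sdiff.1 hb
                  have hbv : b ≠ v := (mem_erase.1 (cpt_subset hb1)).1
                  have haD := (mem_erase.1 (hD'sub ha)).2
                  have hbR : b ∈ D ∪ {c} := by
                    by_cases hbD : b ∈ D
                    · exact mem_union_left _ hbD
                    · have := hnb a haD b hbD hab
                      subst this; simp
                  exact not_adj_cpt hy ha (mem_erase.2 ⟨hbv, hbR⟩) hb2 hab
                have := hmin (v, y) ⟨hyv, fun hcnv => by
                  have hyE : y ∈ univ.erase v := mem_erase.2 ⟨hyv, mem_univ _⟩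
                  have h5 := hcnv.cpt_eq hyE
                  have h6 : c ∈ cpt G (univ.erase v) y := by
                    rw [h5]; exact mem_erase.2 ⟨Ne.symm hvc, mem_univ _⟩
                  exact hc' (hclosed h6)⟩
                simp only at this
                have h7 := (card_le_card hclosed).trans (card_le_card hD'sub)
                have h8 : (D.erase v).card < D.card := by
                  rw [card_erase_of_mem hvD]
                  have := card_pos.2 ⟨v, hvD⟩
                  omega
                omega
          have := (h2 _ _ hTwo (hP _ _ _ hT)).map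
          rwa [map_univ_sub] at this
      have h5 := hsep.dt2 (hsep.dt1 dtR1) dtR2 (Subset.refl _)
      rw [if_pos (by simp [hcD])] at h5
      have e : univ \ D ∪ (D ∪ {c}) = (univ : Finset V) := by
        ext z; simp only [mem_union, mem_sdiff, mem_univ, true_and, mem_singleton, iff_true]; tauto
      rwa [e] at h5
    · -- at most two vertices
      by_cases h1 : Fintype.card V ≤ 1
      · have : (univ : Finset V) = {x0} := by
          apply (Finset.eq_singleton_iff_unique_mem).2 ⟨mem_univ _, fun y _ => ?_⟩
          exact Fintype.card_le_one_iff.1 h1 y x0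
        rw [this]; exact DT.leaf x0
      · have h22 : (univ : Finset V).card = 2 := by rw [card_univ]; omega
        obtain ⟨a, b, hab, he⟩ := card_eq_two.1 h22
        have e : (univ : Finset V) = {a} ∪ {b} := by rw [he]; rfl
        have : DT G (K + 1) univ ({a} ∪ {b}) := by
          refine DT.node (by simpa using hab) (DT.leaf a) (DT.leaf b) ?_
          rw [← e, nt_closed]
          · exact Nat.zero_le _
          · intro a _ z hz hz' _
            exact hz' hz
        rw [← e] at this; exact this


/-- Reduction to connected graphs. -/
theorem dt_of_conn (P : ∀ V : Type, SimpleGraph V → Prop)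
    (hP : ∀ (V : Type) (G : SimpleGraph V) (R : Finset V), P V G → P (H175R2.Sub R) (G.comap (emb R)))
    (K : ℕ)
    (h2 : ∀ (V : Type) [Fintype V] (G : SimpleGraph V), Cn G univ → P V G → DT G K univ univ)
    {V : Type} [Fintype V] [Nonempty V] (G : SimpleGraph V) (hG : P V G) : DT G K univ univ := by
  apply dt_of_components univ_nonempty
  intro x hx
  have h1 : DT G K (cpt G univ x) (cpt G univ x) := by
    have := (h2 (H175R2.Sub (cpt G univ x)) (G.comap (emb _)) (by
      apply Cn.comap; rw [map_univ_sub]; exact cn_cpt hx) (hP _ _ _ hG)).map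
    rwa [map_univ_sub] at this
  refine h1.transfer fun B hB hn => ?_
  have : nt G univ B = nt G (cpt G univ x) B := by
    unfold nt
    congr 2
    apply image_congr
    intro y hy
    ext z
    simp only [mem_on]
    constructor
    · rintro ⟨⟨h1, h2⟩, h3⟩
      refine ⟨⟨?_, h2⟩, h3⟩
      by_contra hz
      exact not_adj_cpt hx (hB hy) h1 hz h3
    · rintro ⟨⟨h1, h2⟩, h3⟩
      exact ⟨⟨cpt_subset h1, h2⟩, h3⟩
  rw [this]; exact hn

theorem IC.up {V : Type} {G : SimpleGraph V} {R : Finset V} {n : ℕ} {c : ℕ → H175R2.Sub R}
    (h : IC (G.comap (emb R)) n c) : IC G n (fun i => emb R (c i)) :=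
  ⟨h.three, fun i j hi hj hij => h.inj i j hi hj ((emb R).injective hij),
    fun i j hij hj => h.adj i j hij hj⟩

theorem pw_up {V : Type} {G : SimpleGraph V} {R : Finset V} (h : PW (G.comap (emb R))) : PW G := by
  obtain ⟨n, c, p, h1, h2, h3, h4⟩ := h
  exact ⟨n, fun i => emb R (c i), emb R p, h1.up,
    fun i hi he => h2 i hi ((emb R).injective he), h3, h4⟩

theorem th_up {V : Type} {G : SimpleGraph V} {R : Finset V} (h : TH (G.comap (emb R))) : TH G := by
  obtain ⟨n, c, j, m, q, h1, h2, h3, h4, h5, h6⟩ := h
  exact ⟨n, fun i => emb R (c i), j, m, fun i => emb R (q i), h1.up, h2, h3,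
    fun k hk i hi he => h4 k hk i hi ((emb R).injective he),
    fun k l hkl hl => ⟨fun he => (h5 k l hkl hl).1 ((emb R).injective he), (h5 k l hkl hl).2⟩,
    h6⟩

theorem cw_empty {V : Type} [IsEmpty V] (G : SimpleGraph V) : cliqueWidth G = 0 := by
  have h : {k | CwLE G k} = ∅ := by
    ext k
    simp only [Set.mem_ofPred_eq, Set.mem_empty_iff_false, iff_false]
    rintro ⟨W, G', l, hb, ⟨e⟩⟩
    have : Nonempty W := by
      clear e
      induction hb with
      | single i => exact ⟨()⟩
      | union V W G H l m _ _ ih1 ih2 => exact ⟨Sum.inl ih1.some⟩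
      | join V G l i j _ _ ih => exact ih
      | relabel V G l i j _ ih => exact ih
    exact IsEmpty.false (e.symm this.some)
  unfold cliqueWidth
  rw [h]
  exact Nat.sInf_empty

theorem bdd_of_conn {W : Type} (H : SimpleGraph W) (P : ∀ V : Type, SimpleGraph V → Prop)
    (hP : ∀ (V : Type) (G : SimpleGraph V) (R : Finset V), P V G → P (H175R2.Sub R) (G.comap (emb R)))
    (K : ℕ)
    (h2 : ∀ (V : Type) [Fintype V] (G : SimpleGraph V), TwoConn G → P V G → DT G K univ univ)
    (h3 : ∀ (V : Type) (G : SimpleGraph V), ¬ IsInducedTopologicalMinor H G → P V G) : Bdd H := by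
  refine ⟨3 * (K + 1 + 1), fun V _ G hG => ?_⟩
  cases nonempty_fintype V
  rcases isEmpty_or_nonempty V with hV | hV
  · rw [cw_empty]; exact Nat.zero_le _
  · apply cliqueWidth_le_of_dt
    refine dt_of_conn P hP (K + 1) ?_ G (h3 V G hG)
    intro V _ G hc hPG
    exact dt_of_blocks' P hP K h2 _ V G le_rfl hc hPG

theorem bdd_paw : Bdd paw :=
  bdd_of_conn paw (fun _ G => ¬ PW G) (fun _ _ _ h h' => h (pw_up h')) 2
    (fun _ _ _ h2 hG => paw_two hG h2) (fun _ _ h h' => h (itm_of_PW h'))

theorem bdd_diamond : Bdd diamond :=
  bdd_of_conn diamond (fun _ G => ¬ TH G) (fun _ _ _ h h' => h (th_up h')) 2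
    (fun _ _ _ h2 hG => dia_two hG h2) (fun _ _ h h' => h (itm_of_TH h'))

theorem bdd_P4 : Bdd (SimpleGraph.pathGraph 4) := by
  refine ⟨3 * (1 + 1), fun V _ G hG => ?_⟩
  cases nonempty_fintype V
  rcases isEmpty_or_nonempty V with hV | hV
  · rw [cw_empty]; exact Nat.zero_le _
  · apply cliqueWidth_le_of_dt
    refine dt_cograph _ univ univ le_rfl univ_nonempty (Subset.refl _) ?_ ?_
    · intro a _ b _ c _ d _ hac had hbd hab hbc hcd
      by_contra hcon
      push Not at hcon
      obtain ⟨h1, h2, h3⟩ := hcon
      apply hG
      have hinj : Function.Injective ![a, b, c, d] := by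
        intro x y hxy
        fin_cases x <;> fin_cases y <;>
          simp_all [hab.ne, hbc.ne, hcd.ne, hab.ne', hbc.ne', hcd.ne', hac.symm, had.symm,
            hbd.symm]
      have hadj : ∀ x y : Fin 4, G.Adj (![a, b, c, d] x) (![a, b, c, d] y) ↔
          (SimpleGraph.pathGraph 4).Adj x y := by
        intro x y
        rw [adj_P4]
        fin_cases x <;> fin_cases y <;>
          simp [tP4, hab, hbc, hcd, h1, h2, h3, hab.symm, hbc.symm, hcd.symm, G.adj_comm c a,
            G.adj_comm d a, G.adj_comm d b]
      have f : (SimpleGraph.pathGraph 4) ↪g G := ⟨⟨_, hinj⟩, fun {x y} => hadj x y⟩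
      exact itm_of_emb f
    · intro x _ y _ z _ hz
      exact absurd (mem_univ z) hz

theorem Bdd.of_sub {W W' : Type} {H : SimpleGraph W} {H' : SimpleGraph W'} (h : Bdd H)
    (φ : H' ↪g H) : Bdd H' := by
  obtain ⟨c, hc⟩ := h
  exact ⟨c, fun V _ G hG => hc V G fun h' => hG (h'.sub φ)⟩

theorem bdd_iff {W : Type} [Finite W] (H : SimpleGraph W) :
    Bdd H ↔ H ⊴ SimpleGraph.pathGraph 4 ∨ H ⊴ paw ∨ H ⊴ diamond := by
  constructor
  · exact necessity'
  · rintro (⟨⟨φ⟩⟩ | ⟨⟨φ⟩⟩ | ⟨⟨φ⟩⟩)
    · exact bdd_P4.of_sub φ
    · exact bdd_paw.of_sub φ
    · exact bdd_diamond.of_sub φ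

end Pool.Agent.K6.H4.Itm
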