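import Pool.Agent.K6.H4.ItmExcl
import Pool.Agent.H175R2.Defs

/-! Classification of the small graphs. -/

set_option autoImplicit false

namespace Pool.Agent.K6.H4.Itm

open SimpleGraph Pool.Agent.H175R2

/-- the necessary conditions -/
structure Cst {W : Type} (H : SimpleGraph W) : Prop where
  al : ∀ x y z : W, x ≠ y → x ≠ z → y ≠ z → H.Adj x y ∨ H.Adj x z ∨ H.Adj y z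
  kk : ∀ x y z w : W, H.Adj x y → H.Adj z w → (x ≠ z ∧ ¬ H.Adj x z) → (x ≠ w ∧ ¬ H.Adj x w) →
    (y ≠ z ∧ ¬ H.Adj y z) → (y ≠ w ∧ ¬ H.Adj y w) → False
  cy : ∀ u v v' w z z' : W, H.Adj u v → H.Adj u v' → v ≠ v' → ¬ H.Adj v v' → H.Adj w z →
    H.Adj w z' → z ≠ z' → ¬ H.Adj z z' → u ≠ w → H.Adj u w
  k31 : ∀ u v w z : W, H.Adj u v → H.Adj u w → H.Adj v w → (z ≠ u ∧ ¬ H.Adj z u) →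
    (z ≠ v ∧ ¬ H.Adj z v) → (z ≠ w ∧ ¬ H.Adj z w) → False
  k4 : ∀ u v w z : W, H.Adj u v → H.Adj u w → H.Adj u z → H.Adj v w → H.Adj v z →
    H.Adj w z → False
  dg : ∀ u v1 v2 v3 v4 : W, H.Adj u v1 → H.Adj u v2 → H.Adj u v3 → H.Adj u v4 → v1 ≠ v2 →
    v1 ≠ v3 → v1 ≠ v4 → v2 ≠ v3 → v2 ≠ v4 → v3 ≠ v4 → False

variable {W : Type} {H : SimpleGraph W}

theorem Cst.c4 (hC : Cst H) (a b c d : W) (h1 : H.Adj a b) (h2 : H.Adj b c) (h3 : H.Adj c d)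
    (h4 : H.Adj d a) (h5 : a ≠ c) (h6 : b ≠ d) (h7 : ¬ H.Adj a c) (h8 : ¬ H.Adj b d) : False :=
  h7 (hC.cy a b d c b d h1 h4.symm h6 h8 h2.symm h3 h6 h8 h5)

theorem Cst.c5 (hC : Cst H) (a b c d e : W) (h1 : H.Adj a b) (h2 : H.Adj b c) (h3 : H.Adj c d)
    (h4 : H.Adj d e) (h5 : H.Adj e a) (n1 : a ≠ c) (n2 : b ≠ d) (_ : c ≠ e) (_ : d ≠ a)
    (n5 : e ≠ b) (g1 : ¬ H.Adj a c) (g2 : ¬ H.Adj b d) (_ : ¬ H.Adj c e) (_ : ¬ H.Adj d a)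
    (g5 : ¬ H.Adj e b) : False :=
  g1 (hC.cy a b e c b d h1 h5.symm n5.symm (fun h => g5 h.symm) h2.symm h3 n2 g2 n1)

set_option maxHeartbeats 4000000 in
theorem no5 (hC : Cst H) (x0 x1 x2 x3 x4 : W) (n01 : x0 ≠ x1) (n02 : x0 ≠ x2) (n03 : x0 ≠ x3)
    (n04 : x0 ≠ x4) (n12 : x1 ≠ x2) (n13 : x1 ≠ x3) (n14 : x1 ≠ x4) (n23 : x2 ≠ x3)
    (n24 : x2 ≠ x4) (n34 : x3 ≠ x4) : False := by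
  have k1 : H.Adj x0 x1 ∨ H.Adj x0 x2 ∨ H.Adj x1 x2 := hC.al x0 x1 x2 n01 n02 n12
  have k2 : H.Adj x0 x1 ∨ H.Adj x0 x3 ∨ H.Adj x1 x3 := hC.al x0 x1 x3 n01 n03 n13
  have k3 : H.Adj x0 x1 ∨ H.Adj x0 x4 ∨ H.Adj x1 x4 := hC.al x0 x1 x4 n01 n04 n14
  have k4 : H.Adj x0 x2 ∨ H.Adj x0 x3 ∨ H.Adj x2 x3 := hC.al x0 x2 x3 n02 n03 n23
  have k5 : H.Adj x0 x2 ∨ H.Adj x0 x4 ∨ H.Adj x2 x4 := hC.al x0 x2 x4 n02 n04 n24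
  have k6 : H.Adj x0 x3 ∨ H.Adj x0 x4 ∨ H.Adj x3 x4 := hC.al x0 x3 x4 n03 n04 n34
  have k7 : H.Adj x1 x2 ∨ H.Adj x1 x3 ∨ H.Adj x2 x3 := hC.al x1 x2 x3 n12 n13 n23
  have k8 : H.Adj x1 x2 ∨ H.Adj x1 x4 ∨ H.Adj x2 x4 := hC.al x1 x2 x4 n12 n14 n24
  have k9 : H.Adj x1 x3 ∨ H.Adj x1 x4 ∨ H.Adj x3 x4 := hC.al x1 x3 x4 n13 n14 n34
  have k10 : H.Adj x2 x3 ∨ H.Adj x2 x4 ∨ H.Adj x3 x4 := hC.al x2 x3 x4 n23 n24 n34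
  have k11 : H.Adj x0 x1 → H.Adj x0 x2 → H.Adj x0 x3 → H.Adj x1 x2 → H.Adj x1 x3 → H.Adj x2 x3 → False := hC.k4 x0 x1 x2 x3
  have k12 : H.Adj x0 x1 → H.Adj x0 x2 → H.Adj x0 x4 → H.Adj x1 x2 → H.Adj x1 x4 → H.Adj x2 x4 → False := hC.k4 x0 x1 x2 x4
  have k13 : H.Adj x0 x1 → H.Adj x0 x3 → H.Adj x0 x4 → H.Adj x1 x3 → H.Adj x1 x4 → H.Adj x3 x4 → False := hC.k4 x0 x1 x3 x4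
  have k14 : H.Adj x0 x2 → H.Adj x0 x3 → H.Adj x0 x4 → H.Adj x2 x3 → H.Adj x2 x4 → H.Adj x3 x4 → False := hC.k4 x0 x2 x3 x4
  have k15 : H.Adj x1 x2 → H.Adj x1 x3 → H.Adj x1 x4 → H.Adj x2 x3 → H.Adj x2 x4 → H.Adj x3 x4 → False := hC.k4 x1 x2 x3 x4
  have k16 : H.Adj x0 x1 → H.Adj x0 x2 → H.Adj x1 x2 → ¬ H.Adj x0 x3 → ¬ H.Adj x1 x3 → ¬ H.Adj x2 x3 → False := fun h1 h2 h3 q0 q1 q2 => hC.k31 x0 x1 x2 x3 h1 h2 h3 ⟨n03.symm, (fun h => q0 h.symm)⟩ ⟨n13.symm, (fun h => q1 h.symm)⟩ ⟨n23.symm, (fun h => q2 h.symm)⟩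
  have k17 : H.Adj x0 x1 → H.Adj x0 x2 → H.Adj x1 x2 → ¬ H.Adj x0 x4 → ¬ H.Adj x1 x4 → ¬ H.Adj x2 x4 → False := fun h1 h2 h3 q0 q1 q2 => hC.k31 x0 x1 x2 x4 h1 h2 h3 ⟨n04.symm, (fun h => q0 h.symm)⟩ ⟨n14.symm, (fun h => q1 h.symm)⟩ ⟨n24.symm, (fun h => q2 h.symm)⟩
  have k18 : H.Adj x0 x1 → H.Adj x0 x3 → H.Adj x1 x3 → ¬ H.Adj x0 x2 → ¬ H.Adj x1 x2 → ¬ H.Adj x2 x3 → False := fun h1 h2 h3 q0 q1 q3 => hC.k31 x0 x1 x3 x2 h1 h2 h3 ⟨n02.symm, (fun h => q0 h.symm)⟩ ⟨n12.symm, (fun h => q1 h.symm)⟩ ⟨n23, q3⟩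
  have k19 : H.Adj x0 x1 → H.Adj x0 x3 → H.Adj x1 x3 → ¬ H.Adj x0 x4 → ¬ H.Adj x1 x4 → ¬ H.Adj x3 x4 → False := fun h1 h2 h3 q0 q1 q3 => hC.k31 x0 x1 x3 x4 h1 h2 h3 ⟨n04.symm, (fun h => q0 h.symm)⟩ ⟨n14.symm, (fun h => q1 h.symm)⟩ ⟨n34.symm, (fun h => q3 h.symm)⟩
  have k20 : H.Adj x0 x1 → H.Adj x0 x4 → H.Adj x1 x4 → ¬ H.Adj x0 x2 → ¬ H.Adj x1 x2 → ¬ H.Adj x2 x4 → False := fun h1 h2 h3 q0 q1 q4 => hC.k31 x0 x1 x4 x2 h1 h2 h3 ⟨n02.symm, (fun h => q0 h.symm)⟩ ⟨n12.symm, (fun h => q1 h.symm)⟩ ⟨n24, q4⟩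
  have k21 : H.Adj x0 x1 → H.Adj x0 x4 → H.Adj x1 x4 → ¬ H.Adj x0 x3 → ¬ H.Adj x1 x3 → ¬ H.Adj x3 x4 → False := fun h1 h2 h3 q0 q1 q4 => hC.k31 x0 x1 x4 x3 h1 h2 h3 ⟨n03.symm, (fun h => q0 h.symm)⟩ ⟨n13.symm, (fun h => q1 h.symm)⟩ ⟨n34, q4⟩
  have k22 : H.Adj x0 x2 → H.Adj x0 x3 → H.Adj x2 x3 → ¬ H.Adj x0 x1 → ¬ H.Adj x1 x2 → ¬ H.Adj x1 x3 → False := fun h1 h2 h3 q0 q2 q3 => hC.k31 x0 x2 x3 x1 h1 h2 h3 ⟨n01.symm, (fun h => q0 h.symm)⟩ ⟨n12, q2⟩ ⟨n13, q3⟩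
  have k23 : H.Adj x0 x2 → H.Adj x0 x3 → H.Adj x2 x3 → ¬ H.Adj x0 x4 → ¬ H.Adj x2 x4 → ¬ H.Adj x3 x4 → False := fun h1 h2 h3 q0 q2 q3 => hC.k31 x0 x2 x3 x4 h1 h2 h3 ⟨n04.symm, (fun h => q0 h.symm)⟩ ⟨n24.symm, (fun h => q2 h.symm)⟩ ⟨n34.symm, (fun h => q3 h.symm)⟩
  have k24 : H.Adj x0 x2 → H.Adj x0 x4 → H.Adj x2 x4 → ¬ H.Adj x0 x1 → ¬ H.Adj x1 x2 → ¬ H.Adj x1 x4 → False := fun h1 h2 h3 q0 q2 q4 => hC.k31 x0 x2 x4 x1 h1 h2 h3 ⟨n01.symm, (fun h => q0 h.symm)⟩ ⟨n12, q2⟩ ⟨n14, q4⟩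
  have k25 : H.Adj x0 x2 → H.Adj x0 x4 → H.Adj x2 x4 → ¬ H.Adj x0 x3 → ¬ H.Adj x2 x3 → ¬ H.Adj x3 x4 → False := fun h1 h2 h3 q0 q2 q4 => hC.k31 x0 x2 x4 x3 h1 h2 h3 ⟨n03.symm, (fun h => q0 h.symm)⟩ ⟨n23.symm, (fun h => q2 h.symm)⟩ ⟨n34, q4⟩
  have k26 : H.Adj x0 x3 → H.Adj x0 x4 → H.Adj x3 x4 → ¬ H.Adj x0 x1 → ¬ H.Adj x1 x3 → ¬ H.Adj x1 x4 → False := fun h1 h2 h3 q0 q3 q4 => hC.k31 x0 x3 x4 x1 h1 h2 h3 ⟨n01.symm, (fun h => q0 h.symm)⟩ ⟨n13, q3⟩ ⟨n14, q4⟩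
  have k27 : H.Adj x0 x3 → H.Adj x0 x4 → H.Adj x3 x4 → ¬ H.Adj x0 x2 → ¬ H.Adj x2 x3 → ¬ H.Adj x2 x4 → False := fun h1 h2 h3 q0 q3 q4 => hC.k31 x0 x3 x4 x2 h1 h2 h3 ⟨n02.symm, (fun h => q0 h.symm)⟩ ⟨n23, q3⟩ ⟨n24, q4⟩
  have k28 : H.Adj x1 x2 → H.Adj x1 x3 → H.Adj x2 x3 → ¬ H.Adj x0 x1 → ¬ H.Adj x0 x2 → ¬ H.Adj x0 x3 → False := fun h1 h2 h3 q1 q2 q3 => hC.k31 x1 x2 x3 x0 h1 h2 h3 ⟨n01, q1⟩ ⟨n02, q2⟩ ⟨n03, q3⟩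
  have k29 : H.Adj x1 x2 → H.Adj x1 x3 → H.Adj x2 x3 → ¬ H.Adj x1 x4 → ¬ H.Adj x2 x4 → ¬ H.Adj x3 x4 → False := fun h1 h2 h3 q1 q2 q3 => hC.k31 x1 x2 x3 x4 h1 h2 h3 ⟨n14.symm, (fun h => q1 h.symm)⟩ ⟨n24.symm, (fun h => q2 h.symm)⟩ ⟨n34.symm, (fun h => q3 h.symm)⟩
  have k30 : H.Adj x1 x2 → H.Adj x1 x4 → H.Adj x2 x4 → ¬ H.Adj x0 x1 → ¬ H.Adj x0 x2 → ¬ H.Adj x0 x4 → False := fun h1 h2 h3 q1 q2 q4 => hC.k31 x1 x2 x4 x0 h1 h2 h3 ⟨n01, q1⟩ ⟨n02, q2⟩ ⟨n04, q4⟩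
  have k31 : H.Adj x1 x2 → H.Adj x1 x4 → H.Adj x2 x4 → ¬ H.Adj x1 x3 → ¬ H.Adj x2 x3 → ¬ H.Adj x3 x4 → False := fun h1 h2 h3 q1 q2 q4 => hC.k31 x1 x2 x4 x3 h1 h2 h3 ⟨n13.symm, (fun h => q1 h.symm)⟩ ⟨n23.symm, (fun h => q2 h.symm)⟩ ⟨n34, q4⟩
  have k32 : H.Adj x1 x3 → H.Adj x1 x4 → H.Adj x3 x4 → ¬ H.Adj x0 x1 → ¬ H.Adj x0 x3 → ¬ H.Adj x0 x4 → False := fun h1 h2 h3 q1 q3 q4 => hC.k31 x1 x3 x4 x0 h1 h2 h3 ⟨n01, q1⟩ ⟨n03, q3⟩ ⟨n04, q4⟩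
  have k33 : H.Adj x1 x3 → H.Adj x1 x4 → H.Adj x3 x4 → ¬ H.Adj x1 x2 → ¬ H.Adj x2 x3 → ¬ H.Adj x2 x4 → False := fun h1 h2 h3 q1 q3 q4 => hC.k31 x1 x3 x4 x2 h1 h2 h3 ⟨n12.symm, (fun h => q1 h.symm)⟩ ⟨n23, q3⟩ ⟨n24, q4⟩
  have k34 : H.Adj x2 x3 → H.Adj x2 x4 → H.Adj x3 x4 → ¬ H.Adj x0 x2 → ¬ H.Adj x0 x3 → ¬ H.Adj x0 x4 → False := fun h1 h2 h3 q2 q3 q4 => hC.k31 x2 x3 x4 x0 h1 h2 h3 ⟨n02, q2⟩ ⟨n03, q3⟩ ⟨n04, q4⟩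
  have k35 : H.Adj x2 x3 → H.Adj x2 x4 → H.Adj x3 x4 → ¬ H.Adj x1 x2 → ¬ H.Adj x1 x3 → ¬ H.Adj x1 x4 → False := fun h1 h2 h3 q2 q3 q4 => hC.k31 x2 x3 x4 x1 h1 h2 h3 ⟨n12, q2⟩ ⟨n13, q3⟩ ⟨n14, q4⟩
  have k36 : H.Adj x0 x1 → H.Adj x0 x2 → H.Adj x0 x3 → H.Adj x0 x4 → False := fun h1 h2 h3 h4 => hC.dg x0 x1 x2 x3 x4 h1 h2 h3 h4 n12 n13 n14 n23 n24 n34
  have k37 : H.Adj x0 x1 → H.Adj x1 x2 → H.Adj x1 x3 → H.Adj x1 x4 → False := fun h1 h2 h3 h4 => hC.dg x1 x0 x2 x3 x4 h1.symm h2 h3 h4 n02 n03 n04 n23 n24 n34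
  have k38 : H.Adj x0 x2 → H.Adj x1 x2 → H.Adj x2 x3 → H.Adj x2 x4 → False := fun h1 h2 h3 h4 => hC.dg x2 x0 x1 x3 x4 h1.symm h2.symm h3 h4 n01 n03 n04 n13 n14 n34
  have k39 : H.Adj x0 x3 → H.Adj x1 x3 → H.Adj x2 x3 → H.Adj x3 x4 → False := fun h1 h2 h3 h4 => hC.dg x3 x0 x1 x2 x4 h1.symm h2.symm h3.symm h4 n01 n02 n04 n12 n14 n24
  have k40 : H.Adj x0 x4 → H.Adj x1 x4 → H.Adj x2 x4 → H.Adj x3 x4 → False := fun h1 h2 h3 h4 => hC.dg x4 x0 x1 x2 x3 h1.symm h2.symm h3.symm h4.symm n01 n02 n03 n12 n13 n23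
  have k41 : H.Adj x0 x2 → H.Adj x1 x2 → H.Adj x1 x3 → H.Adj x0 x3 → ¬ H.Adj x0 x1 → ¬ H.Adj x2 x3 → False := fun h1 h2 h3 h4 h5 h6 => hC.c4 x0 x2 x1 x3 h1 h2.symm h3 h4.symm n01 n23 h5 h6
  have k42 : H.Adj x0 x1 → H.Adj x1 x2 → H.Adj x2 x3 → H.Adj x0 x3 → ¬ H.Adj x0 x2 → ¬ H.Adj x1 x3 → False := fun h1 h2 h3 h4 h5 h6 => hC.c4 x0 x1 x2 x3 h1 h2 h3 h4.symm n02 n13 h5 h6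
  have k43 : H.Adj x0 x1 → H.Adj x1 x3 → H.Adj x2 x3 → H.Adj x0 x2 → ¬ H.Adj x0 x3 → ¬ H.Adj x1 x2 → False := fun h1 h2 h3 h4 h5 h6 => hC.c4 x0 x1 x3 x2 h1 h2 h3.symm h4.symm n03 n12 h5 h6
  have k44 : H.Adj x0 x2 → H.Adj x1 x2 → H.Adj x1 x4 → H.Adj x0 x4 → ¬ H.Adj x0 x1 → ¬ H.Adj x2 x4 → False := fun h1 h2 h3 h4 h5 h6 => hC.c4 x0 x2 x1 x4 h1 h2.symm h3 h4.symm n01 n24 h5 h6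
  have k45 : H.Adj x0 x1 → H.Adj x1 x2 → H.Adj x2 x4 → H.Adj x0 x4 → ¬ H.Adj x0 x2 → ¬ H.Adj x1 x4 → False := fun h1 h2 h3 h4 h5 h6 => hC.c4 x0 x1 x2 x4 h1 h2 h3 h4.symm n02 n14 h5 h6
  have k46 : H.Adj x0 x1 → H.Adj x1 x4 → H.Adj x2 x4 → H.Adj x0 x2 → ¬ H.Adj x0 x4 → ¬ H.Adj x1 x2 → False := fun h1 h2 h3 h4 h5 h6 => hC.c4 x0 x1 x4 x2 h1 h2 h3.symm h4.symm n04 n12 h5 h6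
  have k47 : H.Adj x0 x3 → H.Adj x1 x3 → H.Adj x1 x4 → H.Adj x0 x4 → ¬ H.Adj x0 x1 → ¬ H.Adj x3 x4 → False := fun h1 h2 h3 h4 h5 h6 => hC.c4 x0 x3 x1 x4 h1 h2.symm h3 h4.symm n01 n34 h5 h6
  have k48 : H.Adj x0 x1 → H.Adj x1 x3 → H.Adj x3 x4 → H.Adj x0 x4 → ¬ H.Adj x0 x3 → ¬ H.Adj x1 x4 → False := fun h1 h2 h3 h4 h5 h6 => hC.c4 x0 x1 x3 x4 h1 h2 h3 h4.symm n03 n14 h5 h6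
  have k49 : H.Adj x0 x1 → H.Adj x1 x4 → H.Adj x3 x4 → H.Adj x0 x3 → ¬ H.Adj x0 x4 → ¬ H.Adj x1 x3 → False := fun h1 h2 h3 h4 h5 h6 => hC.c4 x0 x1 x4 x3 h1 h2 h3.symm h4.symm n04 n13 h5 h6
  have k50 : H.Adj x0 x3 → H.Adj x2 x3 → H.Adj x2 x4 → H.Adj x0 x4 → ¬ H.Adj x0 x2 → ¬ H.Adj x3 x4 → False := fun h1 h2 h3 h4 h5 h6 => hC.c4 x0 x3 x2 x4 h1 h2.symm h3 h4.symm n02 n34 h5 h6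
  have k51 : H.Adj x0 x2 → H.Adj x2 x3 → H.Adj x3 x4 → H.Adj x0 x4 → ¬ H.Adj x0 x3 → ¬ H.Adj x2 x4 → False := fun h1 h2 h3 h4 h5 h6 => hC.c4 x0 x2 x3 x4 h1 h2 h3 h4.symm n03 n24 h5 h6
  have k52 : H.Adj x0 x2 → H.Adj x2 x4 → H.Adj x3 x4 → H.Adj x0 x3 → ¬ H.Adj x0 x4 → ¬ H.Adj x2 x3 → False := fun h1 h2 h3 h4 h5 h6 => hC.c4 x0 x2 x4 x3 h1 h2 h3.symm h4.symm n04 n23 h5 h6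
  have k53 : H.Adj x1 x3 → H.Adj x2 x3 → H.Adj x2 x4 → H.Adj x1 x4 → ¬ H.Adj x1 x2 → ¬ H.Adj x3 x4 → False := fun h1 h2 h3 h4 h5 h6 => hC.c4 x1 x3 x2 x4 h1 h2.symm h3 h4.symm n12 n34 h5 h6
  have k54 : H.Adj x1 x2 → H.Adj x2 x3 → H.Adj x3 x4 → H.Adj x1 x4 → ¬ H.Adj x1 x3 → ¬ H.Adj x2 x4 → False := fun h1 h2 h3 h4 h5 h6 => hC.c4 x1 x2 x3 x4 h1 h2 h3 h4.symm n13 n24 h5 h6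
  have k55 : H.Adj x1 x2 → H.Adj x2 x4 → H.Adj x3 x4 → H.Adj x1 x3 → ¬ H.Adj x1 x4 → ¬ H.Adj x2 x3 → False := fun h1 h2 h3 h4 h5 h6 => hC.c4 x1 x2 x4 x3 h1 h2 h3.symm h4.symm n14 n23 h5 h6
  have k56 : H.Adj x0 x1 → H.Adj x1 x2 → H.Adj x2 x3 → H.Adj x3 x4 → H.Adj x0 x4 → ¬ H.Adj x0 x2 → ¬ H.Adj x1 x3 → ¬ H.Adj x2 x4 → ¬ H.Adj x0 x3 → ¬ H.Adj x1 x4 → False := fun h1 h2 h3 h4 h5 g1 g2 g3 g4 g5 => hC.c5 x0 x1 x2 x3 x4 h1 h2 h3 h4 h5.symm n02 n13 n24 n03.symm n14.symm g1 g2 g3 (fun h => g4 h.symm) (fun h => g5 h.symm)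
  have k57 : H.Adj x0 x1 → H.Adj x1 x2 → H.Adj x2 x4 → H.Adj x3 x4 → H.Adj x0 x3 → ¬ H.Adj x0 x2 → ¬ H.Adj x1 x4 → ¬ H.Adj x2 x3 → ¬ H.Adj x0 x4 → ¬ H.Adj x1 x3 → False := fun h1 h2 h3 h4 h5 g1 g2 g3 g4 g5 => hC.c5 x0 x1 x2 x4 x3 h1 h2 h3 h4.symm h5.symm n02 n14 n23 n04.symm n13.symm g1 g2 g3 (fun h => g4 h.symm) (fun h => g5 h.symm)
  have k58 : H.Adj x0 x1 → H.Adj x1 x3 → H.Adj x2 x3 → H.Adj x2 x4 → H.Adj x0 x4 → ¬ H.Adj x0 x3 → ¬ H.Adj x1 x2 → ¬ H.Adj x3 x4 → ¬ H.Adj x0 x2 → ¬ H.Adj x1 x4 → False := fun h1 h2 h3 h4 h5 g1 g2 g3 g4 g5 => hC.c5 x0 x1 x3 x2 x4 h1 h2 h3.symm h4 h5.symm n03 n12 n34 n02.symm n14.symm g1 g2 g3 (fun h => g4 h.symm) (fun h => g5 h.symm)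
  have k59 : H.Adj x0 x1 → H.Adj x1 x3 → H.Adj x3 x4 → H.Adj x2 x4 → H.Adj x0 x2 → ¬ H.Adj x0 x3 → ¬ H.Adj x1 x4 → ¬ H.Adj x2 x3 → ¬ H.Adj x0 x4 → ¬ H.Adj x1 x2 → False := fun h1 h2 h3 h4 h5 g1 g2 g3 g4 g5 => hC.c5 x0 x1 x3 x4 x2 h1 h2 h3 h4.symm h5.symm n03 n14 n23.symm n04.symm n12.symm g1 g2 (fun h => g3 h.symm) (fun h => g4 h.symm) (fun h => g5 h.symm)
  have k60 : H.Adj x0 x1 → H.Adj x1 x4 → H.Adj x2 x4 → H.Adj x2 x3 → H.Adj x0 x3 → ¬ H.Adj x0 x4 → ¬ H.Adj x1 x2 → ¬ H.Adj x3 x4 → ¬ H.Adj x0 x2 → ¬ H.Adj x1 x3 → False := fun h1 h2 h3 h4 h5 g1 g2 g3 g4 g5 => hC.c5 x0 x1 x4 x2 x3 h1 h2 h3.symm h4 h5.symm n04 n12 n34.symm n02.symm n13.symm g1 g2 (fun h => g3 h.symm) (fun h => g4 h.symm) (fun h => g5 h.symm)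
  have k61 : H.Adj x0 x1 → H.Adj x1 x4 → H.Adj x3 x4 → H.Adj x2 x3 → H.Adj x0 x2 → ¬ H.Adj x0 x4 → ¬ H.Adj x1 x3 → ¬ H.Adj x2 x4 → ¬ H.Adj x0 x3 → ¬ H.Adj x1 x2 → False := fun h1 h2 h3 h4 h5 g1 g2 g3 g4 g5 => hC.c5 x0 x1 x4 x3 x2 h1 h2 h3.symm h4.symm h5.symm n04 n13 n24.symm n03.symm n12.symm g1 g2 (fun h => g3 h.symm) (fun h => g4 h.symm) (fun h => g5 h.symm)
  have k62 : H.Adj x0 x2 → H.Adj x1 x2 → H.Adj x1 x3 → H.Adj x3 x4 → H.Adj x0 x4 → ¬ H.Adj x0 x1 → ¬ H.Adj x2 x3 → ¬ H.Adj x1 x4 → ¬ H.Adj x0 x3 → ¬ H.Adj x2 x4 → False := fun h1 h2 h3 h4 h5 g1 g2 g3 g4 g5 => hC.c5 x0 x2 x1 x3 x4 h1 h2.symm h3 h4 h5.symm n01 n23 n14 n03.symm n24.symm g1 g2 g3 (fun h => g4 h.symm) (fun h => g5 h.symm)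
  have k63 : H.Adj x0 x2 → H.Adj x1 x2 → H.Adj x1 x4 → H.Adj x3 x4 → H.Adj x0 x3 → ¬ H.Adj x0 x1 → ¬ H.Adj x2 x4 → ¬ H.Adj x1 x3 → ¬ H.Adj x0 x4 → ¬ H.Adj x2 x3 → False := fun h1 h2 h3 h4 h5 g1 g2 g3 g4 g5 => hC.c5 x0 x2 x1 x4 x3 h1 h2.symm h3 h4.symm h5.symm n01 n24 n13 n04.symm n23.symm g1 g2 g3 (fun h => g4 h.symm) (fun h => g5 h.symm)
  have k64 : H.Adj x0 x2 → H.Adj x2 x3 → H.Adj x1 x3 → H.Adj x1 x4 → H.Adj x0 x4 → ¬ H.Adj x0 x3 → ¬ H.Adj x1 x2 → ¬ H.Adj x3 x4 → ¬ H.Adj x0 x1 → ¬ H.Adj x2 x4 → False := fun h1 h2 h3 h4 h5 g1 g2 g3 g4 g5 => hC.c5 x0 x2 x3 x1 x4 h1 h2 h3.symm h4 h5.symm n03 n12.symm n34 n01.symm n24.symm g1 (fun h => g2 h.symm) g3 (fun h => g4 h.symm) (fun h => g5 h.symm)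
  have k65 : H.Adj x0 x2 → H.Adj x2 x4 → H.Adj x1 x4 → H.Adj x1 x3 → H.Adj x0 x3 → ¬ H.Adj x0 x4 → ¬ H.Adj x1 x2 → ¬ H.Adj x3 x4 → ¬ H.Adj x0 x1 → ¬ H.Adj x2 x3 → False := fun h1 h2 h3 h4 h5 g1 g2 g3 g4 g5 => hC.c5 x0 x2 x4 x1 x3 h1 h2 h3.symm h4 h5.symm n04 n12.symm n34.symm n01.symm n23.symm g1 (fun h => g2 h.symm) (fun h => g3 h.symm) (fun h => g4 h.symm) (fun h => g5 h.symm)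
  have k66 : H.Adj x0 x3 → H.Adj x1 x3 → H.Adj x1 x2 → H.Adj x2 x4 → H.Adj x0 x4 → ¬ H.Adj x0 x1 → ¬ H.Adj x2 x3 → ¬ H.Adj x1 x4 → ¬ H.Adj x0 x2 → ¬ H.Adj x3 x4 → False := fun h1 h2 h3 h4 h5 g1 g2 g3 g4 g5 => hC.c5 x0 x3 x1 x2 x4 h1 h2.symm h3 h4 h5.symm n01 n23.symm n14 n02.symm n34.symm g1 (fun h => g2 h.symm) g3 (fun h => g4 h.symm) (fun h => g5 h.symm)
  have k67 : H.Adj x0 x3 → H.Adj x2 x3 → H.Adj x1 x2 → H.Adj x1 x4 → H.Adj x0 x4 → ¬ H.Adj x0 x2 → ¬ H.Adj x1 x3 → ¬ H.Adj x2 x4 → ¬ H.Adj x0 x1 → ¬ H.Adj x3 x4 → False := fun h1 h2 h3 h4 h5 g1 g2 g3 g4 g5 => hC.c5 x0 x3 x2 x1 x4 h1 h2.symm h3.symm h4 h5.symm n02 n13.symm n24 n01.symm n34.symm g1 (fun h => g2 h.symm) g3 (fun h => g4 h.symm) (fun h => g5 h.symm)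
  clear hC n01 n02 n03 n04 n12 n13 n14 n23 n24 n34
  generalize H.Adj x0 x1 = p01 at *
  generalize H.Adj x0 x2 = p02 at *
  generalize H.Adj x0 x3 = p03 at *
  generalize H.Adj x0 x4 = p04 at *
  generalize H.Adj x1 x2 = p12 at *
  generalize H.Adj x1 x3 = p13 at *
  generalize H.Adj x1 x4 = p14 at *
  generalize H.Adj x2 x3 = p23 at *
  generalize H.Adj x2 x4 = p24 at *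
  generalize H.Adj x3 x4 = p34 at *
  by_cases c1 : p01 <;> by_cases c2 : p02 <;> by_cases c3 : p12 <;> by_cases c4 : p03 <;>
    by_cases c5 : p13 <;> by_cases c6 : p23 <;>
    first
    | grind
    | (by_cases c7 : p04 <;> by_cases c8 : p14 <;> by_cases c9 : p24 <;>
        by_cases c10 : p34 <;> grind)

end Pool.Agent.K6.H4.Itm
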