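import Pool.Agent.K6.H4.ItmClass

/-! Classification of the small graphs, second part. -/

set_option autoImplicit false

namespace Pool.Agent.K6.H4.Itm

open SimpleGraph Pool.Agent.H175R2

variable {W : Type} {H : SimpleGraph W}

/-- adjacency tables -/
def tP4 : Fin 4 → Fin 4 → Bool :=
  ![![false, true, false, false], ![true, false, true, false], ![false, true, false, true],
    ![false, false, true, false]]

def tPaw : Fin 4 → Fin 4 → Bool :=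
  ![![false, true, true, true], ![true, false, true, false], ![true, true, false, false],
    ![true, false, false, false]]

def tDia : Fin 4 → Fin 4 → Bool :=
  ![![false, true, true, true], ![true, false, true, true], ![true, true, false, false],
    ![true, true, false, false]]

theorem adj_P4 (i j : Fin 4) : (pathGraph 4).Adj i j ↔ tP4 i j = true := by
  rw [pathGraph_adj]
  revert i j
  decide

theorem adj_paw (i j : Fin 4) : paw.Adj i j ↔ tPaw i j = true := by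
  unfold paw
  rw [fromRel_adj]
  revert i j
  decide

theorem adj_dia (i j : Fin 4) : diamond.Adj i j ↔ tDia i j = true := by
  unfold diamond
  rw [fromRel_adj]
  revert i j
  decide

def L4 : List (Fin 4 → Fin 4) :=
  [![0, 1, 2, 3], ![0, 1, 3, 2], ![0, 2, 1, 3], ![0, 2, 3, 1], ![0, 3, 1, 2], ![0, 3, 2, 1], ![1, 0, 2, 3], ![1, 0, 3, 2], ![1, 2, 0, 3], ![1, 2, 3, 0], ![1, 3, 0, 2], ![1, 3, 2, 0], ![2, 0, 1, 3], ![2, 0, 3, 1], ![2, 1, 0, 3], ![2, 1, 3, 0], ![2, 3, 0, 1], ![2, 3, 1, 0], ![3, 0, 1, 2], ![3, 0, 2, 1], ![3, 1, 0, 2], ![3, 1, 2, 0], ![3, 2, 0, 1], ![3, 2, 1, 0]]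

def L3 : List (Fin 3 → Fin 4) :=
  [![0, 1, 2], ![0, 1, 3], ![0, 2, 1], ![0, 2, 3], ![0, 3, 1], ![0, 3, 2], ![1, 0, 2], ![1, 0, 3], ![1, 2, 0], ![1, 2, 3], ![1, 3, 0], ![1, 3, 2], ![2, 0, 1], ![2, 0, 3], ![2, 1, 0], ![2, 1, 3], ![2, 3, 0], ![2, 3, 1], ![3, 0, 1], ![3, 0, 2], ![3, 1, 0], ![3, 1, 2], ![3, 2, 0], ![3, 2, 1]]

def tab4 (a b c d e f : Bool) : Fin 4 → Fin 4 → Bool :=
  ![![false, a, b, c], ![a, false, d, e], ![b, d, false, f], ![c, e, f, false]]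

def tab3 (a b c : Bool) : Fin 3 → Fin 3 → Bool :=
  ![![false, a, b], ![a, false, c], ![b, c, false]]

/-- the conditions on four vertices -/
def cond4 (a b c d e f : Bool) : Bool :=
  (a || b || d) &&
  (a || c || e) &&
  (b || c || f) &&
  (d || e || f) &&
  !(a && b && c && d && e && f) &&
  !(a && b && d && !c && !e && !f) &&
  !(a && c && e && !b && !d && !f) &&
  !(b && c && f && !a && !d && !e) &&
  !(d && e && f && !a && !b && !c) &&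
  !(b && d && e && c && !a && !f) &&
  !(a && d && f && c && !b && !e) &&
  !(a && e && f && b && !c && !d) &&
  !(a && f && !b && !c && !d && !e) &&
  !(b && e && !a && !c && !d && !f) &&
  !(c && d && !a && !b && !e && !f)

set_option maxHeartbeats 4000000 in
theorem cond4_of (a b c d e f : Bool)
    (k0 : (a = true ∨ b = true ∨ d = true))
    (k1 : (a = true ∨ c = true ∨ e = true))
    (k2 : (b = true ∨ c = true ∨ f = true))
    (k3 : (d = true ∨ e = true ∨ f = true))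
    (k4 : (a = true → b = true → c = true → d = true → e = true → f = true → False))
    (k5 : (a = true → b = true → d = true → ¬ c = true → ¬ e = true → ¬ f = true → False))
    (k6 : (a = true → c = true → e = true → ¬ b = true → ¬ d = true → ¬ f = true → False))
    (k7 : (b = true → c = true → f = true → ¬ a = true → ¬ d = true → ¬ e = true → False))
    (k8 : (d = true → e = true → f = true → ¬ a = true → ¬ b = true → ¬ c = true → False))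
    (k9 : (b = true → d = true → e = true → c = true → ¬ a = true → ¬ f = true → False))
    (k10 : (a = true → d = true → f = true → c = true → ¬ b = true → ¬ e = true → False))
    (k11 : (a = true → e = true → f = true → b = true → ¬ c = true → ¬ d = true → False))
    (k12 : (a = true → f = true → ¬ b = true → ¬ c = true → ¬ d = true → ¬ e = true → False))
    (k13 : (b = true → e = true → ¬ a = true → ¬ c = true → ¬ d = true → ¬ f = true → False))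
    (k14 : (c = true → d = true → ¬ a = true → ¬ b = true → ¬ e = true → ¬ f = true → False)) :
    cond4 a b c d e f = true := by
  unfold cond4
  cases a <;> cases b <;> cases c <;> cases d <;> cases e <;> cases f <;> simp_all

set_option maxRecDepth 100000 in
set_option maxHeartbeats 4000000 in
theorem find4 : ∀ a b c d e f : Bool, cond4 a b c d e f = true →
    ∃ p ∈ L4, (∀ i j, tab4 a b c d e f i j = tP4 (p i) (p j)) ∨
      (∀ i j, tab4 a b c d e f i j = tPaw (p i) (p j)) ∨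
      (∀ i j, tab4 a b c d e f i j = tDia (p i) (p j)) := by
  decide +kernel

set_option maxRecDepth 100000 in
set_option maxHeartbeats 4000000 in
theorem find3 : ∀ a b c : Bool, (a = true ∨ b = true ∨ c = true) →
    ∃ p ∈ L3, (∀ i j, tab3 a b c i j = tP4 (p i) (p j)) ∨
      (∀ i j, tab3 a b c i j = tPaw (p i) (p j)) := by
  decide +kernel

theorem L4_inj : ∀ p ∈ L4, Function.Injective p := by decide +kernel

theorem L3_inj : ∀ p ∈ L3, Function.Injective p := by decide +kernel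

theorem ind_of {n m : ℕ} (e : Fin n ≃ W) (T : Fin n → Fin n → Bool) (H0 : SimpleGraph (Fin m))
    (T0 : Fin m → Fin m → Bool) (h0 : ∀ i j, H0.Adj i j ↔ T0 i j = true)
    (hT : ∀ i j, H.Adj (e i) (e j) ↔ T i j = true) (p : Fin n → Fin m)
    (hp : Function.Injective p) (h : ∀ i j, T i j = T0 (p i) (p j)) : H ⊴ H0 := by
  refine ⟨⟨⟨fun w => p (e.symm w), fun w w' hw => ?_⟩, ?_⟩⟩
  · exact e.symm.injective (hp hw)
  · intro w w'
    change H0.Adj (p (e.symm w)) (p (e.symm w')) ↔ H.Adj w w'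
    rw [h0, ← h, ← hT, e.apply_symm_apply, e.apply_symm_apply]

theorem classify4 (hC : Cst H) (e : Fin 4 ≃ W) :
    H ⊴ pathGraph 4 ∨ H ⊴ paw ∨ H ⊴ diamond := by
  classical
  obtain ⟨x0, hx0⟩ : ∃ x, e 0 = x := ⟨_, rfl⟩
  obtain ⟨x1, hx1⟩ : ∃ x, e 1 = x := ⟨_, rfl⟩
  obtain ⟨x2, hx2⟩ : ∃ x, e 2 = x := ⟨_, rfl⟩
  obtain ⟨x3, hx3⟩ : ∃ x, e 3 = x := ⟨_, rfl⟩
  have n01 : x0 ≠ x1 := by rw [← hx0, ← hx1]; exact e.injective.ne (by decide)
  have n02 : x0 ≠ x2 := by rw [← hx0, ← hx2]; exact e.injective.ne (by decide)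
  have n03 : x0 ≠ x3 := by rw [← hx0, ← hx3]; exact e.injective.ne (by decide)
  have n12 : x1 ≠ x2 := by rw [← hx1, ← hx2]; exact e.injective.ne (by decide)
  have n13 : x1 ≠ x3 := by rw [← hx1, ← hx3]; exact e.injective.ne (by decide)
  have n23 : x2 ≠ x3 := by rw [← hx2, ← hx3]; exact e.injective.ne (by decide)
  obtain ⟨a, ha⟩ : ∃ a : Bool, (H.Adj x0 x1 ↔ a = true) := ⟨decide (H.Adj x0 x1), by simp⟩
  obtain ⟨b, hb⟩ : ∃ a : Bool, (H.Adj x0 x2 ↔ a = true) := ⟨decide (H.Adj x0 x2), by simp⟩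
  obtain ⟨c, hc⟩ : ∃ a : Bool, (H.Adj x0 x3 ↔ a = true) := ⟨decide (H.Adj x0 x3), by simp⟩
  obtain ⟨d, hd⟩ : ∃ a : Bool, (H.Adj x1 x2 ↔ a = true) := ⟨decide (H.Adj x1 x2), by simp⟩
  obtain ⟨e', he⟩ : ∃ a : Bool, (H.Adj x1 x3 ↔ a = true) := ⟨decide (H.Adj x1 x3), by simp⟩
  obtain ⟨f, hf⟩ : ∃ a : Bool, (H.Adj x2 x3 ↔ a = true) := ⟨decide (H.Adj x2 x3), by simp⟩
  have k0 : H.Adj x0 x1 ∨ H.Adj x0 x2 ∨ H.Adj x1 x2 := hC.al x0 x1 x2 n01 n02 n12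
  have k1 : H.Adj x0 x1 ∨ H.Adj x0 x3 ∨ H.Adj x1 x3 := hC.al x0 x1 x3 n01 n03 n13
  have k2 : H.Adj x0 x2 ∨ H.Adj x0 x3 ∨ H.Adj x2 x3 := hC.al x0 x2 x3 n02 n03 n23
  have k3 : H.Adj x1 x2 ∨ H.Adj x1 x3 ∨ H.Adj x2 x3 := hC.al x1 x2 x3 n12 n13 n23
  have k4 : H.Adj x0 x1 → H.Adj x0 x2 → H.Adj x0 x3 → H.Adj x1 x2 → H.Adj x1 x3 → H.Adj x2 x3 → False := hC.k4 x0 x1 x2 x3
  have k5 : H.Adj x0 x1 → H.Adj x0 x2 → H.Adj x1 x2 → ¬ H.Adj x0 x3 → ¬ H.Adj x1 x3 → ¬ H.Adj x2 x3 → False := fun h1 h2 h3 q1 q2 q3 => hC.k31 x0 x1 x2 x3 h1 h2 h3 ⟨n03.symm, (fun h => q1 h.symm)⟩ ⟨n13.symm, (fun h => q2 h.symm)⟩ ⟨n23.symm, (fun h => q3 h.symm)⟩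
  have k6 : H.Adj x0 x1 → H.Adj x0 x3 → H.Adj x1 x3 → ¬ H.Adj x0 x2 → ¬ H.Adj x1 x2 → ¬ H.Adj x2 x3 → False := fun h1 h2 h3 q1 q2 q3 => hC.k31 x0 x1 x3 x2 h1 h2 h3 ⟨n02.symm, (fun h => q1 h.symm)⟩ ⟨n12.symm, (fun h => q2 h.symm)⟩ ⟨n23, q3⟩
  have k7 : H.Adj x0 x2 → H.Adj x0 x3 → H.Adj x2 x3 → ¬ H.Adj x0 x1 → ¬ H.Adj x1 x2 → ¬ H.Adj x1 x3 → False := fun h1 h2 h3 q1 q2 q3 => hC.k31 x0 x2 x3 x1 h1 h2 h3 ⟨n01.symm, (fun h => q1 h.symm)⟩ ⟨n12, q2⟩ ⟨n13, q3⟩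
  have k8 : H.Adj x1 x2 → H.Adj x1 x3 → H.Adj x2 x3 → ¬ H.Adj x0 x1 → ¬ H.Adj x0 x2 → ¬ H.Adj x0 x3 → False := fun h1 h2 h3 q1 q2 q3 => hC.k31 x1 x2 x3 x0 h1 h2 h3 ⟨n01, q1⟩ ⟨n02, q2⟩ ⟨n03, q3⟩
  have k9 : H.Adj x0 x2 → H.Adj x1 x2 → H.Adj x1 x3 → H.Adj x0 x3 → ¬ H.Adj x0 x1 → ¬ H.Adj x2 x3 → False := fun h1 h2 h3 h4 h5 h6 => hC.c4 x0 x2 x1 x3 h1 h2.symm h3 h4.symm n01 n23 h5 h6
  have k10 : H.Adj x0 x1 → H.Adj x1 x2 → H.Adj x2 x3 → H.Adj x0 x3 → ¬ H.Adj x0 x2 → ¬ H.Adj x1 x3 → False := fun h1 h2 h3 h4 h5 h6 => hC.c4 x0 x1 x2 x3 h1 h2 h3 h4.symm n02 n13 h5 h6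
  have k11 : H.Adj x0 x1 → H.Adj x1 x3 → H.Adj x2 x3 → H.Adj x0 x2 → ¬ H.Adj x0 x3 → ¬ H.Adj x1 x2 → False := fun h1 h2 h3 h4 h5 h6 => hC.c4 x0 x1 x3 x2 h1 h2 h3.symm h4.symm n03 n12 h5 h6
  have k12 : H.Adj x0 x1 → H.Adj x2 x3 → ¬ H.Adj x0 x2 → ¬ H.Adj x0 x3 → ¬ H.Adj x1 x2 → ¬ H.Adj x1 x3 → False := fun h1 h2 h3 h4 h5 h6 => hC.kk x0 x1 x2 x3 h1 h2 ⟨n02, h3⟩ ⟨n03, h4⟩ ⟨n12, h5⟩ ⟨n13, h6⟩
  have k13 : H.Adj x0 x2 → H.Adj x1 x3 → ¬ H.Adj x0 x1 → ¬ H.Adj x0 x3 → ¬ H.Adj x1 x2 → ¬ H.Adj x2 x3 → False := fun h1 h2 h3 h4 h5 h6 => hC.kk x0 x2 x1 x3 h1 h2 ⟨n01, h3⟩ ⟨n03, h4⟩ ⟨n12.symm, (fun h => h5 h.symm)⟩ ⟨n23, h6⟩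
  have k14 : H.Adj x0 x3 → H.Adj x1 x2 → ¬ H.Adj x0 x1 → ¬ H.Adj x0 x2 → ¬ H.Adj x1 x3 → ¬ H.Adj x2 x3 → False := fun h1 h2 h3 h4 h5 h6 => hC.kk x0 x3 x1 x2 h1 h2 ⟨n01, h3⟩ ⟨n02, h4⟩ ⟨n13.symm, (fun h => h5 h.symm)⟩ ⟨n23.symm, (fun h => h6 h.symm)⟩
  rw [ha, hb, hd] at k0
  simp only [ha, hb, hc, hd, he, hf] at k0 k1 k2 k3 k4 k5 k6 k7 k8 k9 k10 k11 k12 k13 k14
  obtain ⟨p, hp, h⟩ := find4 a b c d e' f (cond4_of a b c d e' f k0 k1 k2 k3 k4 k5 k6 k7 k8 k9 k10 k11 k12 k13 k14)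
  have hT : ∀ i j, H.Adj (e i) (e j) ↔ tab4 a b c d e' f i j = true := by
    intro i j
    fin_cases i <;> fin_cases j <;>
      simp [tab4, hx0, hx1, hx2, hx3, ha, hb, hc, hd, he, hf, H.adj_comm x1 x0, H.adj_comm x2 x0,
        H.adj_comm x3 x0, H.adj_comm x2 x1, H.adj_comm x3 x1, H.adj_comm x3 x2]
  rcases h with h | h | h
  · exact Or.inl (ind_of e _ _ _ adj_P4 hT p (L4_inj p hp) h)
  · exact Or.inr (Or.inl (ind_of e _ _ _ adj_paw hT p (L4_inj p hp) h))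
  · exact Or.inr (Or.inr (ind_of e _ _ _ adj_dia hT p (L4_inj p hp) h))

theorem classify3 (hC : Cst H) (e : Fin 3 ≃ W) :
    H ⊴ pathGraph 4 ∨ H ⊴ paw ∨ H ⊴ diamond := by
  classical
  obtain ⟨x0, hx0⟩ : ∃ x, e 0 = x := ⟨_, rfl⟩
  obtain ⟨x1, hx1⟩ : ∃ x, e 1 = x := ⟨_, rfl⟩
  obtain ⟨x2, hx2⟩ : ∃ x, e 2 = x := ⟨_, rfl⟩
  have n01 : x0 ≠ x1 := by rw [← hx0, ← hx1]; exact e.injective.ne (by decide)
  have n02 : x0 ≠ x2 := by rw [← hx0, ← hx2]; exact e.injective.ne (by decide)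
  have n12 : x1 ≠ x2 := by rw [← hx1, ← hx2]; exact e.injective.ne (by decide)
  obtain ⟨a, ha⟩ : ∃ a : Bool, (H.Adj x0 x1 ↔ a = true) := ⟨decide (H.Adj x0 x1), by simp⟩
  obtain ⟨b, hb⟩ : ∃ a : Bool, (H.Adj x0 x2 ↔ a = true) := ⟨decide (H.Adj x0 x2), by simp⟩
  obtain ⟨d, hd⟩ : ∃ a : Bool, (H.Adj x1 x2 ↔ a = true) := ⟨decide (H.Adj x1 x2), by simp⟩
  have k0 : H.Adj x0 x1 ∨ H.Adj x0 x2 ∨ H.Adj x1 x2 := hC.al x0 x1 x2 n01 n02 n12
  rw [ha, hb, hd] at k0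
  obtain ⟨p, hp, h⟩ := find3 a b d k0
  have hT : ∀ i j, H.Adj (e i) (e j) ↔ tab3 a b d i j = true := by
    intro i j
    fin_cases i <;> fin_cases j <;>
      simp [tab3, hx0, hx1, hx2, ha, hb, hd, H.adj_comm x1 x0, H.adj_comm x2 x0,
        H.adj_comm x2 x1]
  rcases h with h | h
  · exact Or.inl (ind_of e _ _ _ adj_P4 hT p (L3_inj p hp) h)
  · exact Or.inr (Or.inl (ind_of e _ _ _ adj_paw hT p (L3_inj p hp) h))

theorem classify2 (e : Fin 2 ≃ W) : H ⊴ pathGraph 4 := by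
  classical
  by_cases h : H.Adj (e 0) (e 1)
  · refine ind_of e (fun i j => decide (i ≠ j)) _ _ adj_P4 ?_ ![0, 1] (by decide) (by decide)
    intro i j
    fin_cases i <;> fin_cases j <;> simp [h, h.symm]
  · refine ind_of e (fun _ _ => false) _ _ adj_P4 ?_ ![0, 2] (by decide) (by decide)
    intro i j
    fin_cases i <;> fin_cases j <;> simp [h, H.adj_comm (e 1) (e 0)]

theorem classify1 (e : Fin 1 ≃ W) : H ⊴ pathGraph 4 := by
  refine ind_of e (fun _ _ => false) _ _ adj_P4 ?_ ![0] (by decide) (by decide)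
  intro i j
  have : i = j := Subsingleton.elim _ _
  subst this
  simp

theorem classify [Finite W] (hC : Cst H) : H ⊴ pathGraph 4 ∨ H ⊴ paw ∨ H ⊴ diamond := by
  classical
  have : Fintype W := Fintype.ofFinite W
  by_cases h5 : 5 ≤ Fintype.card W
  · exfalso
    obtain ⟨f⟩ : Nonempty (Fin 5 ↪ W) := Function.Embedding.nonempty_of_card_le (by simpa using h5)
    have hf := f.injective
    exact no5 hC (f 0) (f 1) (f 2) (f 3) (f 4) (hf.ne (by decide)) (hf.ne (by decide))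
      (hf.ne (by decide)) (hf.ne (by decide)) (hf.ne (by decide)) (hf.ne (by decide))
      (hf.ne (by decide)) (hf.ne (by decide)) (hf.ne (by decide)) (hf.ne (by decide))
  · have hc : Fintype.card W = 0 ∨ Fintype.card W = 1 ∨ Fintype.card W = 2 ∨
        Fintype.card W = 3 ∨ Fintype.card W = 4 := by omega
    rcases hc with hc | hc | hc | hc | hc
    · have := Fintype.card_eq_zero_iff.1 hc
      exact Or.inl IsIndContained.of_isEmpty
    · exact Or.inl (classify1 (Fintype.equivFinOfCardEq hc).symm)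
    · exact Or.inl (classify2 (Fintype.equivFinOfCardEq hc).symm)
    · exact classify3 hC (Fintype.equivFinOfCardEq hc).symm
    · exact classify4 hC (Fintype.equivFinOfCardEq hc).symm

end Pool.Agent.K6.H4.Itm
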