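import Pool.Agent.K6.H4.ItmWit
import Pool.Agent.H175R2.Blocks

/-! Induced cycles and shortest paths. -/

set_option autoImplicit false

namespace Pool.Agent.K6.H4.Itm

open Finset Pool.Agent.H175R2

variable {V : Type} {G : SimpleGraph V}

/-- rotation of indices -/
def rot (n k i : ℕ) : ℕ := if i + k < n then i + k else i + k - n

theorem rot_lt {n k i : ℕ} (hk : k < n) (hi : i < n) : rot n k i < n := by
  unfold rot
  split_ifs <;> omega

theorem IC.rotate {n : ℕ} {c : ℕ → V} (h : IC G n c) {k : ℕ} (hk : k < n) :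
    IC G n (fun i => c (rot n k i)) := by
  have h3 := h.three
  refine ⟨h3, ?_, ?_⟩
  · intro i j hi hj hij
    have := h.inj _ _ (rot_lt hk hi) (rot_lt hk hj) hij
    unfold rot at this
    split_ifs at this <;> omega
  · intro i j hij hj
    simp only [rot]
    split_ifs with h1 h2 h2
    · rw [h.adj _ _ (by omega) (by omega)]
      omega
    · rw [G.adj_comm, h.adj _ _ (by omega) (by omega)]
      omega
    · omega
    · rw [h.adj _ _ (by omega) (by omega)]
      omega

theorem rot_back {n k i : ℕ} (hk : k < n) (hi : i < n) : rot n k (rot n (if k = 0 then 0 else n - k) i) = i := by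
  unfold rot
  split_ifs <;> omega

theorem ic3 {x y z : V} (h1 : G.Adj x y) (h2 : G.Adj y z) (h3 : G.Adj x z) :
    IC G 3 (fun i => if i = 0 then x else if i = 1 then y else z) := by
  refine ⟨le_rfl, ?_, ?_⟩
  · intro i j hi hj hij
    have n1 := h1.ne
    have n2 := h2.ne
    have n3 := h3.ne
    have hi' : i = 0 ∨ i = 1 ∨ i = 2 := by omega
    have hj' : j = 0 ∨ j = 1 ∨ j = 2 := by omega
    rcases hi' with rfl | rfl | rfl <;> rcases hj' with rfl | rfl | rfl <;> simp_all
  · intro i j hij hj
    have : (i = 0 ∧ j = 1) ∨ (i = 0 ∧ j = 2) ∨ (i = 1 ∧ j = 2) := by omega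
    rcases this with ⟨rfl, rfl⟩ | ⟨rfl, rfl⟩ | ⟨rfl, rfl⟩ <;> simp_all

theorem ic4 {x y z w : V} (h1 : G.Adj x y) (h2 : G.Adj y z) (h3 : G.Adj z w) (h4 : G.Adj x w)
    (n1 : x ≠ z) (n2 : y ≠ w) (h5 : ¬ G.Adj x z) (h6 : ¬ G.Adj y w) :
    IC G 4 (fun i => if i = 0 then x else if i = 1 then y else if i = 2 then z else w) := by
  refine ⟨by omega, ?_, ?_⟩
  · intro i j hi hj hij
    have m1 := h1.ne
    have m2 := h2.ne
    have m3 := h3.ne
    have m4 := h4.ne
    have hi' : i = 0 ∨ i = 1 ∨ i = 2 ∨ i = 3 := by omega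
    have hj' : j = 0 ∨ j = 1 ∨ j = 2 ∨ j = 3 := by omega
    rcases hi' with rfl | rfl | rfl | rfl <;> rcases hj' with rfl | rfl | rfl | rfl <;> simp_all
  · intro i j hij hj
    have : (i = 0 ∧ j = 1) ∨ (i = 0 ∧ j = 2) ∨ (i = 0 ∧ j = 3) ∨ (i = 1 ∧ j = 2) ∨
      (i = 1 ∧ j = 3) ∨ (i = 2 ∧ j = 3) := by omega
    rcases this with ⟨rfl, rfl⟩ | ⟨rfl, rfl⟩ | ⟨rfl, rfl⟩ | ⟨rfl, rfl⟩ | ⟨rfl, rfl⟩ | ⟨rfl, rfl⟩ <;>
      simp_all

theorem pw3 {x y z p : V} (h1 : G.Adj x y) (h2 : G.Adj y z) (h3 : G.Adj x z) (hp : G.Adj p x)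
    (hy : ¬ G.Adj p y) (hz : ¬ G.Adj p z) : PW G := by
  refine ⟨3, _, p, ic3 h1 h2 h3, ?_, by simpa using hp, ?_⟩
  · intro i hi
    have hi' : i = 0 ∨ i = 1 ∨ i = 2 := by omega
    rcases hi' with rfl | rfl | rfl
    · exact hp.ne
    · rintro rfl
      exact hz h2
    · rintro rfl
      exact hy h2.symm
  · intro i hi1 hi
    have hi' : i = 1 ∨ i = 2 := by omega
    rcases hi' with rfl | rfl
    · exact hy
    · exact hz

theorem pw4 {x y z w p : V} (h1 : G.Adj x y) (h2 : G.Adj y z) (h3 : G.Adj z w) (h4 : G.Adj x w)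
    (n1 : x ≠ z) (n2 : y ≠ w) (h5 : ¬ G.Adj x z) (h6 : ¬ G.Adj y w) (hp : G.Adj p x)
    (hy : ¬ G.Adj p y) (hz : ¬ G.Adj p z) (hw : ¬ G.Adj p w) : PW G := by
  refine ⟨4, _, p, ic4 h1 h2 h3 h4 n1 n2 h5 h6, ?_, by simpa using hp, ?_⟩
  · intro i hi
    have hi' : i = 0 ∨ i = 1 ∨ i = 2 ∨ i = 3 := by omega
    rcases hi' with rfl | rfl | rfl | rfl
    · exact hp.ne
    · rintro rfl
      exact hz h2
    · rintro rfl
      exact hy h2.symm
    · rintro rfl
      exact hz h3.symm
  · intro i hi1 hi
    have hi' : i = 1 ∨ i = 2 ∨ i = 3 := by omega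
    rcases hi' with rfl | rfl | rfl
    · exact hy
    · exact hz
    · exact hw

/-- walks inside connected sets -/
theorem reach {S : Finset V} (hS : Cn G S) {x : V} (hx : x ∈ S) {t : V} (ht : t ∈ S) :
    ∃ (m : ℕ) (y : ℕ → V), y 0 = x ∧ y m = t ∧ (∀ k ≤ m, y k ∈ S) ∧
      ∀ k < m, G.Adj (y k) (y (k + 1)) := by
  classical
  set A := S.filter (fun z => ∃ (m : ℕ) (y : ℕ → V), y 0 = x ∧ y m = z ∧ (∀ k ≤ m, y k ∈ S) ∧
      ∀ k < m, G.Adj (y k) (y (k + 1))) with hA
  by_contra hcon
  have hxA : x ∈ A := by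
    rw [hA, mem_filter]
    exact ⟨hx, 0, fun _ => x, rfl, rfl, fun _ _ => hx, fun k hk => absurd hk (by omega)⟩
  have htA : t ∈ S \ A := by
    rw [mem_sdiff]
    refine ⟨ht, fun h => hcon ?_⟩
    rw [hA, mem_filter] at h
    exact h.2
  obtain ⟨a, ha, b, hb, hab⟩ := hS.2 A (filter_subset _ _) ⟨x, hxA⟩ ⟨t, htA⟩
  rw [mem_sdiff] at hb
  apply hb.2
  have ha' := ha
  rw [hA, mem_filter] at ha'
  obtain ⟨_, m, y, h0, h1, h2, h3⟩ := ha'
  rw [hA, mem_filter]
  refine ⟨hb.1, m + 1, fun k => if k ≤ m then y k else b, ?_, ?_, ?_, ?_⟩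
  · simpa using h0
  · simp
  · intro k hk
    by_cases hkm : k ≤ m
    · simpa [hkm] using h2 k hkm
    · simpa [hkm] using hb.1
  · intro k hk
    by_cases hkm : k + 1 ≤ m
    · have hk' : k ≤ m := by omega
      simpa [hkm, hk'] using h3 k (by omega)
    · have hk' : k = m := by omega
      subst hk'
      simpa [h1] using hab

/-- a walk -/
def Wk (G : SimpleGraph V) (S : V → Prop) (R : V → V → Prop) (m : ℕ) (y : ℕ → V) : Prop :=
  R (y 0) (y m) ∧ (∀ k ≤ m, S (y k)) ∧ ∀ k < m, G.Adj (y k) (y (k + 1))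

/-- shortest walks -/
theorem min_wk {S : V → Prop} {R : V → V → Prop} (hex : ∃ m y, Wk G S R m y) :
    ∃ m y, Wk G S R m y ∧
      (∀ k l, k < l → l ≤ m → y k ≠ y l ∧ (G.Adj (y k) (y l) ↔ l = k + 1)) ∧
      (∀ k l, k ≤ l → l ≤ m → R (y k) (y l) → k = 0 ∧ l = m) := by
  classical
  obtain ⟨y, hy⟩ := Nat.find_spec hex
  have hmin : ∀ m' < Nat.find hex, ∀ y', ¬ Wk G S R m' y' :=
    fun m' hm' y' h => Nat.find_min hex hm' ⟨y', h⟩
  obtain ⟨m, hm⟩ : ∃ m, m = Nat.find hex := ⟨_, rfl⟩
  rw [← hm] at hy hmin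
  obtain ⟨h1, h2, h3⟩ := hy
  refine ⟨m, y, ⟨h1, h2, h3⟩, ?_, ?_⟩
  · intro k l hkl hl
    have hne : y k ≠ y l := by
      intro he
      refine hmin (m - (l - k)) (by omega) (fun i => if i ≤ k then y i else y (i + (l - k))) ?_
      refine ⟨?_, ?_, ?_⟩
      · by_cases hmk : m - (l - k) ≤ k
        · have e1 : m = l := by omega
          have e2 : m - (l - k) = k := by omega
          simp only [Nat.zero_le, if_true, hmk]
          rw [e2, he, ← e1]
          exact h1
        · simp only [Nat.zero_le, if_true, hmk, if_false]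
          have e2 : m - (l - k) + (l - k) = m := by omega
          rw [e2]
          exact h1
      · intro i hi
        dsimp only
        split_ifs
        · exact h2 _ (by omega)
        · exact h2 _ (by omega)
      · intro i hi
        by_cases c1 : i + 1 ≤ k
        · have c2 : i ≤ k := by omega
          simp only [c1, c2, if_true]
          exact h3 _ (by omega)
        · by_cases c2 : i ≤ k
          · have c3 : i = k := by omega
            subst c3
            simp only [c1, le_refl, if_true, if_false]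
            have e : i + 1 + (l - i) = l + 1 := by omega
            rw [e, he]
            exact h3 _ (by omega)
          · simp only [c1, c2, if_false]
            have e : i + 1 + (l - k) = i + (l - k) + 1 := by omega
            rw [e]
            exact h3 _ (by omega)
    refine ⟨hne, ?_, ?_⟩
    · intro hadj
      by_contra hlk
      refine hmin (m - (l - k - 1)) (by omega)
        (fun i => if i ≤ k then y i else y (i + (l - k - 1))) ?_
      refine ⟨?_, ?_, ?_⟩
      · have hmk : ¬ m - (l - k - 1) ≤ k := by omega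
        simp only [Nat.zero_le, if_true, hmk, if_false]
        have e2 : m - (l - k - 1) + (l - k - 1) = m := by omega
        rw [e2]
        exact h1
      · intro i hi
        dsimp only
        split_ifs
        · exact h2 _ (by omega)
        · exact h2 _ (by omega)
      · intro i hi
        by_cases c1 : i + 1 ≤ k
        · have c2 : i ≤ k := by omega
          simp only [c1, c2, if_true]
          exact h3 _ (by omega)
        · by_cases c2 : i ≤ k
          · have c3 : i = k := by omega
            subst c3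
            simp only [c1, le_refl, if_true, if_false]
            have e : i + 1 + (l - i - 1) = l := by omega
            rw [e]
            exact hadj
          · simp only [c1, c2, if_false]
            have e : i + 1 + (l - k - 1) = i + (l - k - 1) + 1 := by omega
            rw [e]
            exact h3 _ (by omega)
    · rintro rfl
      exact h3 k (by omega)
  · intro k l hkl hl hR
    by_contra hcon
    refine hmin (l - k) (by omega) (fun i => y (k + i)) ⟨?_, ?_, ?_⟩
    · have e : k + (l - k) = l := by omega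
      simp only [Nat.add_zero, e]
      exact hR
    · intro i hi
      exact h2 _ (by omega)
    · intro i hi
      exact h3 _ (by omega)

/-- a 2-connected graph has an induced cycle -/
theorem exists_ic [Fintype V] (hG : TwoConn G) : ∃ n c, IC G n c := by
  classical
  have h3 := hG.card
  have hne : Nonempty V := Fintype.card_pos_iff.1 (by omega)
  obtain ⟨v⟩ := hne
  -- a neighbour `x`
  have nb : ∀ S : Finset V, Cn G S → v ∈ S → 2 ≤ S.card → ∃ x ∈ S, G.Adj v x := by
    intro S hS hv hc
    have h4 : (S \ {v}).Nonempty := by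
      rw [← card_pos, card_sdiff_of_subset (by simpa using hv), card_singleton]
      omega
    obtain ⟨a, ha, b, hb, hab⟩ := hS.2 {v} (by simpa using hv) ⟨v, by simp⟩ h4
    rw [mem_singleton] at ha
    subst ha
    exact ⟨b, (mem_sdiff.1 hb).1, hab⟩
  obtain ⟨x, _, hvx⟩ := nb univ hG.conn (mem_univ _) (by rw [card_univ]; omega)
  obtain ⟨y, hy, hvy⟩ := nb (univ.erase x) (hG.del x) (mem_erase.2 ⟨hvx.ne, mem_univ _⟩) (by
    rw [card_erase_of_mem (mem_univ _), card_univ]; omega)
  have hyx : x ≠ y := (mem_erase.1 hy).1.symm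
  obtain ⟨m0, y0, e0, e1, e2, e3⟩ := reach (hG.del v) (x := x) (t := y)
    (mem_erase.2 ⟨hvx.ne.symm, mem_univ _⟩) (mem_erase.2 ⟨hvy.ne.symm, mem_univ _⟩)
  obtain ⟨m, q, ⟨⟨hR1, hR2, hR3⟩, hS, hadj⟩, hb, hc⟩ := min_wk (G := G) (S := fun a => a ≠ v)
    (R := fun a b => G.Adj v a ∧ G.Adj v b ∧ a ≠ b) ⟨m0, y0, by
      refine ⟨⟨?_, ?_, ?_⟩, ?_, e3⟩
      · rw [e0]; exact hvx
      · rw [e1]; exact hvy
      · rw [e0, e1]; exact hyx
      · intro k hk
        exact (mem_erase.1 (e2 k hk)).1⟩
  have hm : 1 ≤ m := by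
    by_contra hcon
    have : m = 0 := by omega
    subst this
    exact hR3 rfl
  have hv : ∀ k ≤ m, (G.Adj v (q k) ↔ (k = 0 ∨ k = m)) := by
    intro k hk
    constructor
    · intro hvk
      by_contra hcon
      push Not at hcon
      have := hc 0 k (by omega) hk ⟨hR1, hvk, (hb 0 k (by omega) hk).1⟩
      exact hcon.2 this.2
    · rintro (rfl | rfl)
      · exact hR1
      · exact hR2
  refine ⟨m + 2, fun i => if i = 0 then v else q (i - 1), by omega, ?_, ?_⟩
  · intro i j hi hj hij
    by_cases hi0 : i = 0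
    · by_cases hj0 : j = 0
      · omega
      · simp only [hi0, if_true, hj0, if_false] at hij
        exact absurd hij.symm (hS (j - 1) (by omega))
    · by_cases hj0 : j = 0
      · simp only [hi0, if_true, hj0, if_false] at hij
        exact absurd hij (hS (i - 1) (by omega))
      · simp only [hi0, hj0, if_false] at hij
        by_contra hne
        rcases lt_or_gt_of_ne hne with h | h
        · exact (hb (i - 1) (j - 1) (by omega) (by omega)).1 hij
        · exact (hb (j - 1) (i - 1) (by omega) (by omega)).1 hij.symm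
  · intro i j hij hj
    have hj0 : j ≠ 0 := by omega
    by_cases hi0 : i = 0
    · subst hi0
      have e : G.Adj (if 0 = 0 then v else q (0 - 1)) (if j = 0 then v else q (j - 1)) ↔
          G.Adj v (q (j - 1)) := by simp [hj0]
      rw [e, hv (j - 1) (by omega)]
      constructor
      · rintro (h | h)
        · left; omega
        · right; exact ⟨rfl, by omega⟩
      · rintro (h | h)
        · left; omega
        · right; omega
    · have e : G.Adj (if i = 0 then v else q (i - 1)) (if j = 0 then v else q (j - 1)) ↔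
          G.Adj (q (i - 1)) (q (j - 1)) := by simp [hj0, hi0]
      rw [e, (hb (i - 1) (j - 1) (by omega) (by omega)).2]
      constructor
      · intro h
        left; omega
      · rintro (h | h)
        · omega
        · exact absurd h.1 hi0

end Pool.Agent.K6.H4.Itm
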