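import Mathlib

/-! Subdivisions and induced topological minors. -/

set_option autoImplicit false

namespace Pool.Agent.K6.H4.Itm

/-- `K` is a subdivision of `H`: there are an injective map `b` to the vertices of `K` (the branch
vertices) and, for every edge `uv` of `H`, a path of `K` from `b u` to `b v` (the path for `vu` is
the reverse one), such that the only branch vertices on a path are its ends, paths of different
edges have only branch vertices in common, every vertex of `K` is a branch vertex or on a path, and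
every edge of `K` is on a path. -/
def IsSubdivision {W U : Type} (H : SimpleGraph W) (K : SimpleGraph U) : Prop :=
  ∃ (b : W → U) (P : ∀ u v : W, H.Adj u v → K.Walk (b u) (b v)),
    Function.Injective b ∧
    (∀ u v (h : H.Adj u v), (P u v h).IsPath) ∧
    (∀ u v (h : H.Adj u v), P v u h.symm = (P u v h).reverse) ∧
    (∀ u v (h : H.Adj u v) (w : W), b w ∈ (P u v h).support → w = u ∨ w = v) ∧
    (∀ u v (h : H.Adj u v) u' v' (h' : H.Adj u' v') (x : U), x ∈ (P u v h).support →
      x ∈ (P u' v' h').support → s(u, v) = s(u', v') ∨ x ∈ Set.range b) ∧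
    (∀ x : U, x ∈ Set.range b ∨ ∃ u v, ∃ h : H.Adj u v, x ∈ (P u v h).support) ∧
    (∀ x y : U, K.Adj x y → ∃ u v, ∃ h : H.Adj u v, s(x, y) ∈ (P u v h).edges)

/-- `H` is an induced topological minor of `G`: some induced subgraph of `G` is a subdivision
of `H`. -/
def IsInducedTopologicalMinor {W V : Type} (H : SimpleGraph W) (G : SimpleGraph V) : Prop :=
  ∃ S : Set V, IsSubdivision H (G.induce S)

variable {U V W W' : Type}

/-- a subdivision of `H` as an induced subgraph, inside `G` -/
structure Model (H : SimpleGraph W) (G : SimpleGraph V) where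
  b : W → V
  P : ∀ u v : W, H.Adj u v → G.Walk (b u) (b v)
  inj : Function.Injective b
  path : ∀ u v (h : H.Adj u v), (P u v h).IsPath
  symm : ∀ u v (h : H.Adj u v), P v u h.symm = (P u v h).reverse
  branch : ∀ u v (h : H.Adj u v) (w : W), b w ∈ (P u v h).support → w = u ∨ w = v
  disj : ∀ u v (h : H.Adj u v) u' v' (h' : H.Adj u' v') (x : V), x ∈ (P u v h).support →
      x ∈ (P u' v' h').support → s(u, v) = s(u', v') ∨ x ∈ Set.range b
  ind : ∀ x y : V, (x ∈ Set.range b ∨ ∃ u v, ∃ h : H.Adj u v, x ∈ (P u v h).support) →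
      (y ∈ Set.range b ∨ ∃ u v, ∃ h : H.Adj u v, y ∈ (P u v h).support) →
      G.Adj x y → ∃ u v, ∃ h : H.Adj u v, s(x, y) ∈ (P u v h).edges

/-- the vertices of a model -/
def Model.In {H : SimpleGraph W} {G : SimpleGraph V} (M : Model H G) (x : V) : Prop :=
  x ∈ Set.range M.b ∨ ∃ u v, ∃ h : H.Adj u v, x ∈ (M.P u v h).support

theorem model_of_itm {H : SimpleGraph W} {G : SimpleGraph V}
    (h : IsInducedTopologicalMinor H G) : Nonempty (Model H G) := by
  obtain ⟨S, b, P, h1, h2, h3, h4, h5, h6, h7⟩ := h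
  let e : G.induce S →g G := (SimpleGraph.Embedding.induce S).toHom
  have he : Function.Injective e := Subtype.val_injective
  have hev : ∀ x, e x = x.1 := fun _ => rfl
  have hsup : ∀ u v (h : H.Adj u v) (x : V), x ∈ ((P u v h).map e).support ↔
      ∃ hx : x ∈ S, (⟨x, hx⟩ : S) ∈ (P u v h).support := by
    intro u v h x
    rw [SimpleGraph.Walk.support_map, List.mem_map]
    constructor
    · rintro ⟨y, hy, rfl⟩
      exact ⟨y.2, hy⟩
    · rintro ⟨hx, hy⟩
      exact ⟨_, hy, rfl⟩
  have hIn : ∀ x : V, (x ∈ Set.range (fun w => e (b w)) ∨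
      ∃ u v, ∃ h : H.Adj u v, x ∈ ((P u v h).map e).support) → x ∈ S := by
    rintro x (⟨w, rfl⟩ | ⟨u, v, h, hx⟩)
    · exact (b w).2
    · exact ((hsup u v h x).1 hx).1
  refine ⟨⟨fun w => e (b w), fun u v h => (P u v h).map e, he.comp h1, ?_, ?_, ?_, ?_, ?_⟩⟩
  · intro u v h
    exact (h2 u v h).map he
  · intro u v h
    rw [h3 u v h, SimpleGraph.Walk.reverse_map]
  · intro u v h w hw
    obtain ⟨hx, hw'⟩ := (hsup u v h _).1 hw
    exact h4 u v h w hw'
  · intro u v h u' v' h' x hx hx'
    obtain ⟨hxS, hx1⟩ := (hsup u v h _).1 hx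
    obtain ⟨_, hx2⟩ := (hsup u' v' h' _).1 hx'
    rcases h5 u v h u' v' h' _ hx1 hx2 with h8 | ⟨w, hw⟩
    · exact Or.inl h8
    · exact Or.inr ⟨w, by simp [hw, hev]⟩
  · intro x y hx hy hxy
    have hx' := hIn x hx
    have hy' := hIn y hy
    obtain ⟨u, v, h, hm⟩ := h7 ⟨x, hx'⟩ ⟨y, hy'⟩ hxy
    refine ⟨u, v, h, ?_⟩
    rw [SimpleGraph.Walk.edges_map, List.mem_map]
    exact ⟨_, hm, rfl⟩

theorem Model.edges_eq {H : SimpleGraph W} {G : SimpleGraph V} (M : Model H G) {u v u' v' : W}
    (h : H.Adj u v) (h' : H.Adj u' v') (hs : s(u, v) = s(u', v')) (e : Sym2 V) :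
    e ∈ (M.P u v h).edges ↔ e ∈ (M.P u' v' h').edges := by
  rw [Sym2.eq_iff] at hs
  rcases hs with ⟨rfl, rfl⟩ | ⟨rfl, rfl⟩
  · exact Iff.rfl
  · rw [M.symm _ _ h', SimpleGraph.Walk.edges_reverse, List.mem_reverse]

theorem Model.support_eq {H : SimpleGraph W} {G : SimpleGraph V} (M : Model H G) {u v u' v' : W}
    (h : H.Adj u v) (h' : H.Adj u' v') (hs : s(u, v) = s(u', v')) (x : V) :
    x ∈ (M.P u v h).support ↔ x ∈ (M.P u' v' h').support := by
  rw [Sym2.eq_iff] at hs
  rcases hs with ⟨rfl, rfl⟩ | ⟨rfl, rfl⟩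
  · exact Iff.rfl
  · rw [M.symm _ _ h', SimpleGraph.Walk.support_reverse, List.mem_reverse]

theorem induce_edges {G : SimpleGraph V} (S : Set V) {u v : V} (w : G.Walk u v)
    (hw : ∀ x ∈ w.support, x ∈ S) :
    (w.induce S hw).edges.map (Sym2.map Subtype.val) = w.edges := by
  have h1 : ((w.induce S hw).map (SimpleGraph.Embedding.induce S).toHom).edges = w.edges :=
    congrArg SimpleGraph.Walk.edges (SimpleGraph.Walk.map_induce w hw)
  rw [← h1, SimpleGraph.Walk.edges_map]
  rfl

theorem induce_support {G : SimpleGraph V} (S : Set V) {u v : V} (w : G.Walk u v)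
    (hw : ∀ x ∈ w.support, x ∈ S) :
    (w.induce S hw).support.map Subtype.val = w.support := by
  have h1 : ((w.induce S hw).map (SimpleGraph.Embedding.induce S).toHom).support = w.support :=
    congrArg SimpleGraph.Walk.support (SimpleGraph.Walk.map_induce w hw)
  rw [← h1, SimpleGraph.Walk.support_map]
  rfl

theorem itm_of_model {H : SimpleGraph W} {G : SimpleGraph V} (M : Model H G) :
    IsInducedTopologicalMinor H G := by
  classical
  let S : Set V := {x | M.In x}
  have hb : ∀ w, M.b w ∈ S := fun w => Or.inl ⟨w, rfl⟩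
  have hP : ∀ u v (h : H.Adj u v), ∀ x ∈ (M.P u v h).support, x ∈ S :=
    fun u v h x hx => Or.inr ⟨u, v, h, hx⟩
  have hsup : ∀ u v (h : H.Adj u v) (x : S), x ∈ ((M.P u v h).induce S (hP u v h)).support ↔
      x.1 ∈ (M.P u v h).support := by
    intro u v h x
    rw [SimpleGraph.Walk.support_induce]
    constructor
    · intro hx
      simpa using hx
    · intro hx
      simpa using hx
  have hedge : ∀ u v (h : H.Adj u v) (x y : S),
      s(x.1, y.1) ∈ (M.P u v h).edges → s(x, y) ∈ ((M.P u v h).induce S (hP u v h)).edges := by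
    intro u v h x y hxy
    rw [← induce_edges S (M.P u v h) (hP u v h), List.mem_map] at hxy
    obtain ⟨e, he, hee⟩ := hxy
    have : e = s(x, y) := by
      apply Sym2.map.injective Subtype.val_injective
      exact hee
    exact this ▸ he
  refine ⟨S, fun w => ⟨M.b w, hb w⟩, fun u v h => (M.P u v h).induce S (hP u v h), ?_, ?_, ?_, ?_,
    ?_, ?_, ?_⟩
  · intro w w' hw
    exact M.inj (Subtype.ext_iff.1 hw)
  · intro u v h
    have h2 := M.path u v h
    rw [SimpleGraph.Walk.isPath_def] at h2 ⊢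
    rw [← induce_support S (M.P u v h) (hP u v h)] at h2
    exact h2.of_map _
  · intro u v h
    apply SimpleGraph.Walk.ext_support
    apply List.map_injective_iff.2 (Subtype.val_injective (p := fun x => x ∈ S))
    rw [SimpleGraph.Walk.support_reverse, List.map_reverse]
    erw [induce_support S (M.P u v h) (hP u v h),
      induce_support S (M.P v u h.symm) (hP v u h.symm)]
    rw [M.symm u v h, SimpleGraph.Walk.support_reverse]
  · intro u v h w hw
    exact M.branch u v h w ((hsup u v h _).1 hw)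
  · intro u v h u' v' h' x hx hx'
    rcases M.disj u v h u' v' h' x.1 ((hsup u v h x).1 hx) ((hsup u' v' h' x).1 hx') with
      h1 | ⟨w, hw⟩
    · exact Or.inl h1
    · exact Or.inr ⟨w, Subtype.ext hw⟩
  · intro x
    rcases x.2 with ⟨w, hw⟩ | ⟨u, v, h, hx⟩
    · exact Or.inl ⟨w, Subtype.ext hw⟩
    · exact Or.inr ⟨u, v, h, (hsup u v h x).2 hx⟩
  · intro x y hxy
    obtain ⟨u, v, h, hm⟩ := M.ind x.1 y.1 x.2 y.2 hxy
    exact ⟨u, v, h, hedge u v h x y hm⟩

theorem itm_iff {H : SimpleGraph W} {G : SimpleGraph V} :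
    IsInducedTopologicalMinor H G ↔ Nonempty (Model H G) :=
  ⟨model_of_itm, fun ⟨M⟩ => itm_of_model M⟩

end Pool.Agent.K6.H4.Itm
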