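import Pool.Agent.K6.H4.ItmPaw

/-! 2-connected graphs without a witness for the diamond. -/

set_option autoImplicit false

namespace Pool.Agent.K6.H4.Itm

open Finset Classical Pool.Agent.H175R2

variable {V : Type} {G : SimpleGraph V}

/-- an induced path attached to the cycle at `c a` and `c b` -/
structure Ear (G : SimpleGraph V) (n : ℕ) (c : ℕ → V) (a b m : ℕ) (q : ℕ → V) : Prop where
  out : ∀ k ≤ m, ∀ i < n, q k ≠ c i
  ind : ∀ k l, k < l → l ≤ m → q k ≠ q l ∧ (G.Adj (q k) (q l) ↔ l = k + 1)
  att : ∀ k ≤ m, ∀ i < n, (G.Adj (q k) (c i) ↔ ((k = 0 ∧ i = a) ∨ (k = m ∧ i = b)))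

theorem Ear.rotate {n : ℕ} {c : ℕ → V} {a b m : ℕ} {q : ℕ → V} (h : Ear G n c a b m q) {k : ℕ}
    (hk : k < n) {a' b' : ℕ} (ha' : a' < n) (hb' : b' < n) (ha : rot n k a' = a)
    (hb : rot n k b' = b) : Ear G n (fun i => c (rot n k i)) a' b' m q := by
  refine ⟨fun l hl i hi => h.out l hl _ (rot_lt hk hi), h.ind, ?_⟩
  intro l hl i hi
  rw [h.att l hl _ (rot_lt hk hi), ← ha, ← hb]
  have hinj : ∀ i j, i < n → j < n → rot n k i = rot n k j → i = j := by
    intro i j hi hj hij
    unfold rot at hij
    split_ifs at hij <;> omega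
  constructor
  · rintro (⟨h1, h2⟩ | ⟨h1, h2⟩)
    · exact Or.inl ⟨h1, hinj _ _ hi ha' h2⟩
    · exact Or.inr ⟨h1, hinj _ _ hi hb' h2⟩
  · rintro (⟨h1, rfl⟩ | ⟨h1, rfl⟩)
    · exact Or.inl ⟨h1, rfl⟩
    · exact Or.inr ⟨h1, rfl⟩

theorem Ear.rev {n : ℕ} {c : ℕ → V} {a b m : ℕ} {q : ℕ → V} (h : Ear G n c a b m q) :
    Ear G n c b a m (fun k => q (m - k)) := by
  refine ⟨fun k _ i hi => h.out _ (by omega) i hi, ?_, ?_⟩
  · intro k l hkl hl
    have h1 := h.ind (m - l) (m - k) (by omega) (by omega)
    refine ⟨h1.1.symm, ?_⟩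
    rw [G.adj_comm, h1.2]
    omega
  · intro k hk i hi
    rw [h.att _ (by omega) i hi]
    constructor
    · rintro (⟨h1, h2⟩ | ⟨h1, h2⟩)
      · exact Or.inr ⟨by omega, h2⟩
      · exact Or.inl ⟨by omega, h2⟩
    · rintro (⟨h1, h2⟩ | ⟨h1, h2⟩)
      · exact Or.inr ⟨by omega, h2⟩
      · exact Or.inl ⟨by omega, h2⟩

theorem th_of_ear0 {n : ℕ} {c : ℕ → V} (hc : IC G n c) {j m : ℕ} {q : ℕ → V}
    (h : Ear G n c 0 j m q) (hj : 1 ≤ j) (hj2 : j + 2 ≤ n) : TH G :=
  ⟨n, c, j, m, q, hc, hj, hj2, h.out, h.ind, h.att⟩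

theorem th_of_ear1 {n : ℕ} {c : ℕ → V} (hc : IC G n c) {j m : ℕ} {q : ℕ → V}
    (h : Ear G n c 0 j m q) (hj : 1 ≤ j) (hjn : j < n) : TH G := by
  have h3 := hc.three
  by_cases hj2 : j + 2 ≤ n
  · exact th_of_ear0 hc h hj hj2
  · have hk : n - 1 < n := by omega
    refine th_of_ear0 (hc.rotate hk) (h.rev.rotate hk (a' := 0) (b' := 1) (by omega) (by omega)
      ?_ ?_) le_rfl (by omega)
    · unfold rot
      split_ifs <;> omega
    · unfold rot
      split_ifs <;> omega

theorem th_of_ear {n : ℕ} {c : ℕ → V} (hc : IC G n c) {a b m : ℕ} {q : ℕ → V}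
    (h : Ear G n c a b m q) (ha : a < n) (hb : b < n) (hab : a ≠ b) : TH G := by
  have h3 := hc.three
  by_cases hlt : a ≤ b
  · refine th_of_ear1 (hc.rotate ha) (h.rotate ha (a' := 0) (b' := b - a) (by omega) (by omega)
      ?_ ?_) (by omega) (by omega)
    · unfold rot
      split_ifs <;> omega
    · unfold rot
      split_ifs <;> omega
  · refine th_of_ear1 (hc.rotate ha) (h.rotate ha (a' := 0) (b' := b + n - a) (by omega) (by omega)
      ?_ ?_) (by omega) (by omega)
    · unfold rot
      split_ifs <;> omega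
    · unfold rot
      split_ifs <;> omega

/-- a diamond -/
theorem th3 {x y z q : V} (h1 : G.Adj x y) (h2 : G.Adj y z) (h3 : G.Adj x z) (hx : G.Adj q x)
    (hy : G.Adj q y) (hz : ¬ G.Adj q z) (hqz : q ≠ z) : TH G := by
  refine th_of_ear (ic3 h1 h2 h3) (a := 0) (b := 1) (m := 0) (q := fun _ => q) ⟨?_, ?_, ?_⟩
    (by omega) (by omega) (by omega)
  · intro k _ i hi
    have hi' : i = 0 ∨ i = 1 ∨ i = 2 := by omega
    rcases hi' with rfl | rfl | rfl
    · exact hx.ne
    · exact hy.ne
    · exact hqz
  · intro k l hkl hl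
    omega
  · intro k hk i hi
    have hk0 : k = 0 := by omega
    subst hk0
    have hi' : i = 0 ∨ i = 1 ∨ i = 2 := by omega
    rcases hi' with rfl | rfl | rfl
    · simp [hx]
    · simp [hy]
    · simp [hz]

/-- three neighbours on a long induced cycle -/
theorem th_of_three' {n : ℕ} {c : ℕ → V} (hc : IC G n c) {v : V}
    (hv : ∀ i < n, v ≠ c i) (h0 : G.Adj v (c 0)) {a b : ℕ} (ha : 1 ≤ a) (hab : a < b)
    (hb : b + 1 < n) (hva : G.Adj v (c a)) (hvb : G.Adj v (c b)) : TH G := by
  have hex : ∃ t, 1 ≤ t ∧ G.Adj v (c t) := ⟨a, ha, hva⟩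
  obtain ⟨j, hj⟩ : ∃ j, j = Nat.find hex := ⟨_, rfl⟩
  have g1 := Nat.find_spec hex
  have g2 : ∀ s < Nat.find hex, ¬ (1 ≤ s ∧ G.Adj v (c s)) := fun s hs => Nat.find_min hex hs
  have g3 : Nat.find hex ≤ a := Nat.find_min' hex ⟨ha, hva⟩
  rw [← hj] at g1 g2 g3
  have hex' : ∃ t, j < t ∧ G.Adj v (c t) := ⟨b, by omega, hvb⟩
  obtain ⟨k, hk⟩ : ∃ k, k = Nat.find hex' := ⟨_, rfl⟩
  have f1 := Nat.find_spec hex'
  have f2 : ∀ s < Nat.find hex', ¬ (j < s ∧ G.Adj v (c s)) := fun s hs => Nat.find_min hex' hs
  have f3 : Nat.find hex' ≤ b := Nat.find_min' hex' ⟨by omega, hvb⟩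
  rw [← hk] at f1 f2 f3
  clear hex hex' hj hk
  have hcyc : IC G (j + 2) (fun i => if i = 0 then v else c (i - 1)) := by
    refine ⟨by omega, ?_, ?_⟩
    · intro i i' hi hi' hii
      by_cases e0 : i = 0
      · by_cases e0' : i' = 0
        · omega
        · simp only [e0, e0', if_true, if_false] at hii
          exact absurd hii (hv _ (by omega))
      · by_cases e0' : i' = 0
        · simp only [e0, e0', if_true, if_false] at hii
          exact absurd hii.symm (hv _ (by omega))
        · simp only [e0, e0', if_false] at hii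
          have := hc.inj _ _ (by omega) (by omega) hii
          omega
    · intro i i' hii hi'
      have e0' : i' ≠ 0 := by omega
      by_cases e0 : i = 0
      · have e : G.Adj (if i = 0 then v else c (i - 1)) (if i' = 0 then v else c (i' - 1)) ↔
            G.Adj v (c (i' - 1)) := by simp [e0, e0']
        rw [e]
        constructor
        · intro h
          by_cases h9 : i' - 1 = j
          · right; exact ⟨e0, by omega⟩
          · by_cases h8 : i' = 1
            · left; omega
            · exact absurd ⟨by omega, h⟩ (g2 (i' - 1) (by omega))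
        · rintro (h | h)
          · have : i' - 1 = 0 := by omega
            rw [this]; exact h0
          · have : i' - 1 = j := by omega
            rw [this]; exact g1.2
      · have e : G.Adj (if i = 0 then v else c (i - 1)) (if i' = 0 then v else c (i' - 1)) ↔
            G.Adj (c (i - 1)) (c (i' - 1)) := by simp [e0, e0']
        rw [e, hc.adj _ _ (by omega) (by omega)]
        omega
  refine th_of_ear hcyc (a := j + 1) (b := 0) (m := k - j - 1) (q := fun t => c (j + 1 + t))
    ⟨?_, ?_, ?_⟩ (by omega) (by omega) (by omega)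
  · intro t ht i hi
    by_cases e0 : i = 0
    · simp only [e0, if_true]
      exact fun h => hv _ (by omega) h.symm
    · simp only [e0, if_false]
      intro h
      have := hc.inj _ _ (by omega) (by omega) h
      omega
  · intro t s hts hs
    refine ⟨fun h => by have := hc.inj _ _ (by omega) (by omega) h; omega, ?_⟩
    rw [hc.adj _ _ (by omega) (by omega)]
    omega
  · intro t ht i hi
    by_cases e0 : i = 0
    · have e : G.Adj (c (j + 1 + t)) (if i = 0 then v else c (i - 1)) ↔
            G.Adj v (c (j + 1 + t)) := by simp [e0, G.adj_comm]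
      rw [e]
      constructor
      · intro h
        by_cases h9 : j + 1 + t = k
        · right; exact ⟨by omega, e0⟩
        · exact absurd ⟨by omega, h⟩ (f2 (j + 1 + t) (by omega))
      · rintro (h | h)
        · omega
        · have : j + 1 + t = k := by omega
          rw [this]; exact f1.2
    · have e : G.Adj (c (j + 1 + t)) (if i = 0 then v else c (i - 1)) ↔
            G.Adj (c (i - 1)) (c (j + 1 + t)) := by
        rw [if_neg e0, G.adj_comm]
      rw [e, hc.adj _ _ (by omega) (by omega)]
      constructor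
      · rintro (h | h)
        · exact Or.inl ⟨by omega, by omega⟩
        · omega
      · rintro (h | h)
        · left; omega
        · omega

theorem th_of_three {n : ℕ} {c : ℕ → V} (hc : IC G n c) (h4 : 4 ≤ n) {v : V}
    (hv : ∀ i < n, v ≠ c i) {a b d : ℕ} (ha : a < n) (hb : b < n) (hd : d < n) (hab : a ≠ b)
    (had : a ≠ d) (hbd : b ≠ d) (hva : G.Adj v (c a)) (hvb : G.Adj v (c b))
    (hvd : G.Adj v (c d)) : TH G := by
  by_cases hall : ∀ i < n, G.Adj v (c i)
  · refine th3 (x := v) (y := c 1) (z := c 0) (q := c 2) (hall 1 (by omega))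
      ((hc.adj 0 1 (by omega) (by omega)).2 (Or.inl rfl)).symm (hall 0 (by omega))
      (hall 2 (by omega)).symm ((hc.adj 1 2 (by omega) (by omega)).2 (Or.inl rfl)).symm ?_ ?_
    · rw [G.adj_comm, hc.adj 0 2 (by omega) (by omega)]
      omega
    · intro h
      have := hc.inj 2 0 (by omega) (by omega) h
      omega
  · push Not at hall
    obtain ⟨w, hw, hvw⟩ := hall
    obtain ⟨k, hk, h1, h2⟩ := exists_rot hc ha hva hw hvw
    -- at least two further neighbours
    set c' : ℕ → V := fun i => c (rot n k i) with hc'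
    have hback : ∀ i < n, ∃ i' < n, rot n k i' = i := by
      intro i hi
      by_cases h : k ≤ i
      · refine ⟨i - k, by omega, ?_⟩
        unfold rot
        split_ifs <;> omega
      · refine ⟨i + n - k, by omega, ?_⟩
        unfold rot
        split_ifs <;> omega
    obtain ⟨a', ha', e1⟩ := hback a ha
    obtain ⟨b', hb', e2⟩ := hback b hb
    obtain ⟨d', hd', e3⟩ := hback d hd
    have nab : a' ≠ b' := by rintro rfl; exact hab (e1.symm.trans e2)
    have nad : a' ≠ d' := by rintro rfl; exact had (e1.symm.trans e3)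
    have nbd : b' ≠ d' := by rintro rfl; exact hbd (e2.symm.trans e3)
    have fa : G.Adj v (c' a') := by rw [hc']; simp only [e1]; exact hva
    have fb : G.Adj v (c' b') := by rw [hc']; simp only [e2]; exact hvb
    have fd : G.Adj v (c' d') := by rw [hc']; simp only [e3]; exact hvd
    have la : a' ≠ n - 1 := by rintro rfl; exact h2 fa
    have lb : b' ≠ n - 1 := by rintro rfl; exact h2 fb
    have ld : d' ≠ n - 1 := by rintro rfl; exact h2 fd
    have hIC : IC G n c' := hc.rotate hk
    have hv' : ∀ i < n, v ≠ c' i := fun i hi => hv _ (rot_lt hk hi)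
    have fin : ∀ x y, 1 ≤ x → 1 ≤ y → x ≠ y → x + 1 < n → y + 1 < n → G.Adj v (c' x) →
        G.Adj v (c' y) → TH G := by
      intro x y hx hy hxy hxn hyn hvx hvy
      rcases lt_or_gt_of_ne hxy with h | h
      · exact th_of_three' hIC hv' h1 hx h hyn hvx hvy
      · exact th_of_three' hIC hv' h1 hy h hxn hvy hvx
    by_cases a0 : a' = 0
    · exact fin b' d' (by omega) (by omega) nbd (by omega) (by omega) fb fd
    · by_cases b0 : b' = 0
      · exact fin a' d' (by omega) (by omega) nad (by omega) (by omega) fa fd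
      · exact fin a' b' (by omega) (by omega) nab (by omega) (by omega) fa fb

/-- the shortest path attached to two different vertices of a set -/
theorem exists_ear [Fintype V] (h2 : TwoConn G) (K : Finset V) (hK : 2 ≤ K.card)
    (hne : K ≠ univ) : ∃ (m : ℕ) (q : ℕ → V) (x y : V), x ∈ K ∧ y ∈ K ∧ x ≠ y ∧
      G.Adj (q 0) x ∧ G.Adj (q m) y ∧ (∀ k ≤ m, q k ∉ K) ∧
      (∀ k l, k < l → l ≤ m → q k ≠ q l ∧ (G.Adj (q k) (q l) ↔ l = k + 1)) ∧
      (1 ≤ m → ∀ k ≤ m, ∀ z ∈ K, (G.Adj (q k) z ↔ ((k = 0 ∧ z = x) ∨ (k = m ∧ z = y)))) := by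
  have hKne : K.Nonempty := card_pos.1 (by omega)
  have h3 : (univ \ K).Nonempty := by
    rw [sdiff_nonempty]
    exact fun h => hne (subset_antisymm (subset_univ _) h)
  obtain ⟨x, hx, u, hu, hxu⟩ := h2.conn.2 K (subset_univ _) hKne h3
  have huK : u ∉ K := (mem_sdiff.1 hu).2
  obtain ⟨t, htK, htx⟩ : ∃ t ∈ K, t ≠ x := by
    obtain ⟨t, ht, htx⟩ := exists_mem_ne (by omega : 1 < K.card) x
    exact ⟨t, ht, htx⟩
  obtain ⟨m0, y0, e0, e1, e2, e3⟩ := reach (h2.del x) (x := u) (t := t)
    (mem_erase.2 ⟨hxu.ne.symm, mem_univ _⟩) (mem_erase.2 ⟨htx, mem_univ _⟩)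
  -- first entrance
  have hex : ∃ i, i ≤ m0 ∧ y0 i ∈ K := ⟨m0, le_rfl, by rw [e1]; exact htK⟩
  obtain ⟨i, hi⟩ : ∃ i, i = Nat.find hex := ⟨_, rfl⟩
  have g1 := Nat.find_spec hex
  have g2 : ∀ s < Nat.find hex, ¬ (s ≤ m0 ∧ y0 s ∈ K) := fun s hs => Nat.find_min hex hs
  rw [← hi] at g1 g2
  have hi0 : i ≠ 0 := by
    rintro rfl
    rw [e0] at g1
    exact huK g1.2
  obtain ⟨m, q, ⟨⟨a, ha, b, hb, hab, haq, hbq⟩, hS, hadj⟩, hind, hmin⟩ := min_wk (G := G)
    (S := fun v => v ∉ K)
    (R := fun v w => ∃ a ∈ K, ∃ b ∈ K, a ≠ b ∧ G.Adj v a ∧ G.Adj w b) ⟨i - 1, y0, by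
      refine ⟨⟨x, hx, y0 i, g1.2, ?_, ?_, ?_⟩, ?_, ?_⟩
      · exact (mem_erase.1 (e2 i g1.1)).1.symm
      · rw [e0]; exact hxu.symm
      · have := e3 (i - 1) (by omega)
        have e : i - 1 + 1 = i := by omega
        rwa [e] at this
      · intro k hk h
        exact g2 k (by omega) ⟨by omega, h⟩
      · intro k hk
        exact e3 k (by omega)⟩
  refine ⟨m, q, a, b, ha, hb, hab, haq, hbq, hS, hind, ?_⟩
  intro hm k hk z hz
  constructor
  · intro hkz
    by_cases hza : z = a
    · by_cases hk0 : k = 0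
      · exact Or.inl ⟨hk0, hza⟩
      · have hzb : z ≠ b := fun h => hab (hza.symm.trans h)
        have := hmin k m hk le_rfl ⟨z, hz, b, hb, hzb, hkz, hbq⟩
        exact absurd this.1 hk0
    · have h4 := hmin 0 k (by omega) hk ⟨a, ha, z, hz, fun h => hza h.symm, haq, hkz⟩
      by_cases hzb : z = b
      · exact Or.inr ⟨h4.2, hzb⟩
      · have := hmin k m hk le_rfl ⟨z, hz, b, hb, hzb, hkz, hbq⟩
        omega
  · rintro (⟨rfl, rfl⟩ | ⟨rfl, rfl⟩)
    · exact haq
    · exact hbq

theorem dia_two [Fintype V] (hG : ¬ TH G) (h2 : TwoConn G) : DT G 2 univ univ := by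
  have hne : (univ : Finset V).Nonempty := h2.conn.1
  by_cases hlong : ∃ n c, IC G n c ∧ 4 ≤ n
  · obtain ⟨n, c, hc, h4⟩ := hlong
    have hcard : (cv n c).card = n := by
      unfold cv
      rw [card_image_of_injOn, card_range]
      intro i hi j hj hij
      exact hc.inj i j (by simpa using hi) (by simpa using hj) hij
    have hall : cv n c = univ := by
      by_contra hcon
      obtain ⟨m, q, x, y, hx, hy, hxy, hqx, hqy, hS, hind, hatt⟩ :=
        exists_ear h2 (cv n c) (by omega) hcon
      obtain ⟨a, ha, rfl⟩ := mem_cv.1 hx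
      obtain ⟨b, hb, rfl⟩ := mem_cv.1 hy
      have hab : a ≠ b := by
        rintro rfl
        exact hxy rfl
      have hout : ∀ k ≤ m, ∀ i < n, q k ≠ c i := by
        intro k hk i hi h
        exact hS k hk (mem_cv.2 ⟨i, hi, h.symm⟩)
      by_cases hm : 1 ≤ m
      · refine hG (th_of_ear hc (a := a) (b := b) (m := m) (q := q) ⟨hout, hind, ?_⟩ ha hb hab)
        intro k hk i hi
        rw [hatt hm k hk (c i) (mem_cv.2 ⟨i, hi, rfl⟩)]
        constructor
        · rintro (⟨h5, h6⟩ | ⟨h5, h6⟩)
          · exact Or.inl ⟨h5, hc.inj _ _ hi ha h6⟩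
          · exact Or.inr ⟨h5, hc.inj _ _ hi hb h6⟩
        · rintro (⟨h5, rfl⟩ | ⟨h5, rfl⟩)
          · exact Or.inl ⟨h5, rfl⟩
          · exact Or.inr ⟨h5, rfl⟩
      · have hm0 : m = 0 := by omega
        subst hm0
        by_cases hthree : ∃ d < n, d ≠ a ∧ d ≠ b ∧ G.Adj (q 0) (c d)
        · obtain ⟨d, hd, hda, hdb, hqd⟩ := hthree
          exact hG (th_of_three hc h4 (hout 0 le_rfl) ha hb hd hab (Ne.symm hda) (Ne.symm hdb)
            hqx hqy hqd)
        · push Not at hthree
          refine hG (th_of_ear hc (a := a) (b := b) (m := 0) (q := q) ⟨hout, hind, ?_⟩ ha hb hab)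
          intro k hk i hi
          have hk0 : k = 0 := by omega
          subst hk0
          constructor
          · intro h
            by_cases e1 : i = a
            · exact Or.inl ⟨rfl, e1⟩
            · by_cases e2 : i = b
              · exact Or.inr ⟨rfl, e2⟩
              · exact absurd h (hthree i hi e1 e2)
          · rintro (⟨_, rfl⟩ | ⟨_, rfl⟩)
            · exact hqx
            · exact hqy
    refine dt_deg_two (deg_of_cycle hc ?_) _ _ (Subset.refl _) le_rfl h2.conn
    intro x
    exact mem_cv.1 (by rw [hall]; exact mem_univ _)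
  · push Not at hlong
    obtain ⟨n, c, hc⟩ := exists_ic h2
    have h3 := hc.three
    have h5 := hlong n c hc
    have hn : n = 3 := by omega
    subst hn
    have a01 : G.Adj (c 0) (c 1) := (hc.adj 0 1 (by omega) (by omega)).2 (Or.inl rfl)
    have a12 : G.Adj (c 1) (c 2) := (hc.adj 1 2 (by omega) (by omega)).2 (Or.inl rfl)
    have a02 : G.Adj (c 0) (c 2) := (hc.adj 0 2 (by omega) (by omega)).2 (Or.inr ⟨rfl, rfl⟩)
    -- a maximum clique
    obtain ⟨K, hK, hmax⟩ := (univ.filter (fun K : Finset V =>
      ∀ x ∈ K, ∀ y ∈ K, x ≠ y → G.Adj x y)).exists_max_image card ⟨∅, by simp⟩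
    simp only [mem_filter, mem_univ, true_and] at hK hmax
    have hK3 : 3 ≤ K.card := by
      have h6 := hmax {c 0, c 1, c 2} (by
        intro x hx y hy hxy
        simp only [mem_insert, mem_singleton] at hx hy
        have := a01.symm
        have := a12.symm
        have := a02.symm
        rcases hx with rfl | rfl | rfl <;> rcases hy with rfl | rfl | rfl <;> simp_all)
      have h7 : ({c 0, c 1, c 2} : Finset V).card = 3 := by
        rw [card_eq_three]
        exact ⟨_, _, _, a01.ne, a02.ne, a12.ne, rfl⟩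
      omega
    have hall : K = univ := by
      by_contra hcon
      obtain ⟨m, q, x, y, hx, hy, hxy, hqx, hqy, hS, hind, hatt⟩ :=
        exists_ear h2 K (by omega) hcon
      by_cases hm : 1 ≤ m
      · obtain ⟨z, hz⟩ : (K \ {x, y}).Nonempty := by
          rw [← card_pos]
          have h6 := le_card_sdiff {x, y} K
          have h7 : ({x, y} : Finset V).card ≤ 2 := card_le_two
          omega
        simp only [mem_sdiff, mem_insert, mem_singleton, not_or] at hz
        obtain ⟨hzK, hzx, hzy⟩ := hz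
        have b1 := hK x hx y hy hxy
        have b2 := hK y hy z hzK (Ne.symm hzy)
        have b3 := hK x hx z hzK (Ne.symm hzx)
        refine hG (th_of_ear (ic3 b1 b2 b3) (a := 0) (b := 1) (m := m) (q := q) ⟨?_, hind, ?_⟩
          (by omega) (by omega) (by omega))
        · intro k hk i hi
          have hi' : i = 0 ∨ i = 1 ∨ i = 2 := by omega
          rcases hi' with rfl | rfl | rfl
          · exact fun h => hS k hk (by rw [h]; exact hx)
          · exact fun h => hS k hk (by rw [h]; exact hy)
          · exact fun h => hS k hk (by rw [h]; exact hzK)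
        · intro k hk i hi
          have hi' : i = 0 ∨ i = 1 ∨ i = 2 := by omega
          rcases hi' with rfl | rfl | rfl
          · have e := hatt hm k hk x hx
            have e' : G.Adj (q k) (if 0 = 0 then x else if 0 = 1 then y else z) ↔
              G.Adj (q k) x := by simp
            rw [e', e]
            constructor
            · rintro (⟨h6, _⟩ | ⟨_, h7⟩)
              · exact Or.inl ⟨h6, rfl⟩
              · exact absurd h7 hxy
            · rintro (⟨h6, _⟩ | ⟨_, h7⟩)
              · exact Or.inl ⟨h6, rfl⟩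
              · omega
          · have e := hatt hm k hk y hy
            have e' : G.Adj (q k) (if 1 = 0 then x else if 1 = 1 then y else z) ↔
              G.Adj (q k) y := by simp
            rw [e', e]
            constructor
            · rintro (⟨_, h7⟩ | ⟨h6, _⟩)
              · exact absurd h7.symm hxy
              · exact Or.inr ⟨h6, rfl⟩
            · rintro (⟨_, h7⟩ | ⟨h6, _⟩)
              · omega
              · exact Or.inr ⟨h6, rfl⟩
          · have e := hatt hm k hk z hzK
            have e' : G.Adj (q k) (if 2 = 0 then x else if 2 = 1 then y else z) ↔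
              G.Adj (q k) z := by simp
            rw [e', e]
            constructor
            · rintro (⟨_, h7⟩ | ⟨_, h7⟩)
              · exact absurd h7 hzx
              · exact absurd h7 hzy
            · rintro (⟨_, h7⟩ | ⟨_, h7⟩) <;> omega
      · have hm0 : m = 0 := by omega
        subst hm0
        -- some vertex of the clique is not adjacent to `q 0`
        obtain ⟨z, hzK, hqz⟩ : ∃ z ∈ K, ¬ G.Adj (q 0) z := by
          by_contra hcon2
          push Not at hcon2
          have hq : q 0 ∉ K := hS 0 le_rfl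
          have h6 := hmax (insert (q 0) K) (by
            intro a ha b hb hab
            rw [mem_insert] at ha hb
            rcases ha with rfl | ha <;> rcases hb with rfl | hb
            · exact absurd rfl hab
            · exact hcon2 b hb
            · exact (hcon2 a ha).symm
            · exact hK a ha b hb hab)
          rw [card_insert_of_notMem hq] at h6
          omega
        have hzx : x ≠ z := by
          rintro rfl
          exact hqz hqx
        have hzy : y ≠ z := by
          rintro rfl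
          exact hqz hqy
        exact hG (th3 (hK x hx y hy hxy) (hK y hy z hzK hzy) (hK x hx z hzK hzx) hqx hqy hqz
          (fun h => hS 0 le_rfl (by rw [h]; exact hzK)))
    have hP : P4Free G univ := by
      intro a _ b _ c' _ d _ hac _ _ _ _ _
      exact Or.inl (hK a (by rw [hall]; exact mem_univ _) c' (by rw [hall]; exact mem_univ _) hac)
    exact (dt_cograph _ univ univ le_rfl hne (Subset.refl _) hP
      (fun _ _ _ _ z hz hz' => absurd hz hz')).mono (by omega)

end Pool.Agent.K6.H4.Itm
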