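import Pool.Agent.K6.H4.ItmBasic
import Pool.Agent.K6.H4.ItmClass2

/-! Induced topological minors from labelled paths; the witnesses for the paw and the diamond. -/

set_option autoImplicit false

namespace Pool.Agent.K6.H4.Itm

open SimpleGraph Pool.Agent.H175R2

variable {V : Type} {G : SimpleGraph V}

theorem exists_walk (x : ℕ → V) (m : ℕ) (h : ∀ k < m, G.Adj (x k) (x (k + 1))) :
    ∃ p : G.Walk (x 0) (x m), p.support = (List.range (m + 1)).map x ∧
      p.edges = (List.range m).map (fun k => s(x k, x (k + 1))) := by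
  induction m with
  | zero => exact ⟨Walk.nil, by simp, by simp⟩
  | succ m ih =>
    obtain ⟨p, h1, h2⟩ := ih (fun k hk => h k (by omega))
    refine ⟨p.concat (h m (by omega)), ?_, ?_⟩
    · rw [Walk.support_concat, h1, List.range_succ (n := m + 1), List.map_append]
      simp
    · rw [Walk.edges_concat, h2, List.range_succ (n := m), List.map_append]
      simp

theorem itm_of_label {n0 : ℕ} {H : SimpleGraph (Fin n0)} (N : ℕ) (g : ℕ → V)
    (ginj : ∀ s t, s < N → t < N → g s = g t → s = t)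
    (β : Fin n0 → ℕ) (L : Fin n0 → Fin n0 → ℕ) (ξ : Fin n0 → Fin n0 → ℕ → ℕ)
    (hβ : ∀ u, β u < N) (βinj : Function.Injective β)
    (hN : ∀ u v, u < v → H.Adj u v → ∀ k ≤ L u v, ξ u v k < N)
    (h0 : ∀ u v, u < v → H.Adj u v → ξ u v 0 = β u)
    (h1 : ∀ u v, u < v → H.Adj u v → ξ u v (L u v) = β v)
    (inj : ∀ u v, u < v → H.Adj u v → ∀ k l, k ≤ L u v → l ≤ L u v → ξ u v k = ξ u v l → k = l)
    (branch : ∀ u v, u < v → H.Adj u v → ∀ w k, k ≤ L u v → ξ u v k = β w → w = u ∨ w = v)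
    (disj : ∀ u v u' v', u < v → u' < v' → H.Adj u v → H.Adj u' v' → ¬ (u = u' ∧ v = v') →
      ∀ k l, k ≤ L u v → l ≤ L u' v' → ξ u v k = ξ u' v' l → ∃ w, β w = ξ u v k)
    (cover : ∀ s < N, ∀ t < N, s < t → G.Adj (g s) (g t) → ∃ u v, u < v ∧ H.Adj u v ∧
      ∃ k < L u v, (ξ u v k = s ∧ ξ u v (k + 1) = t) ∨ (ξ u v k = t ∧ ξ u v (k + 1) = s))
    (adj : ∀ u v, u < v → H.Adj u v → ∀ k < L u v, G.Adj (g (ξ u v k)) (g (ξ u v (k + 1)))) :
    IsInducedTopologicalMinor H G := by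
  classical
  have hw : ∀ u v (hlt : u < v) (h : H.Adj u v), ∃ p : G.Walk (g (β u)) (g (β v)),
      p.support = (List.range (L u v + 1)).map (fun k => g (ξ u v k)) ∧
      p.edges = (List.range (L u v)).map (fun k => s(g (ξ u v k), g (ξ u v (k + 1)))) := by
    intro u v hlt h
    obtain ⟨p, hp1, hp2⟩ := exists_walk (G := G) (fun k => g (ξ u v k)) (L u v)
      (adj u v hlt h)
    exact ⟨p.copy (by rw [h0 u v hlt h]) (by rw [h1 u v hlt h]), by simpa using hp1,
      by simpa using hp2⟩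
  choose p hp1 hp2 using hw
  let P : ∀ u v, H.Adj u v → G.Walk (g (β u)) (g (β v)) := fun u v h =>
    if hlt : u < v then p u v hlt h
    else (p v u (lt_of_le_of_ne (not_lt.1 hlt) h.ne.symm) h.symm).reverse
  have hP1 : ∀ u v (h : H.Adj u v) (hlt : u < v), P u v h = p u v hlt h := by
    intro u v h hlt
    simp only [P, dif_pos hlt]
  have hP2 : ∀ u v (h : H.Adj u v) (hlt : v < u), P u v h = (p v u hlt h.symm).reverse := by
    intro u v h hlt
    simp only [P, dif_neg (not_lt.2 hlt.le)]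
  -- membership in the support
  have hsup : ∀ u v (h : H.Adj u v) x, x ∈ (P u v h).support → ∃ u' v', u' < v' ∧ H.Adj u' v' ∧
      s(u, v) = s(u', v') ∧ ∃ k ≤ L u' v', g (ξ u' v' k) = x := by
    intro u v h x hx
    rcases lt_or_gt_of_ne h.ne with hlt | hlt
    · rw [hP1 u v h hlt, hp1, List.mem_map] at hx
      obtain ⟨k, hk, hkx⟩ := hx
      exact ⟨u, v, hlt, h, rfl, k, by have := List.mem_range.1 hk; omega, hkx⟩
    · rw [hP2 u v h hlt, Walk.support_reverse, List.mem_reverse, hp1, List.mem_map] at hx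
      obtain ⟨k, hk, hkx⟩ := hx
      exact ⟨v, u, hlt, h.symm, Sym2.eq_swap, k, by have := List.mem_range.1 hk; omega, hkx⟩
  refine itm_of_model ⟨fun u => g (β u), P, ?_, ?_, ?_, ?_, ?_, ?_⟩
  · intro u v h
    exact βinj (ginj _ _ (hβ u) (hβ v) h)
  · intro u v h
    have key : ∀ u v (hlt : u < v) (h : H.Adj u v), (p u v hlt h).IsPath := by
      intro u v hlt h
      rw [Walk.isPath_def, hp1]
      refine List.Nodup.map_on ?_ List.nodup_range
      intro k hk l hl hkl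
      have hk' := List.mem_range.1 hk
      have hl' := List.mem_range.1 hl
      exact inj u v hlt h k l (by omega) (by omega)
        (ginj _ _ (hN u v hlt h k (by omega)) (hN u v hlt h l (by omega)) hkl)
    rcases lt_or_gt_of_ne h.ne with hlt | hlt
    · rw [hP1 u v h hlt]
      exact key _ _ _ _
    · rw [hP2 u v h hlt]
      exact (key _ _ _ _).reverse
  · intro u v h
    rcases lt_or_gt_of_ne h.ne with hlt | hlt
    · rw [hP1 u v h hlt, hP2 v u h.symm hlt]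
    · rw [hP2 u v h hlt, hP1 v u h.symm hlt, Walk.reverse_reverse]
  · intro u v h w hw
    obtain ⟨u', v', hlt, h', hs, k, hk, hkx⟩ := hsup u v h _ hw
    have := branch u' v' hlt h' w k hk (ginj _ _ (hN u' v' hlt h' k hk) (hβ w) hkx)
    rw [Sym2.eq_iff] at hs
    rcases hs with ⟨rfl, rfl⟩ | ⟨rfl, rfl⟩
    · exact this
    · exact this.symm
  · intro u v h u' v' h' x hx hx'
    obtain ⟨a, b, hlt, hab, hs, k, hk, hkx⟩ := hsup u v h _ hx
    obtain ⟨a', b', hlt', hab', hs', k', hk', hkx'⟩ := hsup u' v' h' _ hx'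
    by_cases he : a = a' ∧ b = b'
    · left
      obtain ⟨rfl, rfl⟩ := he
      rw [hs, hs']
    · right
      have hkk := ginj _ _ (hN a b hlt hab k hk) (hN a' b' hlt' hab' k' hk') (hkx.trans hkx'.symm)
      obtain ⟨w, hw⟩ := disj a b a' b' hlt hlt' hab hab' he k k' hk hk' hkk
      exact ⟨w, by simp only [hw, hkx]⟩
  · intro x y hx hy hxy
    have hlab : ∀ x, (x ∈ Set.range (fun u => g (β u)) ∨ ∃ u v, ∃ h : H.Adj u v,
        x ∈ (P u v h).support) → ∃ s < N, g s = x := by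
      rintro x (⟨u, rfl⟩ | ⟨u, v, h, hx⟩)
      · exact ⟨_, hβ u, rfl⟩
      · obtain ⟨u', v', hlt, h', _, k, hk, hkx⟩ := hsup u v h _ hx
        exact ⟨_, hN u' v' hlt h' k hk, hkx⟩
    obtain ⟨s, hs, rfl⟩ := hlab x hx
    obtain ⟨t, ht, rfl⟩ := hlab y hy
    have fin : ∀ s t, s < N → t < N → s < t → G.Adj (g s) (g t) →
        ∃ u v, ∃ h : H.Adj u v, s(g s, g t) ∈ (P u v h).edges := by
      intro s t hs ht hst hadj
      obtain ⟨u, v, hlt, h, k, hk, hkk⟩ := cover s hs t ht hst hadj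
      refine ⟨u, v, h, ?_⟩
      rw [hP1 u v h hlt, hp2, List.mem_map]
      refine ⟨k, List.mem_range.2 hk, ?_⟩
      rcases hkk with ⟨e1, e2⟩ | ⟨e1, e2⟩
      · rw [e1, e2]
      · rw [e1, e2, Sym2.eq_swap]
    have hne : s ≠ t := by
      rintro rfl
      exact G.irrefl hxy
    rcases lt_or_gt_of_ne hne with hst | hst
    · exact fin s t hs ht hst hxy
    · obtain ⟨u, v, h, hm⟩ := fin t s ht hs hst hxy.symm
      exact ⟨u, v, h, by rw [Sym2.eq_swap]; exact hm⟩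

/-- induced cycle `c 0, ..., c (n - 1)` -/
structure IC (G : SimpleGraph V) (n : ℕ) (c : ℕ → V) : Prop where
  three : 3 ≤ n
  inj : ∀ i j, i < n → j < n → c i = c j → i = j
  adj : ∀ i j, i < j → j < n → (G.Adj (c i) (c j) ↔ (j = i + 1 ∨ (i = 0 ∧ j = n - 1)))

/-- an induced cycle and a vertex with exactly one neighbour on it -/
def PW (G : SimpleGraph V) : Prop :=
  ∃ (n : ℕ) (c : ℕ → V) (p : V), IC G n c ∧ (∀ i < n, p ≠ c i) ∧ G.Adj p (c 0) ∧
    ∀ i, 1 ≤ i → i < n → ¬ G.Adj p (c i)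

/-- an induced cycle and an induced path attached to two of its vertices -/
def TH (G : SimpleGraph V) : Prop :=
  ∃ (n : ℕ) (c : ℕ → V) (j m : ℕ) (q : ℕ → V), IC G n c ∧ 1 ≤ j ∧ j + 2 ≤ n ∧
    (∀ k ≤ m, ∀ i < n, q k ≠ c i) ∧
    (∀ k l, k < l → l ≤ m → q k ≠ q l ∧ (G.Adj (q k) (q l) ↔ l = k + 1)) ∧
    (∀ k ≤ m, ∀ i < n, (G.Adj (q k) (c i) ↔ ((k = 0 ∧ i = 0) ∨ (k = m ∧ i = j))))

theorem paw_lt : ∀ u v : Fin 4, u < v → paw.Adj u v →
    (u = 0 ∧ v = 1) ∨ (u = 0 ∧ v = 2) ∨ (u = 0 ∧ v = 3) ∨ (u = 1 ∧ v = 2) := by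
  intro u v
  rw [adj_paw]
  revert u v
  decide

theorem dia_lt : ∀ u v : Fin 4, u < v → diamond.Adj u v →
    (u = 0 ∧ v = 1) ∨ (u = 0 ∧ v = 2) ∨ (u = 0 ∧ v = 3) ∨ (u = 1 ∧ v = 2) ∨ (u = 1 ∧ v = 3) := by
  intro u v
  rw [adj_dia]
  revert u v
  decide

end Pool.Agent.K6.H4.Itm
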